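import Mathlib

set_option autoImplicit false

open Real Set

namespace H855HC

/-- `u` is Lipschitz with constant `η`. -/
def Lip (η : ℝ) (u : ℝ → ℝ) : Prop := ∀ x y, |u x - u y| ≤ η * |x - y|

theorem arctan_lip (x y : ℝ) : |arctan x - arctan y| ≤ |x - y| := by
  have h : LipschitzWith 1 arctan := by
    apply lipschitzWith_of_nnnorm_deriv_le differentiable_arctan
    intro x
    rw [Real.deriv_arctan, ← NNReal.coe_le_coe, coe_nnnorm, Real.norm_eq_abs, NNReal.coe_one,
      abs_of_pos (by positivity)]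
    rw [div_le_one (by positivity)]
    nlinarith [sq_nonneg x]
  have := h.dist_le_mul x y
  simpa [Real.dist_eq] using this

theorem abs_arctan_le (x : ℝ) : |arctan x| ≤ |x| := by
  have := arctan_lip x 0
  simpa using this

theorem abs_arctan_le_two (x : ℝ) : |arctan x| ≤ 2 := by
  rw [abs_le]
  have h1 := neg_pi_div_two_lt_arctan x
  have h2 := arctan_lt_pi_div_two x
  have h3 := pi_le_four
  constructor <;> linarith

theorem log_large {η s : ℝ} (hη : 0 ≤ η) (hη' : η ≤ 1 / 4) (hs : 2 * η < |s|) :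
    η * |arctan s| ≤ log (1 + s ^ 2) := by
  have h1 := Real.one_sub_inv_le_log_of_pos (show 0 < 1 + s ^ 2 by positivity)
  have h2 : 1 - (1 + s ^ 2)⁻¹ = s ^ 2 / (1 + s ^ 2) := by
    field_simp
    ring
  rw [h2] at h1
  refine le_trans ?_ h1
  rw [le_div_iff₀ (by positivity)]
  have h3 := abs_arctan_le s
  have h4 := abs_arctan_le_two s
  have h5 : s ^ 2 = |s| ^ 2 := (sq_abs s).symm
  rw [h5]
  have h6 := abs_nonneg (arctan s)
  have h7 := abs_nonneg s
  rcases le_or_gt |s| 1 with h | h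
  · have : η * |arctan s| ≤ η * |s| := mul_le_mul_of_nonneg_left h3 hη
    nlinarith [mul_nonneg hη h7, mul_nonneg (mul_nonneg hη h7) h7]
  · have : η * |arctan s| ≤ 1 / 2 := by nlinarith
    nlinarith

theorem log_one_add_nonneg (s : ℝ) : 0 ≤ log (1 + s ^ 2) :=
  Real.log_nonneg (by nlinarith [sq_nonneg s])

/-- The infimal convolution of `u` with `τ ↦ log (1 + tan² τ)`. -/
noncomputable def infc (u : ℝ → ℝ) (φ : ℝ) : ℝ := ⨅ s : ℝ, (u (φ - arctan s) + log (1 + s ^ 2))

theorem infc_bdd {η : ℝ} {u : ℝ → ℝ} (hu : Lip η u) (hη : 0 ≤ η) (φ : ℝ) :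
    BddBelow (range fun s : ℝ => u (φ - arctan s) + log (1 + s ^ 2)) := by
  refine ⟨u φ - η * 2, ?_⟩
  rintro _ ⟨s, rfl⟩
  have h1 := hu (φ - arctan s) φ
  have h2 : |φ - arctan s - φ| ≤ 2 := by
    rw [show φ - arctan s - φ = -arctan s by ring, abs_neg]
    exact abs_arctan_le_two s
  have h3 := log_one_add_nonneg s
  have h4 : η * |φ - arctan s - φ| ≤ η * 2 := mul_le_mul_of_nonneg_left h2 hη
  have h5 := neg_abs_le (u (φ - arctan s) - u φ)
  simp only
  linarith

theorem infc_le {η : ℝ} {u : ℝ → ℝ} (hu : Lip η u) (hη : 0 ≤ η) (φ s : ℝ) :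
    infc u φ ≤ u (φ - arctan s) + log (1 + s ^ 2) :=
  ciInf_le (infc_bdd hu hη φ) s

theorem infc_le_self {η : ℝ} {u : ℝ → ℝ} (hu : Lip η u) (hη : 0 ≤ η) (φ : ℝ) :
    infc u φ ≤ u φ := by
  have := infc_le hu hη φ 0
  simpa using this

theorem le_infc {u : ℝ → ℝ} {φ a : ℝ} (h : ∀ s, a ≤ u (φ - arctan s) + log (1 + s ^ 2)) :
    a ≤ infc u φ := le_ciInf h

theorem infc_lip {η : ℝ} {u : ℝ → ℝ} (hu : Lip η u) (hη : 0 ≤ η) : Lip η (infc u) := by
  have key : ∀ x y, infc u x - η * |x - y| ≤ infc u y := by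
    intro x y
    apply le_infc
    intro s
    have h1 := infc_le hu hη x s
    have h2 := hu (x - arctan s) (y - arctan s)
    have h3 : x - arctan s - (y - arctan s) = x - y := by ring
    rw [h3] at h2
    have h4 := le_abs_self (u (x - arctan s) - u (y - arctan s))
    linarith
  intro x y
  rw [abs_le]
  have h1 := key x y
  have h2 := key y x
  rw [abs_sub_comm y x] at h2
  constructor <;> linarith

theorem infc_diff_aux {η N : ℝ} {u₁ u₂ : ℝ → ℝ} (h₁ : Lip η u₁) (h₂ : Lip η u₂)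
    (hη : 0 ≤ η) (hη' : η ≤ 1 / 4) (hN : 0 ≤ N)
    (hd : Lip N (fun x => u₁ x - u₂ x)) (φ : ℝ) :
    infc u₁ φ - (u₁ φ - u₂ φ) - 2 * η * N ≤ infc u₂ φ := by
  apply le_infc
  intro s
  rcases le_or_gt |s| (2 * η) with h | h
  · have h3 := infc_le h₁ hη φ s
    have h4 := hd (φ - arctan s) φ
    simp only at h4
    have h5 : |φ - arctan s - φ| ≤ 2 * η := by
      rw [show φ - arctan s - φ = -arctan s by ring, abs_neg]
      exact (abs_arctan_le s).trans h
    have h6 : N * |φ - arctan s - φ| ≤ N * (2 * η) := mul_le_mul_of_nonneg_left h5 hN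
    have h7 := le_abs_self (u₁ (φ - arctan s) - u₂ (φ - arctan s) - (u₁ φ - u₂ φ))
    linarith
  · have h3 := infc_le_self h₁ hη φ
    have h4 := log_large hη hη' h
    have h5 := h₂ (φ - arctan s) φ
    rw [show φ - arctan s - φ = -arctan s by ring, abs_neg] at h5
    have h6 := neg_abs_le (u₂ (φ - arctan s) - u₂ φ)
    have h7 : 0 ≤ 2 * η * N := by positivity
    linarith

theorem infc_diff {η N : ℝ} {u₁ u₂ : ℝ → ℝ} (h₁ : Lip η u₁) (h₂ : Lip η u₂)
    (hη : 0 ≤ η) (hη' : η ≤ 1 / 4) (hN : 0 ≤ N)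
    (hd : Lip N (fun x => u₁ x - u₂ x)) (φ : ℝ) :
    |infc u₁ φ - infc u₂ φ - (u₁ φ - u₂ φ)| ≤ 2 * η * N := by
  have hd' : Lip N (fun x => u₂ x - u₁ x) := by
    intro x y
    have := hd x y
    rw [abs_sub_comm] at this
    rw [show (fun x => u₂ x - u₁ x) x - (fun x => u₂ x - u₁ x) y =
      (fun x => u₁ x - u₂ x) y - (fun x => u₁ x - u₂ x) x by ring]
    exact this
  have a := infc_diff_aux h₁ h₂ hη hη' hN hd φ
  have b := infc_diff_aux h₂ h₁ hη hη' hN hd' φ
  rw [abs_le]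
  constructor <;> linarith

theorem infc_ge {η : ℝ} {u : ℝ → ℝ} (hu : Lip η u) (hη : 0 ≤ η) (hη' : η ≤ 1 / 4) (φ : ℝ) :
    u φ - 2 * η * η ≤ infc u φ := by
  apply le_infc
  intro s
  have h5 := hu (φ - arctan s) φ
  rw [show φ - arctan s - φ = -arctan s by ring, abs_neg] at h5
  have h6 := neg_abs_le (u (φ - arctan s) - u φ)
  rcases le_or_gt |s| (2 * η) with h | h
  · have h4 := log_one_add_nonneg s
    have h7 : η * |arctan s| ≤ η * (2 * η) :=
      mul_le_mul_of_nonneg_left ((abs_arctan_le s).trans h) hη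
    linarith
  · have h4 := log_large hη hη' h
    nlinarith [mul_nonneg hη hη]

theorem infc_periodic {u : ℝ → ℝ} {p : ℝ} (hu : ∀ x, u (x + p) = u x) (φ : ℝ) :
    infc u (φ + p) = infc u φ := by
  unfold infc
  congr 1
  ext s
  rw [show φ + p - arctan s = φ - arctan s + p by ring, hu]

theorem infc_even {u : ℝ → ℝ} (hu : ∀ x, u (-x) = u x) (φ : ℝ) :
    infc u (-φ) = infc u φ := by
  unfold infc
  rw [← (Equiv.neg ℝ).iInf_comp]
  congr 1
  ext s
  simp only [Equiv.neg_apply, arctan_neg]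
  rw [show -φ - -arctan s = -(φ - arctan s) by ring, hu]
  congr 2
  ring

end H855HC
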