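import Pool.Agent.H855R3.HC.Tf

set_option autoImplicit false

open Real Set intervalIntegral BoundedContinuousFunction Filter Topology

namespace H855HC

theorem ell_add_smul_mem {v w : ℝ → ℝ} (hv : Good v) (hw : Good w) :
    Good (fun t => v t + w t) where
  cont := hv.cont.add hw.cont
  per := by intro x; simp only [hv.per, hw.per]
  odd := by intro x; simp only [hv.odd, hw.odd]; ring

theorem good_smul (a : ℝ) {v : ℝ → ℝ} (hv : Good v) : Good (fun t => a * v t) where
  cont := continuous_const.mul hv.cont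
  per := by intro x; simp only [hv.per]
  odd := by intro x; simp only [hv.odd]; ring

/-- The Banach space in which the fixed point is found. -/
def V0 : Submodule ℝ (ℝ →ᵇ ℝ) where
  carrier := {v | Good v ∧ ell v = 0}
  add_mem' := by
    rintro v w ⟨hv, hv'⟩ ⟨hw, hw'⟩
    refine ⟨ell_add_smul_mem hv hw, ?_⟩
    have := ell_add hv.cont hw.cont
    rw [hv', hw', add_zero] at this
    exact this
  zero_mem' := by
    refine ⟨zero_good, ?_⟩
    have : ell (fun _ => (0 : ℝ)) = 0 := by unfold ell; simp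
    exact this
  smul_mem' := by
    rintro a v ⟨hv, hv'⟩
    refine ⟨good_smul a hv, ?_⟩
    have := ell_smul a v
    rw [hv', mul_zero] at this
    exact this

theorem V0_closed : IsClosed (V0 : Set (ℝ →ᵇ ℝ)) := by
  have h1 : (V0 : Set (ℝ →ᵇ ℝ)) = (⋂ x : ℝ, {v : ℝ →ᵇ ℝ | v (x + P) = v x}) ∩
      (⋂ x : ℝ, {v : ℝ →ᵇ ℝ | v (-x) = -v x}) ∩ {v : ℝ →ᵇ ℝ | ell v = 0} := by
    ext v
    constructor
    · rintro ⟨hv, h0⟩
      exact ⟨⟨mem_iInter.2 hv.per, mem_iInter.2 hv.odd⟩, h0⟩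
    · rintro ⟨⟨h1, h2⟩, h0⟩
      exact ⟨⟨v.continuous, mem_iInter.1 h1, mem_iInter.1 h2⟩, h0⟩
  rw [h1]
  refine IsClosed.inter (IsClosed.inter ?_ ?_) ?_
  · exact isClosed_iInter fun x => isClosed_eq (continuous_eval_const _) (continuous_eval_const _)
  · exact isClosed_iInter fun x => isClosed_eq (continuous_eval_const _)
      (continuous_eval_const _).neg
  · refine isClosed_eq ?_ continuous_const
    have : LipschitzWith 2 (fun v : ℝ →ᵇ ℝ => ell v) := by
      apply LipschitzWith.of_dist_le_mul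
      intro v w
      rw [Real.dist_eq, ← ell_sub v.continuous w.continuous]
      have hb : Bd (dist v w) (fun t => v t - w t) := by
        intro t
        have := dist_coe_le_dist (f := v) (g := w) t
        rwa [Real.dist_eq] at this
      simpa using ell_bd hb
    exact this.continuous

instance : CompleteSpace V0 := V0_closed.completeSpace_coe

/-- parameter interval -/
abbrev EE := Icc (145 / 1000 : ℝ) (155 / 1000)

theorem V0_bd (w : V0) : Bd ‖w‖ w.1 := by
  intro t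
  have := (w.1).norm_coe_le_norm t
  simpa using this

theorem V0_bd_sub (w₁ w₂ : V0) : Bd (dist w₁ w₂) (fun t => w₁.1 t - w₂.1 t) := by
  intro t
  have := dist_coe_le_dist (f := w₁.1) (g := w₂.1) t
  rwa [Real.dist_eq] at this

theorem V0_dist_le {w₁ w₂ : V0} {C : ℝ} (hb : Bd C (fun t => w₁.1 t - w₂.1 t)) :
    dist w₁ w₂ ≤ C := by
  have : dist w₁.1 w₂.1 ≤ C := (dist_le hb.nonneg).2 fun t => by
    rw [Real.dist_eq]; exact hb t
  exact this

/-- The operator on the Banach space. -/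
noncomputable def T (e : EE) (w : V0) : V0 :=
  ⟨ofNormedAddCommGroup (Tf (cc e) w.1)
    (Tf_good (cc_bounds e.2.1 e.2.2).1 (cc_bounds e.2.1 e.2.2).2 w.2.1).cont (20 * ‖w‖ + 1)
    (fun x => Tf_bd (cc_bounds e.2.1 e.2.2).1 (cc_bounds e.2.1 e.2.2).2 w.2.1 (V0_bd w) x),
   Tf_good (cc_bounds e.2.1 e.2.2).1 (cc_bounds e.2.1 e.2.2).2 w.2.1,
   Tf_ell (cc_bounds e.2.1 e.2.2).1 (cc_bounds e.2.1 e.2.2).2 w.2.1 w.2.2⟩

theorem T_coe (e : EE) (w : V0) (t : ℝ) : (T e w).1 t = Tf (cc e) w.1 t := rfl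

theorem T_fun (e : EE) (w : V0) : ((T e w).1 : ℝ → ℝ) = Tf (cc e) w.1 := rfl

theorem T_lip (e : EE) (w₁ w₂ : V0) : dist (T e w₁) (T e w₂) ≤ 21 * dist w₁ w₂ :=
  V0_dist_le (Tf_lip (cc_bounds e.2.1 e.2.2).1 (cc_bounds e.2.1 e.2.2).2 w₁.2.1 w₂.2.1
    (V0_bd_sub w₁ w₂))

theorem T_contr (e : EE) : ContractingWith (95 / 100 : NNReal) ((T e)^[2]) := by
  constructor
  · rw [div_lt_one (by norm_num)]; norm_num
  · apply LipschitzWith.of_dist_le_mul
    intro w₁ w₂
    have h : ((95 / 100 : NNReal) : ℝ) = 95 / 100 := by norm_num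
    rw [h]
    apply V0_dist_le
    exact Tf_lip2 e.2.1 e.2.2 w₁.2.1 w₂.2.1 w₁.2.2 w₂.2.2 (V0_bd_sub w₁ w₂)

/-- The fixed point. -/
noncomputable def wfix (e : EE) : V0 := ContractingWith.fixedPoint ((T e)^[2]) (T_contr e)

theorem T_wfix (e : EE) : T e (wfix e) = wfix e :=
  (T_contr e).isFixedPt_fixedPoint_iterate

theorem dist_wfix (e : EE) (w : V0) : dist (wfix e) w ≤ 20 * dist (T e (T e w)) w := by
  have h1 : dist ((T e)^[2] (wfix e)) ((T e)^[2] w) ≤ 95 / 100 * dist (wfix e) w := by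
    have := (T_contr e).2.dist_le_mul (wfix e) w
    have h : ((95 / 100 : NNReal) : ℝ) = 95 / 100 := by norm_num
    rwa [h] at this
  have h2 : (T e)^[2] (wfix e) = wfix e := by
    simp only [Function.iterate_succ, Function.iterate_zero, Function.comp_apply, id]
    rw [T_wfix, T_wfix]
  have h3 : (T e)^[2] w = T e (T e w) := rfl
  rw [h2, h3] at h1
  have h4 := dist_triangle (wfix e) (T e (T e w)) w
  linarith

theorem clamp_arg_zero : clampf eta0 (arg fun _ => 0) = arg fun _ => 0 := by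
  apply clampf_eq
  intro t
  unfold arg
  rw [add_zero, abs_mul, abs_of_pos eps_pos]
  have := mul_le_mul_of_nonneg_left (s5_bd t) eps_pos.le
  unfold eta0
  unfold eps at this ⊢
  linarith

theorem arg_zero_bd : Bd eps (arg fun _ => 0) := by
  intro t
  unfold arg
  rw [add_zero, abs_mul, abs_of_pos eps_pos]
  have := mul_le_mul_of_nonneg_left (s5_bd t) eps_pos.le
  linarith

theorem T_zero (e : EE) : dist (T e 0) 0 ≤ 5400 * eps * eps := by
  obtain ⟨hc, hc'⟩ := cc_bounds e.2.1 e.2.2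
  apply V0_dist_le
  intro t
  have h0 : ((0 : V0).1 : ℝ → ℝ) = fun _ => 0 := rfl
  show |Tf (cc e) ((0 : V0).1 : ℝ → ℝ) t - ((0 : V0).1 : ℝ → ℝ) t| ≤ _
  rw [h0]
  simp only [sub_zero, Tf, Lop_zero, zero_add, Ep]
  rw [clamp_arg_zero]
  have h1 : eps ≤ 1 / 1000 := by unfold eps; norm_num
  have := prj_bd (Ef_bd (arg_good zero_good) arg_zero_bd h1 hc hc') t
  linarith

theorem wfix_small (e : EE) : dist (wfix e) 0 ≤ eps := by
  have h1 := dist_wfix e 0
  have h2 := T_zero e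
  have h3 := T_lip e (T e 0) 0
  have h4 := dist_triangle (T e (T e 0)) (T e 0) 0
  have h5 : 5400 * eps * eps = 5400 / 10 ^ 8 * eps := by
    nth_rewrite 1 [eps]; ring
  rw [h5] at h2
  have := eps_pos
  linarith

theorem wfix_bd (e : EE) : Bd eps (wfix e).1 := by
  have h := V0_bd_sub (wfix e) 0
  intro t
  have h1 := h t
  have h0 : ((0 : V0).1 : ℝ → ℝ) = fun _ => 0 := rfl
  rw [h0] at h1
  simp only [sub_zero] at h1
  exact h1.trans (wfix_small e)

/-- The candidate solution. -/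
noncomputable def vsol (e : EE) : ℝ → ℝ := arg (wfix e).1

theorem vsol_good (e : EE) : Good (vsol e) := arg_good (wfix e).2.1

theorem vsol_bd (e : EE) : Bd (2 * eps) (vsol e) := by
  intro t
  unfold vsol arg
  refine (abs_add_le _ _).trans ?_
  rw [abs_mul, abs_of_pos eps_pos]
  have := mul_le_mul_of_nonneg_left (s5_bd t) eps_pos.le
  have := wfix_bd e t
  linarith

theorem vsol_clamp (e : EE) : clampf eta0 (vsol e) = vsol e := by
  apply clampf_eq
  refine (vsol_bd e).mono ?_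
  unfold eps eta0
  norm_num

theorem vsol_ell (e : EE) : ell (vsol e) = eps := by
  have h := ell_add (v := fun t => eps * s5 t) (w := (wfix e).1)
    (continuous_const.mul s5_cont) (wfix e).2.1.cont
  rw [ell_smul, ell_s5, (wfix e).2.2] at h
  have h2 : ell (vsol e) = ell (fun t => eps * s5 t + (wfix e).1 t) := rfl
  rw [h2, h]
  ring

/-- The bifurcation function. -/
noncomputable def bfn (e : EE) : ℝ := eps * (m5 (cc e) - 1) + ell (Ef (cc e) (vsol e))

theorem Psi_vsol (e : EE) (θ : ℝ) : Psi (cc e) (vsol e) θ = vsol e θ + bfn e * s5 θ := by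
  have h1 : Tf (cc e) (wfix e).1 θ = (wfix e).1 θ := by
    rw [← T_coe, T_wfix]
  unfold Tf Ep at h1
  have h2 : clampf eta0 (arg (wfix e).1) = vsol e := vsol_clamp e
  rw [h2] at h1
  unfold prj at h1
  have h3 : Lop (cc e) (vsol e) θ = eps * (m5 (cc e) * s5 θ) + Lop (cc e) (wfix e).1 θ := by
    have e1 : vsol e = fun t => (wfix e).1 t - (-eps) * s5 t := by
      ext t; unfold vsol arg; ring
    have e2 := Lop_sub (c := cc e) (v := (wfix e).1) (w := fun t => (-eps) * s5 t)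
      (wfix e).2.1.cont (continuous_const.mul s5_cont) θ
    rw [e1, e2]
    have e3 : Lop (cc e) (fun t => (-eps) * s5 t) θ = (-eps) * Lop (cc e) s5 θ := by
      unfold Lop prim
      rw [intervalIntegral.integral_const_mul, intervalIntegral.integral_const_mul]
      ring
    rw [e3, Lop_s5]
    ring
  have h4 : Ef (cc e) (vsol e) θ = Psi (cc e) (vsol e) θ - Lop (cc e) (vsol e) θ := rfl
  unfold bfn
  have h5 : vsol e θ = eps * s5 θ + (wfix e).1 θ := rfl
  rw [h5]
  linarith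

theorem ell_Ef_bd (e : EE) : |ell (Ef (cc e) (vsol e))| ≤ 14400 * eps * eps := by
  obtain ⟨hc, hc'⟩ := cc_bounds e.2.1 e.2.2
  have h1 : 2 * eps ≤ 1 / 1000 := by unfold eps; norm_num
  have := ell_bd (Ef_bd (vsol_good e) (vsol_bd e) h1 hc hc')
  linarith

theorem bfn_left : 0 < bfn ⟨145 / 1000, by constructor <;> norm_num⟩ := by
  unfold bfn
  have h1 := ell_Ef_bd ⟨145 / 1000, by constructor <;> norm_num⟩
  have h2 := m5_left
  have h3 := (abs_le.1 h1).1
  simp only at h3 ⊢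
  have h5 : 14400 * eps * eps = 14400 / 10 ^ 8 * eps := by
    nth_rewrite 1 [eps]; ring
  rw [h5] at h3
  have := eps_pos
  nlinarith

theorem bfn_right : bfn ⟨155 / 1000, by constructor <;> norm_num⟩ < 0 := by
  unfold bfn
  have h1 := ell_Ef_bd ⟨155 / 1000, by constructor <;> norm_num⟩
  have h2 := m5_right
  have h3 := (abs_le.1 h1).2
  simp only at h3 ⊢
  have h5 : 14400 * eps * eps = 14400 / 10 ^ 8 * eps := by
    nth_rewrite 1 [eps]; ring
  rw [h5] at h3
  have := eps_pos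
  nlinarith

theorem cc_cont : Continuous fun e : EE => cc (e : ℝ) := by
  have : (fun e : EE => cc (e : ℝ)) = fun e : EE => cos (e : ℝ) / sin (e : ℝ) := by
    ext e; rw [cc_eq]
  rw [this]
  refine Continuous.div (by fun_prop) (by fun_prop) ?_
  intro e
  exact (sin_cos_pos e.2.1 e.2.2).1.ne'

theorem m5_cont : Continuous fun e : EE => m5 (cc (e : ℝ)) := by
  unfold m5
  have h := cc_cont
  refine Continuous.mul (Continuous.div (by fun_prop) (by fun_prop) ?_) ?_
  · intro e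
    have := (cc_bounds e.2.1 e.2.2).1
    positivity
  · have : Continuous fun e : EE => arctan (cc (e : ℝ)) := continuous_arctan.comp h
    fun_prop

theorem wfix_lip (e e₀ : EE) : dist (wfix e) (wfix e₀) ≤ 20 * 22 * (35 * |cc e - cc e₀|) := by
  have h1 := dist_wfix e (wfix e₀)
  have h2 := T_lip e (T e (wfix e₀)) (wfix e₀)
  have h3 := dist_triangle (T e (T e (wfix e₀))) (T e (wfix e₀)) (wfix e₀)
  have h4 : dist (T e (wfix e₀)) (wfix e₀) ≤ 35 * |cc e - cc e₀| := by
    nth_rewrite 2 [← T_wfix e₀]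
    apply V0_dist_le
    have hb : Bd 1 (wfix e₀).1 := (wfix_bd e₀).mono (by unfold eps; norm_num)
    exact Tf_param (cc_bounds e.2.1 e.2.2).1 (cc_bounds e.2.1 e.2.2).2
      (cc_bounds e₀.2.1 e₀.2.2).1 (cc_bounds e₀.2.1 e₀.2.2).2 (wfix e₀).2.1 hb
  linarith

theorem ell_Ef_lip (e e₀ : EE) :
    |ell (Ef (cc e) (vsol e)) - ell (Ef (cc e₀) (vsol e₀))| ≤ 40000 * |cc e - cc e₀| := by
  obtain ⟨hc, hc'⟩ := cc_bounds e.2.1 e.2.2
  obtain ⟨hc₀, hc₀'⟩ := cc_bounds e₀.2.1 e₀.2.2
  have h1 : 2 * eps ≤ 1 / 1000 := by unfold eps; norm_num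
  have hd : Bd (dist (wfix e) (wfix e₀)) (fun t => vsol e t - vsol e₀ t) := by
    intro t
    have := V0_bd_sub (wfix e) (wfix e₀) t
    unfold vsol arg
    simp only at this ⊢
    rwa [show eps * s5 t + (wfix e).1 t - (eps * s5 t + (wfix e₀).1 t) =
      (wfix e).1 t - (wfix e₀).1 t by ring]
  have a1 := Ef_lip (vsol_good e) (vsol_good e₀) (vsol_bd e) (vsol_bd e₀) hd h1 hc hc'
  have a2 := Ef_param hc hc' hc₀ hc₀' (vsol_good e₀) (vsol_bd e₀) h1
  have g1 := Ef_good (vsol_good e) (vsol_bd e) h1 hc hc'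
  have g2 := Ef_good (vsol_good e₀) (vsol_bd e₀) h1 hc hc'
  have g3 := Ef_good (vsol_good e₀) (vsol_bd e₀) h1 hc₀ hc₀'
  have b1 := ell_bd a1
  have b2 := ell_bd a2
  rw [ell_sub g1.cont g2.cont] at b1
  rw [ell_sub g2.cont g3.cont] at b2
  have b3 := wfix_lip e e₀
  have b4 : 2 * (1800 * (2 * eps) * dist (wfix e) (wfix e₀)) ≤ dist (wfix e) (wfix e₀) := by
    unfold eps
    have := dist_nonneg (x := wfix e) (y := wfix e₀)
    linarith
  have b5 := abs_add_le (ell (Ef (cc e) (vsol e)) - ell (Ef (cc e) (vsol e₀)))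
    (ell (Ef (cc e) (vsol e₀)) - ell (Ef (cc e₀) (vsol e₀)))
  rw [show ell (Ef (cc e) (vsol e)) - ell (Ef (cc e) (vsol e₀)) +
    (ell (Ef (cc e) (vsol e₀)) - ell (Ef (cc e₀) (vsol e₀))) =
    ell (Ef (cc e) (vsol e)) - ell (Ef (cc e₀) (vsol e₀)) by ring] at b5
  have := abs_nonneg (cc e - cc e₀)
  linarith

theorem bfn_cont : Continuous bfn := by
  unfold bfn
  refine Continuous.add (continuous_const.mul (m5_cont.sub continuous_const)) ?_
  rw [continuous_iff_continuousAt]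
  intro e₀
  rw [ContinuousAt, tendsto_iff_dist_tendsto_zero]
  have h1 : Tendsto (fun e : EE => 40000 * |cc (e : ℝ) - cc (e₀ : ℝ)|) (𝓝 e₀) (𝓝 0) := by
    have h2 : Continuous fun e : EE => 40000 * |cc (e : ℝ) - cc (e₀ : ℝ)| :=
      continuous_const.mul (cc_cont.sub continuous_const).abs
    have h3 := h2.tendsto e₀
    simpa using h3
  refine squeeze_zero (fun _ => dist_nonneg) (fun e => ?_) h1
  rw [Real.dist_eq]
  exact ell_Ef_lip e e₀

/-- **Existence of a nontrivial solution of the equation of constant caps.** -/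
theorem exists_solution : ∃ e : ℝ, 145 / 1000 ≤ e ∧ e ≤ 155 / 1000 ∧ ∃ v : ℝ → ℝ,
    Good v ∧ Bd (1 / 1000) v ∧ ell v ≠ 0 ∧ ∀ θ, Psi (cc e) v θ = v θ := by
  have : PreconnectedSpace EE := Subtype.preconnectedSpace isPreconnected_Icc
  obtain ⟨e, he⟩ := mem_range_of_exists_le_of_exists_ge (c := (0 : ℝ)) bfn_cont
    ⟨_, bfn_right.le⟩ ⟨_, bfn_left.le⟩
  refine ⟨e, e.2.1, e.2.2, vsol e, vsol_good e, (vsol_bd e).mono (by unfold eps; norm_num), ?_, ?_⟩
  · rw [vsol_ell]; exact eps_pos.ne'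
  · intro θ
    rw [Psi_vsol, he]
    ring

end H855HC
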