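import Pool.Agent.H855R3.HC.Root

set_option autoImplicit false

open Real Set intervalIntegral

namespace H855HC

/-- The period. -/
noncomputable def P : ℝ := 2 * π / 5

theorem P_pos : 0 < P := by unfold P; positivity

theorem five_P : 5 * P = 2 * π := by unfold P; ring

/-- Continuous, `P`-periodic and odd. -/
structure Good (v : ℝ → ℝ) : Prop where
  cont : Continuous v
  per : ∀ x, v (x + P) = v x
  odd : ∀ x, v (-x) = -v x

/-- Bounded by `N`. -/
def Bd (N : ℝ) (v : ℝ → ℝ) : Prop := ∀ t, |v t| ≤ N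

theorem Bd.nonneg {N : ℝ} {v : ℝ → ℝ} (h : Bd N v) : 0 ≤ N := (abs_nonneg _).trans (h 0)

theorem Bd.mono {N M : ℝ} {v : ℝ → ℝ} (h : Bd N v) (hNM : N ≤ M) : Bd M v :=
  fun t => (h t).trans hNM

/-- The primitive vanishing at `0`. -/
noncomputable def prim (v : ℝ → ℝ) (θ : ℝ) : ℝ := ∫ t in (0 : ℝ)..θ, v t

theorem prim_sub {v : ℝ → ℝ} (hv : Continuous v) (a b : ℝ) :
    prim v b - prim v a = ∫ t in a..b, v t :=
  integral_interval_sub_left (hv.intervalIntegrable _ _) (hv.intervalIntegrable _ _)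

theorem prim_hasDerivAt {v : ℝ → ℝ} (hv : Continuous v) (θ : ℝ) :
    HasDerivAt (prim v) (v θ) θ :=
  integral_hasDerivAt_right (hv.intervalIntegrable _ _)
    (hv.stronglyMeasurableAtFilter _ _) hv.continuousAt

theorem prim_continuous {v : ℝ → ℝ} (hv : Continuous v) : Continuous (prim v) :=
  continuous_iff_continuousAt.2 fun θ => (prim_hasDerivAt hv θ).continuousAt

theorem prim_lip {N : ℝ} {v : ℝ → ℝ} (hv : Continuous v) (hb : Bd N v) : Lip N (prim v) := by
  intro x y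
  rw [prim_sub hv y x]
  have := intervalIntegral.norm_integral_le_of_norm_le_const (a := y) (b := x) (f := v) (C := N)
    (fun t _ => by simpa using hb t)
  simpa using this

theorem prim_sub_fun {v w : ℝ → ℝ} (hv : Continuous v) (hw : Continuous w) (θ : ℝ) :
    prim (fun t => v t - w t) θ = prim v θ - prim w θ :=
  intervalIntegral.integral_sub (hv.intervalIntegrable _ _) (hw.intervalIntegrable _ _)

theorem prim_neg_fun (v : ℝ → ℝ) (θ : ℝ) : prim (fun t => -v t) θ = -prim v θ :=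
  intervalIntegral.integral_neg

theorem Good.prim_even {v : ℝ → ℝ} (hv : Good v) (θ : ℝ) : prim v (-θ) = prim v θ := by
  unfold prim
  have h := intervalIntegral.integral_comp_neg (a := 0) (b := θ) v
  rw [neg_zero] at h
  rw [intervalIntegral.integral_symm, ← h]
  simp only [hv.odd, intervalIntegral.integral_neg, neg_neg]

theorem Good.integral_period {v : ℝ → ℝ} (hv : Good v) (a : ℝ) :
    ∫ t in a..(a + P), v t = 0 := by
  have hp : Function.Periodic v P := hv.per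
  rw [hp.intervalIntegral_add_eq a (-(P / 2))]
  have h1 : -(P / 2) + P = P / 2 := by ring
  rw [h1]
  have h := hv.prim_even (P / 2)
  have h2 := prim_sub hv.cont (-(P / 2)) (P / 2)
  rw [← h2, h, sub_self]

theorem Good.prim_per {v : ℝ → ℝ} (hv : Good v) (θ : ℝ) : prim v (θ + P) = prim v θ := by
  have h := prim_sub hv.cont θ (θ + P)
  rw [hv.integral_period] at h
  linarith

theorem Good.prim_per' {v : ℝ → ℝ} (hv : Good v) (θ : ℝ) : prim v (θ - P) = prim v θ := by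
  have := hv.prim_per (θ - P)
  rw [sub_add_cancel] at this
  exact this.symm

/-- The linearised operator. -/
noncomputable def Lop (c : ℝ) (v : ℝ → ℝ) (θ : ℝ) : ℝ :=
  (1 + c ^ 2) / (2 * c) * (prim v (θ + arctan c) - prim v (θ - arctan c))

theorem Lop_sub {c : ℝ} {v w : ℝ → ℝ} (hv : Continuous v) (hw : Continuous w) (θ : ℝ) :
    Lop c (fun t => v t - w t) θ = Lop c v θ - Lop c w θ := by
  unfold Lop
  rw [prim_sub_fun hv hw, prim_sub_fun hv hw]
  ring

theorem Lop_good {c : ℝ} {v : ℝ → ℝ} (hv : Good v) : Good (Lop c v) where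
  cont := by
    unfold Lop
    have := prim_continuous hv.cont
    fun_prop
  per := by
    intro x
    unfold Lop
    rw [show x + P + arctan c = x + arctan c + P by ring, show x + P - arctan c = x - arctan c + P by ring,
      hv.prim_per, hv.prim_per]
  odd := by
    intro x
    unfold Lop
    rw [show -x + arctan c = -(x - arctan c) by ring, show -x - arctan c = -(x + arctan c) by ring,
      hv.prim_even, hv.prim_even]
    ring

theorem kappa_bound {c : ℝ} (hc : 6 ≤ c) (hc' : c ≤ 8) :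
    0 < (1 + c ^ 2) / (2 * c) ∧ (1 + c ^ 2) / (2 * c) ≤ 5 := by
  constructor
  · positivity
  · rw [div_le_iff₀ (by linarith)]
    nlinarith

theorem Lop_bd {c N : ℝ} (hc : 6 ≤ c) (hc' : c ≤ 8) {v : ℝ → ℝ} (hv : Continuous v)
    (hb : Bd N v) : Bd (20 * N) (Lop c v) := by
  intro θ
  unfold Lop
  have hN := hb.nonneg
  have hk := kappa_bound hc hc'
  rw [abs_mul, abs_of_pos hk.1]
  have h1 := prim_lip hv hb (θ + arctan c) (θ - arctan c)
  rw [show θ + arctan c - (θ - arctan c) = 2 * arctan c by ring, abs_mul, abs_two] at h1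
  have h2 := abs_arctan_le_two c
  have h3 : N * (2 * |arctan c|) ≤ N * 4 := mul_le_mul_of_nonneg_left (by linarith) hN
  calc _ ≤ 5 * (N * 4) := mul_le_mul hk.2 (h1.trans h3) (abs_nonneg _) (by norm_num)
    _ = 20 * N := by ring

theorem Lop_param {c₁ c₂ N : ℝ} (hc₁ : 6 ≤ c₁) (hc₂ : 6 ≤ c₂) (hc₂' : c₂ ≤ 8)
    {v : ℝ → ℝ} (hv : Continuous v) (hb : Bd N v) (θ : ℝ) :
    |Lop c₁ v θ - Lop c₂ v θ| ≤ 20 * N * |c₁ - c₂| := by
  have hN := hb.nonneg
  have hk := kappa_bound hc₂ hc₂'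
  have hL := prim_lip hv hb
  have e : Lop c₁ v θ - Lop c₂ v θ =
      ((1 + c₁ ^ 2) / (2 * c₁) - (1 + c₂ ^ 2) / (2 * c₂)) *
        (prim v (θ + arctan c₁) - prim v (θ - arctan c₁)) +
      (1 + c₂ ^ 2) / (2 * c₂) * ((prim v (θ + arctan c₁) - prim v (θ + arctan c₂)) -
        (prim v (θ - arctan c₁) - prim v (θ - arctan c₂))) := by
    unfold Lop; ring
  have e1 : (1 + c₁ ^ 2) / (2 * c₁) - (1 + c₂ ^ 2) / (2 * c₂) =
      (c₁ - c₂) * ((1 - 1 / (c₁ * c₂)) / 2) := by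
    have h1 : c₁ ≠ 0 := by linarith
    have h2 : c₂ ≠ 0 := by linarith
    field_simp
    ring
  have e2 : |(1 - 1 / (c₁ * c₂)) / 2| ≤ 1 / 2 := by
    have h1 : 0 < 1 / (c₁ * c₂) := by positivity
    have h2 : 1 / (c₁ * c₂) ≤ 1 := by
      rw [div_le_one (by positivity)]
      nlinarith
    rw [abs_le]
    constructor <;> linarith
  have a1 : |prim v (θ + arctan c₁) - prim v (θ - arctan c₁)| ≤ 4 * N := by
    have h1 := hL (θ + arctan c₁) (θ - arctan c₁)
    rw [show θ + arctan c₁ - (θ - arctan c₁) = 2 * arctan c₁ by ring, abs_mul, abs_two] at h1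
    have h2 := abs_arctan_le_two c₁
    have h3 : N * (2 * |arctan c₁|) ≤ N * 4 := mul_le_mul_of_nonneg_left (by linarith) hN
    linarith
  have a2 : |prim v (θ + arctan c₁) - prim v (θ + arctan c₂)| ≤ N * |c₁ - c₂| := by
    have h1 := hL (θ + arctan c₁) (θ + arctan c₂)
    rw [show θ + arctan c₁ - (θ + arctan c₂) = arctan c₁ - arctan c₂ by ring] at h1
    exact h1.trans (mul_le_mul_of_nonneg_left (arctan_lip _ _) hN)
  have a3 : |prim v (θ - arctan c₁) - prim v (θ - arctan c₂)| ≤ N * |c₁ - c₂| := by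
    have h1 := hL (θ - arctan c₁) (θ - arctan c₂)
    rw [show θ - arctan c₁ - (θ - arctan c₂) = -(arctan c₁ - arctan c₂) by ring, abs_neg] at h1
    exact h1.trans (mul_le_mul_of_nonneg_left (arctan_lip _ _) hN)
  rw [e, e1]
  refine (abs_add_le _ _).trans ?_
  rw [abs_mul, abs_mul, abs_mul ((1 + c₂ ^ 2) / (2 * c₂)), abs_of_pos hk.1]
  have b1 : |c₁ - c₂| * |(1 - 1 / (c₁ * c₂)) / 2| *
      |prim v (θ + arctan c₁) - prim v (θ - arctan c₁)| ≤ |c₁ - c₂| * (1 / 2) * (4 * N) := by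
    gcongr
  have b2 : |prim v (θ + arctan c₁) - prim v (θ + arctan c₂) -
      (prim v (θ - arctan c₁) - prim v (θ - arctan c₂))| ≤ 2 * (N * |c₁ - c₂|) := by
    refine (abs_sub _ _).trans ?_
    linarith
  have b3 : (1 + c₂ ^ 2) / (2 * c₂) * |prim v (θ + arctan c₁) - prim v (θ + arctan c₂) -
      (prim v (θ - arctan c₁) - prim v (θ - arctan c₂))| ≤ 5 * (2 * (N * |c₁ - c₂|)) :=
    mul_le_mul hk.2 b2 (abs_nonneg _) (by norm_num)
  have := mul_nonneg hN (abs_nonneg (c₁ - c₂))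
  linarith

/-- The root as a function of the angle. -/
noncomputable def Yf (c : ℝ) (v : ℝ → ℝ) (θ : ℝ) : ℝ :=
  Classical.epsilon (IsRoot (prim v) c θ)

/-- The nonlinear map. -/
noncomputable def Psi (c : ℝ) (v : ℝ → ℝ) (θ : ℝ) : ℝ := Yf c v θ - Yf c v (-θ)

section

variable {η c : ℝ} {v : ℝ → ℝ}

theorem Yf_root (hv : Continuous v) (hb : Bd η v) (hη' : η ≤ 1 / 1000) (hc : 6 ≤ c) (θ : ℝ) :
    IsRoot (prim v) c θ (Yf c v θ) :=
  Classical.epsilon_spec (exists_root (prim_lip hv hb) hb.nonneg hη' hc θ)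

theorem Yf_per (hv : Good v) (θ : ℝ) : Yf c v (θ + P) = Yf c v θ := by
  unfold Yf
  congr 1
  ext y
  unfold IsRoot
  rw [show θ + P + arctan y = θ + arctan y + P by ring, infc_periodic hv.prim_per, hv.prim_per]

theorem Yf_lip (hv : Continuous v) (hb : Bd η v) (hη' : η ≤ 1 / 1000) (hc : 6 ≤ c) (hc' : c ≤ 8) :
    Lip (30 * η) (Yf c v) := by
  intro x y
  have := IsRoot.diff_same (prim_lip hv hb) hb.nonneg hη' hc hc' hc hc'
    (Yf_root hv hb hη' hc x) (Yf_root hv hb hη' hc y)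
  simpa using this

theorem Yf_cont (hv : Continuous v) (hb : Bd η v) (hη' : η ≤ 1 / 1000) (hc : 6 ≤ c) (hc' : c ≤ 8) :
    Continuous (Yf c v) := by
  have h0 := hb.nonneg
  have : LipschitzWith (Real.toNNReal (30 * η)) (Yf c v) := by
    apply LipschitzWith.of_dist_le_mul
    intro x y
    rw [Real.dist_eq, Real.dist_eq, Real.coe_toNNReal _ (by positivity)]
    exact Yf_lip hv hb hη' hc hc' x y
  exact this.continuous

theorem Psi_good (hv : Good v) (hb : Bd η v) (hη' : η ≤ 1 / 1000) (hc : 6 ≤ c) (hc' : c ≤ 8) :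
    Good (Psi c v) where
  cont := by
    have := Yf_cont hv.cont hb hη' hc hc'
    unfold Psi
    fun_prop
  per := by
    intro x
    unfold Psi
    rw [Yf_per hv]
    have := Yf_per (c := c) hv (-(x + P))
    rw [show -(x + P) + P = -x by ring] at this
    rw [this]
  odd := by
    intro x
    unfold Psi
    rw [neg_neg]
    ring

theorem Psi_param {c₁ c₂ : ℝ} (hc₁ : 6 ≤ c₁) (hc₁' : c₁ ≤ 8) (hc₂ : 6 ≤ c₂) (hc₂' : c₂ ≤ 8)
    (hv : Continuous v) (hb : Bd η v) (hη' : η ≤ 1 / 1000) (θ : ℝ) :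
    |Psi c₁ v θ - Psi c₂ v θ| ≤ 4 * |c₁ - c₂| := by
  have h1 := IsRoot.diff_same (prim_lip hv hb) hb.nonneg hη' hc₁ hc₁' hc₂ hc₂'
    (Yf_root hv hb hη' hc₁ θ) (Yf_root hv hb hη' hc₂ θ)
  have h2 := IsRoot.diff_same (prim_lip hv hb) hb.nonneg hη' hc₁ hc₁' hc₂ hc₂'
    (Yf_root hv hb hη' hc₁ (-θ)) (Yf_root hv hb hη' hc₂ (-θ))
  simp only [sub_self, abs_zero, mul_zero, add_zero] at h1 h2
  unfold Psi
  rw [show Yf c₁ v θ - Yf c₁ v (-θ) - (Yf c₂ v θ - Yf c₂ v (-θ)) =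
    (Yf c₁ v θ - Yf c₂ v θ) - (Yf c₁ v (-θ) - Yf c₂ v (-θ)) by ring]
  refine (abs_sub _ _).trans ?_
  linarith

theorem Psi_linear {N : ℝ} {v₁ v₂ : ℝ → ℝ} (h₁ : Good v₁) (h₂ : Good v₂)
    (hb₁ : Bd η v₁) (hb₂ : Bd η v₂) (hd : Bd N fun t => v₁ t - v₂ t)
    (hη' : η ≤ 1 / 1000) (hc : 6 ≤ c) (hc' : c ≤ 8) (θ : ℝ) :
    |Psi c v₁ θ - Psi c v₂ θ - (Lop c v₁ θ - Lop c v₂ θ)| ≤ 1800 * η * N := by
  have hdL : Lip N (fun x => prim v₁ x - prim v₂ x) := by
    have := prim_lip (h₁.cont.sub h₂.cont) hd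
    intro x y
    have h : |prim (fun t => v₁ t - v₂ t) x - prim (fun t => v₁ t - v₂ t) y| ≤ N * |x - y| :=
      this x y
    rw [prim_sub_fun h₁.cont h₂.cont, prim_sub_fun h₁.cont h₂.cont] at h
    exact h
  have key := fun θ => IsRoot.linear (prim_lip h₁.cont hb₁) (prim_lip h₂.cont hb₂) hb₁.nonneg hη'
    hd.nonneg hdL hc hc' (Yf_root h₁.cont hb₁ hη' hc θ) (Yf_root h₂.cont hb₂ hη' hc θ)
  have k1 := key θ
  have k2 := key (-θ)
  rw [show -θ + arctan c = -(θ - arctan c) by ring, h₁.prim_even, h₂.prim_even, h₁.prim_even,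
    h₂.prim_even] at k2
  have e : Psi c v₁ θ - Psi c v₂ θ - (Lop c v₁ θ - Lop c v₂ θ) =
      (Yf c v₁ θ - Yf c v₂ θ - (1 + c ^ 2) / (2 * c) *
        (prim v₁ (θ + arctan c) - prim v₂ (θ + arctan c) - (prim v₁ θ - prim v₂ θ))) -
      (Yf c v₁ (-θ) - Yf c v₂ (-θ) - (1 + c ^ 2) / (2 * c) *
        (prim v₁ (θ - arctan c) - prim v₂ (θ - arctan c) - (prim v₁ θ - prim v₂ θ))) := by
    unfold Psi Lop
    ring
  rw [e]
  refine (abs_sub _ _).trans ?_
  linarith

theorem Psi_zero (hc : 6 ≤ c) (hc' : c ≤ 8) (θ : ℝ) : Psi c (fun _ => 0) θ = 0 := by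
  have h0 : Bd 0 (fun _ : ℝ => (0 : ℝ)) := fun t => by simp
  have h1 := Yf_root continuous_const h0 (by norm_num) hc θ
  have h2 := Yf_root continuous_const h0 (by norm_num) hc (-θ)
  have := IsRoot.diff_same (prim_lip continuous_const h0) le_rfl (by norm_num) hc hc' hc hc' h1 h2
  simp at this
  unfold Psi
  linarith

theorem Lop_zero (θ : ℝ) : Lop c (fun _ => 0) θ = 0 := by
  unfold Lop prim
  simp

end

end H855HC
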