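import Pool.Agent.H855R3.HC.Fix

set_option autoImplicit false

open Real Set intervalIntegral

namespace H855HC

/-- A solution of the equation of constant caps. -/
structure Sol (c : ℝ) (v : ℝ → ℝ) : Prop where
  hc : 6 ≤ c
  hc' : c ≤ 8
  good : Good v
  bd : Bd (1 / 1000) v
  eq : ∀ θ, Psi c v θ = v θ

section

variable {c : ℝ} {v : ℝ → ℝ}

theorem Sol.ulip (S : Sol c v) : Lip (1 / 1000) (prim v) := prim_lip S.good.cont S.bd

theorem Sol.root (S : Sol c v) (θ : ℝ) : IsRoot (prim v) c θ (Yf c v θ) :=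
  Yf_root S.good.cont S.bd le_rfl S.hc θ

theorem Sol.ybd (S : Sol c v) (θ : ℝ) : 11 / 2 ≤ Yf c v θ ∧ Yf c v θ ≤ 9 := by
  have := (S.root θ).bounds S.ulip (by norm_num) le_rfl S.hc S.hc'
  exact ⟨this.1, this.2.1⟩

theorem Sol.ylip (S : Sol c v) : Lip (3 / 100) (Yf c v) := by
  intro x y
  have := Yf_lip S.good.cont S.bd le_rfl S.hc S.hc' x y
  norm_num at this ⊢
  exact this

theorem Sol.x_bound (S : Sol c v) (θ s : ℝ) :
    |infc (prim v) (θ + arctan s) - prim v θ| ≤ 3 / 1000 := by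
  have := H855HC.x_bound S.ulip (by norm_num) le_rfl θ s
  norm_num at this ⊢
  exact this

theorem Sol.compare (S : Sol c v) (θ : ℝ) {s₁ s₂ : ℝ} :
    (1 + c ^ 2) * |exp (infc (prim v) (θ + arctan s₁) - prim v θ) -
      exp (infc (prim v) (θ + arctan s₂) - prim v θ)| ≤ 2 / 10 * |s₁ - s₂| := by
  have h1 := S.x_bound θ s₁
  have h2 := S.x_bound θ s₂
  have h3 := exp_diff (h := 3 / 1000) (by norm_num) h1 h2
  set x₁ := infc (prim v) (θ + arctan s₁) - prim v θ with hx1
  set x₂ := infc (prim v) (θ + arctan s₂) - prim v θ with hx2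
  have h4 : |x₁ - x₂| ≤ 1 / 1000 * |s₁ - s₂| := by
    have a1 := infc_lip S.ulip (by norm_num) (θ + arctan s₁) (θ + arctan s₂)
    rw [show θ + arctan s₁ - (θ + arctan s₂) = arctan s₁ - arctan s₂ by ring] at a1
    rw [show x₁ - x₂ = infc (prim v) (θ + arctan s₁) - infc (prim v) (θ + arctan s₂) by
      rw [hx1, hx2]; ring]
    have := arctan_lip s₁ s₂
    linarith
  have h5 : |exp x₁ - exp x₂| ≤ 2 * |x₁ - x₂| := by
    have := abs_add_le (exp x₁ - exp x₂ - (x₁ - x₂)) (x₁ - x₂)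
    rw [sub_add_cancel] at this
    have := abs_nonneg (x₁ - x₂)
    linarith
  have h6 : 1 + c ^ 2 ≤ 65 := by nlinarith [S.hc, S.hc']
  have := mul_le_mul h6 (h5.trans (mul_le_mul_of_nonneg_left h4 (by norm_num))) (abs_nonneg _)
    (by norm_num)
  have := abs_nonneg (s₁ - s₂)
  linarith

theorem Sol.sign_lt (S : Sol c v) (θ : ℝ) {s : ℝ} (hs : 0 ≤ s) (hsy : s ≤ Yf c v θ) :
    1 + s ^ 2 ≤ (1 + c ^ 2) * exp (infc (prim v) (θ + arctan s) - prim v θ) := by
  rcases le_or_gt s (11 / 2) with h | h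
  · have h1 := S.x_bound θ s
    have h2 := Real.abs_exp_sub_one_le (x := infc (prim v) (θ + arctan s) - prim v θ)
      (by linarith)
    have h3 := (abs_le.1 h2).1
    nlinarith [S.hc]
  · have h1 := S.compare θ (s₁ := Yf c v θ) (s₂ := s)
    have h2 := (S.root θ).2
    have h3 := S.ybd θ
    have h4 := (le_abs_self (exp (infc (prim v) (θ + arctan (Yf c v θ)) - prim v θ) -
      exp (infc (prim v) (θ + arctan s) - prim v θ)))
    rw [abs_of_nonneg (show 0 ≤ Yf c v θ - s by linarith)] at h1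
    have h5 : (1 + c ^ 2) * (exp (infc (prim v) (θ + arctan (Yf c v θ)) - prim v θ) -
      exp (infc (prim v) (θ + arctan s) - prim v θ)) ≤ 2 / 10 * (Yf c v θ - s) :=
      (mul_le_mul_of_nonneg_left h4 (by positivity)).trans h1
    nlinarith

theorem Sol.sign_gt (S : Sol c v) (θ : ℝ) {s : ℝ} (hsy : Yf c v θ ≤ s) :
    (1 + c ^ 2) * exp (infc (prim v) (θ + arctan s) - prim v θ) ≤ 1 + s ^ 2 := by
  have h1 := S.compare θ (s₁ := Yf c v θ) (s₂ := s)
  have h2 := (S.root θ).2
  have h3 := S.ybd θ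
  have h4 := (neg_abs_le (exp (infc (prim v) (θ + arctan (Yf c v θ)) - prim v θ) -
    exp (infc (prim v) (θ + arctan s) - prim v θ)))
  rw [abs_of_nonpos (show Yf c v θ - s ≤ 0 by linarith)] at h1
  have h5 : -(2 / 10 * (s - Yf c v θ)) ≤ (1 + c ^ 2) *
      (exp (infc (prim v) (θ + arctan (Yf c v θ)) - prim v θ) -
    exp (infc (prim v) (θ + arctan s) - prim v θ)) := by
    have := mul_le_mul_of_nonneg_left h4 (show 0 ≤ 1 + c ^ 2 by positivity)
    linarith
  nlinarith

/-- Right angular half-width of the cap in direction `θ`. -/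
noncomputable def bp (c : ℝ) (v : ℝ → ℝ) (θ : ℝ) : ℝ := arctan (Yf c v θ)

theorem Sol.bp_bounds (S : Sol c v) (θ : ℝ) :
    5 / 10 ≤ bp c v θ ∧ bp c v θ ≤ π / 2 - 1 / 10 ∧ 11 / 100 ≤ cos (bp c v θ) := by
  have hy := S.ybd θ
  have hcos : 11 / 100 ≤ cos (bp c v θ) := by
    unfold bp
    rw [cos_arctan]
    rw [le_div_iff₀ (by positivity)]
    have : √(1 + Yf c v θ ^ 2) ≤ √(82 : ℝ) := Real.sqrt_le_sqrt (by nlinarith)
    have h2 : √(82 : ℝ) ≤ 9.06 := by
      rw [Real.sqrt_le_left (by norm_num)]; norm_num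
    nlinarith
  refine ⟨?_, ?_, hcos⟩
  · unfold bp
    have h1 : arctan 1 ≤ arctan (Yf c v θ) := arctan_strictMono.monotone (by linarith)
    rw [arctan_one] at h1
    have := pi_gt_three
    linarith
  · have h1 : cos (bp c v θ) = sin (π / 2 - bp c v θ) := by rw [sin_pi_div_two_sub]
    have h2 : bp c v θ < π / 2 := arctan_lt_pi_div_two _
    have h3 : sin (π / 2 - bp c v θ) ≤ π / 2 - bp c v θ := sin_le (by linarith)
    linarith

theorem tan_bp (θ : ℝ) : tan (bp c v θ) = Yf c v θ := tan_arctan _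

/-- The difference of squared radial functions (body minus line), in direction `φ`. -/
noncomputable def ff (c : ℝ) (v : ℝ → ℝ) (θ φ : ℝ) : ℝ :=
  exp (infc (prim v) φ) - exp (prim v θ) / (1 + c ^ 2) * (1 + tan (φ - θ) ^ 2)

theorem Sol.ff_nonneg (S : Sol c v) {θ φ : ℝ} (h1 : θ - bp c v (-θ) ≤ φ) (h2 : φ ≤ θ + bp c v θ) :
    0 ≤ ff c v θ φ := by
  have hb1 := S.bp_bounds θ
  have hb2 := S.bp_bounds (-θ)
  have key : 1 + tan (φ - θ) ^ 2 ≤ (1 + c ^ 2) * exp (infc (prim v) φ - prim v θ) := by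
    rcases le_total θ φ with h | h
    · have e1 : arctan (tan (φ - θ)) = φ - θ := arctan_tan (by linarith) (by linarith)
      have e2 : tan (φ - θ) ≤ Yf c v θ := by
        rw [← tan_bp]
        rcases eq_or_lt_of_le (show φ - θ ≤ bp c v θ by linarith) with h' | h'
        · rw [h']
        · exact (tan_lt_tan_of_nonneg_of_lt_pi_div_two (by linarith) (by linarith) h').le
      have e3 : 0 ≤ tan (φ - θ) := tan_nonneg_of_nonneg_of_le_pi_div_two (by linarith) (by linarith)
      have := S.sign_lt θ e3 e2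
      rwa [e1, show θ + (φ - θ) = φ by ring] at this
    · have e1 : arctan (tan (θ - φ)) = θ - φ := arctan_tan (by linarith) (by linarith)
      have e2 : tan (θ - φ) ≤ Yf c v (-θ) := by
        rw [← tan_bp]
        rcases eq_or_lt_of_le (show θ - φ ≤ bp c v (-θ) by linarith) with h' | h'
        · rw [h']
        · exact (tan_lt_tan_of_nonneg_of_lt_pi_div_two (by linarith) (by linarith) h').le
      have e3 : 0 ≤ tan (θ - φ) := tan_nonneg_of_nonneg_of_le_pi_div_two (by linarith) (by linarith)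
      have := S.sign_lt (-θ) e3 e2
      rw [e1, show -θ + (θ - φ) = -φ by ring, infc_even S.good.prim_even, S.good.prim_even] at this
      rw [show φ - θ = -(θ - φ) by ring, tan_neg, neg_sq]
      exact this
  unfold ff
  rw [exp_sub] at key
  have hp : 0 < exp (prim v θ) := exp_pos _
  have hq : 0 < 1 + c ^ 2 := by positivity
  rw [sub_nonneg, div_mul_eq_mul_div, div_le_iff₀ hq]
  rw [mul_div_assoc', le_div_iff₀ hp] at key
  linarith

theorem Sol.ff_nonpos_right (S : Sol c v) {θ φ : ℝ} (h1 : θ + bp c v θ ≤ φ) (h2 : φ < θ + π / 2) :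
    ff c v θ φ ≤ 0 := by
  have hb1 := S.bp_bounds θ
  have key : (1 + c ^ 2) * exp (infc (prim v) φ - prim v θ) ≤ 1 + tan (φ - θ) ^ 2 := by
    have e1 : arctan (tan (φ - θ)) = φ - θ := arctan_tan (by linarith) (by linarith)
    have e2 : Yf c v θ ≤ tan (φ - θ) := by
      rw [← tan_bp]
      rcases eq_or_lt_of_le (show bp c v θ ≤ φ - θ by linarith) with h' | h'
      · rw [← h']
      · exact (tan_lt_tan_of_nonneg_of_lt_pi_div_two (by linarith) (by linarith) h').le
    have := S.sign_gt θ e2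
    rwa [e1, show θ + (φ - θ) = φ by ring] at this
  unfold ff
  rw [exp_sub] at key
  have hp : 0 < exp (prim v θ) := exp_pos _
  have hq : 0 < 1 + c ^ 2 := by positivity
  rw [sub_nonpos, div_mul_eq_mul_div, le_div_iff₀ hq]
  rw [mul_div_assoc', div_le_iff₀ hp] at key
  linarith

theorem Sol.ff_nonpos_left (S : Sol c v) {θ φ : ℝ} (h1 : φ ≤ θ - bp c v (-θ)) (h2 : θ - π / 2 < φ) :
    ff c v θ φ ≤ 0 := by
  have hb1 := S.bp_bounds (-θ)
  have key : (1 + c ^ 2) * exp (infc (prim v) φ - prim v θ) ≤ 1 + tan (φ - θ) ^ 2 := by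
    have e1 : arctan (tan (θ - φ)) = θ - φ := arctan_tan (by linarith) (by linarith)
    have e2 : Yf c v (-θ) ≤ tan (θ - φ) := by
      rw [← tan_bp]
      rcases eq_or_lt_of_le (show bp c v (-θ) ≤ θ - φ by linarith) with h' | h'
      · rw [← h']
      · exact (tan_lt_tan_of_nonneg_of_lt_pi_div_two (by linarith) (by linarith) h').le
    have := S.sign_gt (-θ) e2
    rw [e1, show -θ + (θ - φ) = -φ by ring, infc_even S.good.prim_even, S.good.prim_even] at this
    rw [show φ - θ = -(θ - φ) by ring, tan_neg, neg_sq]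
    exact this
  unfold ff
  rw [exp_sub] at key
  have hp : 0 < exp (prim v θ) := exp_pos _
  have hq : 0 < 1 + c ^ 2 := by positivity
  rw [sub_nonpos, div_mul_eq_mul_div, le_div_iff₀ hq]
  rw [mul_div_assoc', div_le_iff₀ hp] at key
  linarith

theorem Sol.U_cont (S : Sol c v) : Continuous (infc (prim v)) := by
  have : LipschitzWith (Real.toNNReal (1 / 1000)) (infc (prim v)) := by
    apply LipschitzWith.of_dist_le_mul
    intro x y
    rw [Real.dist_eq, Real.dist_eq, Real.coe_toNNReal _ (by norm_num)]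
    exact infc_lip S.ulip (by norm_num) x y
  exact this.continuous

theorem Sol.ff_contOn (S : Sol c v) (θ : ℝ) :
    ContinuousOn (ff c v θ) (Ioo (θ - π / 2) (θ + π / 2)) := by
  unfold ff
  have h1 : ContinuousOn (fun φ : ℝ => tan (φ - θ)) (Ioo (θ - π / 2) (θ + π / 2)) := by
    intro φ hφ
    have : cos (φ - θ) ≠ 0 := (cos_pos_of_mem_Ioo ⟨by linarith [hφ.1], by linarith [hφ.2]⟩).ne'
    have h2 : ContinuousAt (fun φ : ℝ => tan (φ - θ)) φ :=
      ContinuousAt.comp (f := fun φ : ℝ => φ - θ) (continuousAt_tan.2 this) (by fun_prop)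
    exact h2.continuousWithinAt
  have h3 := S.U_cont
  have h4 : ContinuousOn (fun φ : ℝ => exp (infc (prim v) φ)) (Ioo (θ - π / 2) (θ + π / 2)) :=
    (continuous_exp.comp h3).continuousOn
  exact h4.sub (continuousOn_const.mul (continuousOn_const.add (h1.pow 2)))

theorem Sol.ff_int (S : Sol c v) {θ a b : ℝ} (ha : a ∈ Ioo (θ - π / 2) (θ + π / 2))
    (hb : b ∈ Ioo (θ - π / 2) (θ + π / 2)) :
    IntervalIntegrable (ff c v θ) MeasureTheory.volume a b := by
  apply ContinuousOn.intervalIntegrable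
  apply (S.ff_contOn θ).mono
  exact (ordConnected_Ioo.uIcc_subset ha hb)

theorem integral_nonpos_aux {f : ℝ → ℝ} {a b : ℝ} (hab : a ≤ b) (h : ∀ x ∈ Icc a b, f x ≤ 0) :
    ∫ x in a..b, f x ≤ 0 := by
  have := intervalIntegral.integral_nonneg (f := fun x => -f x) (μ := MeasureTheory.volume) hab
    fun x hx => by
      have := h x hx

      linarith
  rw [intervalIntegral.integral_neg] at this
  linarith

/-- Twice the area of the cap. -/
noncomputable def A2 (c : ℝ) (v : ℝ → ℝ) (θ : ℝ) : ℝ :=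
  ∫ φ in (θ - bp c v (-θ))..(θ + bp c v θ), ff c v θ φ

theorem Sol.le_A2 (S : Sol c v) {θ a b : ℝ} (ha1 : θ - π / 2 < a) (ha2 : a ≤ θ) (hb1 : θ ≤ b)
    (hb2 : b < θ + π / 2) : ∫ φ in a..b, ff c v θ φ ≤ A2 c v θ := by
  unfold A2
  have hp := S.bp_bounds θ
  have hm := S.bp_bounds (-θ)
  set l := θ - bp c v (-θ) with hl
  set r := θ + bp c v θ with hr
  have hpi := pi_pos
  have ma : a ∈ Ioo (θ - π / 2) (θ + π / 2) := ⟨ha1, by linarith⟩
  have mb : b ∈ Ioo (θ - π / 2) (θ + π / 2) := ⟨by linarith, hb2⟩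
  have ml : l ∈ Ioo (θ - π / 2) (θ + π / 2) := ⟨by linarith, by linarith⟩
  have mr : r ∈ Ioo (θ - π / 2) (θ + π / 2) := ⟨by linarith, by linarith⟩
  have e1 := integral_add_adjacent_intervals (S.ff_int ml ma) (S.ff_int ma mb)
  have e2 := integral_add_adjacent_intervals (S.ff_int ml mb) (S.ff_int mb mr)
  have p1 : 0 ≤ ∫ φ in l..a, ff c v θ φ := by
    rcases le_total l a with h | h
    · exact integral_nonneg h fun φ hφ => S.ff_nonneg hφ.1 (by linarith [hφ.2])
    · rw [integral_symm]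
      have : ∫ φ in a..l, ff c v θ φ ≤ 0 :=
        integral_nonpos_aux h fun φ hφ => S.ff_nonpos_left hφ.2 (by linarith [hφ.1])
      linarith
  have p2 : 0 ≤ ∫ φ in b..r, ff c v θ φ := by
    rcases le_total b r with h | h
    · exact integral_nonneg h fun φ hφ => S.ff_nonneg (by linarith [hφ.1]) hφ.2
    · rw [integral_symm]
      have : ∫ φ in r..b, ff c v θ φ ≤ 0 :=
        integral_nonpos_aux h fun φ hφ => S.ff_nonpos_right hφ.1 (by linarith [hφ.2])
      linarith
  linarith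

theorem integral_one_add_tan_sq {θ a b : ℝ} (ha : a ∈ Ioo (θ - π / 2) (θ + π / 2))
    (hb : b ∈ Ioo (θ - π / 2) (θ + π / 2)) :
    ∫ φ in a..b, (1 + tan (φ - θ) ^ 2) = tan (b - θ) - tan (a - θ) := by
  have hsub : uIcc a b ⊆ Ioo (θ - π / 2) (θ + π / 2) := ordConnected_Ioo.uIcc_subset ha hb
  have hcos : ∀ φ ∈ uIcc a b, cos (φ - θ) ≠ 0 := fun φ hφ =>
    (cos_pos_of_mem_Ioo ⟨by linarith [(hsub hφ).1], by linarith [(hsub hφ).2]⟩).ne'
  have hd : ∀ φ ∈ uIcc a b, HasDerivAt (fun φ : ℝ => tan (φ - θ)) (1 + tan (φ - θ) ^ 2) φ := by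
    intro φ hφ
    have h1 := (hasDerivAt_tan (hcos φ hφ)).comp_sub_const φ θ
    refine h1.congr_deriv ?_
    rw [one_div, ← inv_one_add_tan_sq (hcos φ hφ), inv_inv]
  apply integral_eq_sub_of_hasDerivAt hd
  apply ContinuousOn.intervalIntegrable
  intro φ hφ
  exact (((hd φ hφ).continuousAt.pow 2).const_add 1).continuousWithinAt

theorem Sol.integral_ff (S : Sol c v) {θ a b : ℝ} (ha : a ∈ Ioo (θ - π / 2) (θ + π / 2))
    (hb : b ∈ Ioo (θ - π / 2) (θ + π / 2)) :
    ∫ φ in a..b, ff c v θ φ = (∫ φ in a..b, exp (infc (prim v) φ)) -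
      exp (prim v θ) / (1 + c ^ 2) * (tan (b - θ) - tan (a - θ)) := by
  have hsub : uIcc a b ⊆ Ioo (θ - π / 2) (θ + π / 2) := ordConnected_Ioo.uIcc_subset ha hb
  have hE : IntervalIntegrable (fun φ => exp (infc (prim v) φ)) MeasureTheory.volume a b :=
    (continuous_exp.comp S.U_cont).intervalIntegrable _ _
  have hF : IntervalIntegrable (fun φ => exp (prim v θ) / (1 + c ^ 2) * (1 + tan (φ - θ) ^ 2))
      MeasureTheory.volume a b := by
    have := hE.sub (S.ff_int ha hb)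
    refine this.congr ?_
    intro φ _
    simp [ff]
  have e : ∀ φ, ff c v θ φ = exp (infc (prim v) φ) -
    exp (prim v θ) / (1 + c ^ 2) * (1 + tan (φ - θ) ^ 2) := fun φ => rfl
  simp only [e]
  rw [integral_sub hE hF, intervalIntegral.integral_const_mul, integral_one_add_tan_sq ha hb]

end

end H855HC
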