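import Pool.Agent.H855R3.HC.Geo1

set_option autoImplicit false

open Real Set intervalIntegral

namespace H855HC

theorem cos_lip (x y : ℝ) : |cos x - cos y| ≤ |x - y| := by
  have h : LipschitzWith 1 cos := by
    apply lipschitzWith_of_nnnorm_deriv_le differentiable_cos
    intro x
    rw [Real.deriv_cos, ← NNReal.coe_le_coe, coe_nnnorm, Real.norm_eq_abs, NNReal.coe_one, abs_neg]
    exact abs_sin_le_one x
  have := h.dist_le_mul x y
  simpa [Real.dist_eq] using this

theorem tan_diff {x z : ℝ} (hz : 11 / 100 ≤ cos z) (hx : |x - z| ≤ 1 / 100) :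
    0 < cos x ∧ |tan x - tan z| ≤ 100 * |x - z| := by
  have h1 := abs_le.1 ((cos_lip x z).trans hx)
  have hcx : 10 / 100 ≤ cos x := by linarith
  have hx0 : cos x ≠ 0 := by linarith
  have hz0 : cos z ≠ 0 := by linarith
  refine ⟨by linarith, ?_⟩
  have e : tan x - tan z = sin (x - z) / (cos x * cos z) := by
    rw [tan_eq_sin_div_cos, tan_eq_sin_div_cos, sin_sub]
    field_simp
  have hcc : 11 / 1000 ≤ cos x * cos z := by nlinarith
  rw [e, abs_div, abs_of_pos (show 0 < cos x * cos z by linarith), div_le_iff₀ (by linarith)]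
  have h2 : |sin (x - z)| ≤ |x - z| := abs_sin_le_abs
  have h3 := abs_nonneg (x - z)
  nlinarith

section

variable {c : ℝ} {v : ℝ → ℝ}

theorem Sol.u_small (S : Sol c v) (θ : ℝ) : |prim v θ| ≤ 1 / 500 := by
  have hp : Function.Periodic (prim v) P := S.good.prim_per
  obtain ⟨y, hy, he⟩ := hp.exists_mem_Ico₀ P_pos θ
  rw [he]
  have h1 := S.ulip y 0
  have h0 : prim v 0 = 0 := by unfold prim; simp
  rw [h0, sub_zero, sub_zero, abs_of_nonneg hy.1] at h1
  have h2 : P ≤ 2 := by unfold P; linarith [pi_le_four]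
  linarith [hy.2]

theorem Sol.vlip (S : Sol c v) (x y : ℝ) : |v x - v y| ≤ 6 / 100 * |x - y| := by
  rw [← S.eq x, ← S.eq y]
  unfold Psi
  have h1 := S.ylip x y
  have h2 := S.ylip (-x) (-y)
  rw [show -x - -y = -(x - y) by ring, abs_neg] at h2
  rw [show Yf c v x - Yf c v (-x) - (Yf c v y - Yf c v (-y)) =
    (Yf c v x - Yf c v y) - (Yf c v (-x) - Yf c v (-y)) by ring]
  refine (abs_sub _ _).trans ?_
  linarith

theorem Sol.A2_step (S : Sol c v) {θ θ' : ℝ} (hδ : |θ' - θ| ≤ 1 / 100) :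
    A2 c v θ - 9000 * |θ' - θ| ^ 2 ≤ A2 c v θ' := by
  set δ := |θ' - θ| with hδd
  have hδ0 : 0 ≤ δ := abs_nonneg _
  have hp := S.bp_bounds θ
  have hm := S.bp_bounds (-θ)
  have hpi := pi_pos
  have hdd := abs_le.1 hδ
  set a := θ - bp c v (-θ) with ha
  set b := θ + bp c v θ with hb
  have h1 : ∫ φ in a..b, ff c v θ' φ ≤ A2 c v θ' :=
    S.le_A2 (by linarith) (by linarith) (by linarith) (by linarith)
  have ma' : a ∈ Ioo (θ' - π / 2) (θ' + π / 2) := ⟨by linarith, by linarith⟩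
  have mb' : b ∈ Ioo (θ' - π / 2) (θ' + π / 2) := ⟨by linarith, by linarith⟩
  have ma : a ∈ Ioo (θ - π / 2) (θ + π / 2) := ⟨by linarith, by linarith⟩
  have mb : b ∈ Ioo (θ - π / 2) (θ + π / 2) := ⟨by linarith, by linarith⟩
  rw [S.integral_ff ma' mb'] at h1
  have h2 : A2 c v θ = _ := S.integral_ff ma mb
  set H : ℝ → ℝ := fun ξ => exp (prim v ξ) * (tan (b - ξ) - tan (a - ξ)) with hH
  have hkey : |H θ' - H θ| ≤ 9000 * δ * |θ' - θ| := by
    have hs : ∀ ξ ∈ uIcc θ θ', |ξ - θ| ≤ δ := by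
      intro ξ hξ
      have := abs_sub_left_of_mem_uIcc hξ
      rwa [← hδd] at this
    have hb1 : ∀ ξ ∈ uIcc θ θ', 0 < cos (b - ξ) ∧ |tan (b - ξ) - Yf c v θ| ≤ 100 * δ := by
      intro ξ hξ
      have h3 : |b - ξ - bp c v θ| ≤ δ := by
        rw [show b - ξ - bp c v θ = -(ξ - θ) by rw [hb]; ring, abs_neg]
        exact hs ξ hξ
      have h4 := tan_diff hp.2.2 (h3.trans hδ)
      rw [tan_bp] at h4
      exact ⟨h4.1, h4.2.trans (by linarith)⟩
    have ha1 : ∀ ξ ∈ uIcc θ θ', 0 < cos (a - ξ) ∧ |tan (a - ξ) + Yf c v (-θ)| ≤ 100 * δ := by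
      intro ξ hξ
      have h3 : |ξ - a - bp c v (-θ)| ≤ δ := by
        rw [show ξ - a - bp c v (-θ) = ξ - θ by rw [ha]; ring]
        exact hs ξ hξ
      have h4 := tan_diff hm.2.2 (h3.trans hδ)
      rw [tan_bp] at h4
      have h5 : a - ξ = -(ξ - a) := by ring
      rw [h5, cos_neg, tan_neg]
      refine ⟨h4.1, ?_⟩
      rw [show -tan (ξ - a) + Yf c v (-θ) = -(tan (ξ - a) - Yf c v (-θ)) by ring, abs_neg]
      exact h4.2.trans (by linarith)
    have hder : ∀ ξ ∈ uIcc θ θ', HasDerivWithinAt H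
        (exp (prim v ξ) * (tan (b - ξ) - tan (a - ξ)) * (v ξ - (tan (b - ξ) + tan (a - ξ))))
        (uIcc θ θ') ξ := by
      intro ξ hξ
      have d1 := ((prim_hasDerivAt S.good.cont ξ).exp)
      have d2 := (hasDerivAt_tan (hb1 ξ hξ).1.ne').comp_const_sub b ξ
      have d3 := (hasDerivAt_tan (ha1 ξ hξ).1.ne').comp_const_sub a ξ
      rw [one_div, ← inv_one_add_tan_sq (hb1 ξ hξ).1.ne', inv_inv] at d2
      rw [one_div, ← inv_one_add_tan_sq (ha1 ξ hξ).1.ne', inv_inv] at d3
      refine ((d1.mul (d2.sub d3)).congr_deriv ?_).hasDerivWithinAt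
      simp only [Pi.sub_apply]
      ring
    have hbound : ∀ ξ ∈ uIcc θ θ',
        ‖exp (prim v ξ) * (tan (b - ξ) - tan (a - ξ)) * (v ξ - (tan (b - ξ) + tan (a - ξ)))‖ ≤
          9000 * δ := by
      intro ξ hξ
      rw [Real.norm_eq_abs, abs_mul, abs_mul, abs_of_pos (exp_pos _)]
      have q1 : exp (prim v ξ) ≤ 2 := by
        have := Real.abs_exp_sub_one_le (x := prim v ξ) (by linarith [S.u_small ξ])
        have := (abs_le.1 this).2
        linarith [S.u_small ξ]
      have q2 := abs_le.1 (hb1 ξ hξ).2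
      have q3 := abs_le.1 (ha1 ξ hξ).2
      have y1 := S.ybd θ
      have y2 := S.ybd (-θ)
      have q4 : |tan (b - ξ) - tan (a - ξ)| ≤ 20 := by
        rw [abs_le]; constructor <;> linarith
      have q5 : |v ξ - (tan (b - ξ) + tan (a - ξ))| ≤ 201 * δ := by
        have q6 := abs_le.1 ((S.vlip ξ θ).trans
          (mul_le_mul_of_nonneg_left (hs ξ hξ) (by norm_num)))
        have q7 := S.eq θ
        unfold Psi at q7
        rw [abs_le]; constructor <;> linarith
      calc exp (prim v ξ) * |tan (b - ξ) - tan (a - ξ)| * |v ξ - (tan (b - ξ) + tan (a - ξ))|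
          ≤ (2 * 20) * (201 * δ) :=
            mul_le_mul (mul_le_mul q1 q4 (abs_nonneg _) (by norm_num)) q5 (abs_nonneg _)
              (by norm_num)
        _ ≤ 9000 * δ := by linarith
    have := (convex_uIcc θ θ').norm_image_sub_le_of_norm_hasDerivWithin_le hder hbound
      left_mem_uIcc right_mem_uIcc
    simpa [Real.norm_eq_abs] using this
  have h3 := abs_le.1 hkey
  have h4 : A2 c v θ' ≥ A2 c v θ - (H θ' - H θ) / (1 + c ^ 2) := by
    have e1 : exp (prim v θ') / (1 + c ^ 2) * (tan (b - θ') - tan (a - θ')) = H θ' / (1 + c ^ 2) := by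
      rw [hH]; ring
    have e2 : exp (prim v θ) / (1 + c ^ 2) * (tan (b - θ) - tan (a - θ)) = H θ / (1 + c ^ 2) := by
      rw [hH]; ring
    rw [e1] at h1
    rw [e2] at h2
    rw [sub_div]
    linarith
  have h5 : (H θ' - H θ) / (1 + c ^ 2) ≤ 9000 * δ ^ 2 := by
    rw [div_le_iff₀ (by positivity)]
    have h6 : H θ' - H θ ≤ 9000 * δ ^ 2 := by
      have := h3.2
      rw [← hδd] at this
      nlinarith
    have h7 : 9000 * δ ^ 2 ≤ 9000 * δ ^ 2 * (1 + c ^ 2) := by
      have : 0 ≤ 9000 * δ ^ 2 * c ^ 2 := by positivity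
      linarith
    linarith
  linarith

theorem Sol.A2_const (S : Sol c v) (θ θ' : ℝ) : A2 c v θ = A2 c v θ' := by
  have hd : ∀ θ, HasDerivAt (A2 c v) 0 θ := by
    intro θ
    rw [hasDerivAt_iff_isLittleO]
    simp only [smul_zero, sub_zero]
    have h1 : (fun x => A2 c v x - A2 c v θ) =O[nhds θ] fun x => (x - θ) ^ 2 := by
      apply Asymptotics.IsBigO.of_bound 9000
      have : ∀ᶠ x in nhds θ, |x - θ| < 1 / 100 := by
        have := Metric.ball_mem_nhds θ (show (0 : ℝ) < 1 / 100 by norm_num)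
        filter_upwards [this] with x hx
        rwa [Metric.mem_ball, Real.dist_eq] at hx
      filter_upwards [this] with x hx
      have a1 := S.A2_step (θ := θ) (θ' := x) hx.le
      have a2 := S.A2_step (θ := x) (θ' := θ) (by rw [abs_sub_comm]; exact hx.le)
      rw [abs_sub_comm] at a2
      rw [Real.norm_eq_abs, Real.norm_eq_abs, abs_of_nonneg (sq_nonneg (x - θ)), ← sq_abs (x - θ),
        abs_le]
      constructor <;> linarith
    refine h1.trans_isLittleO ?_
    have h2 : (fun x : ℝ => (x - θ) ^ 2) = fun x => (x - θ) * (x - θ) := by ext x; ring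
    rw [h2]
    have h3 : (fun x : ℝ => x - θ) =o[nhds θ] fun _ => (1 : ℝ) := by
      rw [Asymptotics.isLittleO_one_iff]
      have : Filter.Tendsto (fun x : ℝ => x - θ) (nhds θ) (nhds (θ - θ)) :=
        (continuous_id.sub continuous_const).tendsto θ
      simpa using this
    have h4 := h3.mul_isBigO (Asymptotics.isBigO_refl (fun x : ℝ => x - θ) (nhds θ))
    simpa using h4
  exact is_const_of_deriv_eq_zero (fun x => (hd x).differentiableAt) (fun x => (hd x).deriv) θ θ'

end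

end H855HC
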