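import Pool.Agent.H855R3.HC.Geo2

set_option autoImplicit false

open Real Set MeasureTheory

namespace H855HC

/-- The plane. -/
abbrev E2 := EuclideanSpace ℝ (Fin 2)

/-- The unit vector at angle `θ`. -/
noncomputable def ee (θ : ℝ) : E2 := !₂[cos θ, sin θ]

theorem inner_eq (x y : E2) : inner ℝ x y = x 0 * y 0 + x 1 * y 1 := by
  rw [PiLp.inner_apply, Fin.sum_univ_two]
  simp only [RCLike.inner_apply, conj_trivial]
  ring

@[simp] theorem ee_zero (θ : ℝ) : ee θ 0 = cos θ := rfl
@[simp] theorem ee_one (θ : ℝ) : ee θ 1 = sin θ := rfl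

theorem ee_norm (θ : ℝ) : ‖ee θ‖ = 1 := by
  have h : ‖ee θ‖ ^ 2 = 1 := by
    rw [← real_inner_self_eq_norm_sq, inner_eq, ee_zero, ee_one]
    nlinarith [sin_sq_add_cos_sq θ]
  have h0 := norm_nonneg (ee θ)
  nlinarith

theorem inner_ee (θ φ : ℝ) : inner ℝ (ee θ) (ee φ) = cos (φ - θ) := by
  rw [inner_eq, ee_zero, ee_one, ee_zero, ee_one, cos_sub]
  ring

theorem exists_polar (x : E2) : ∃ φ : ℝ, x = ‖x‖ • ee φ := by
  set z : ℂ := ⟨x 0, x 1⟩ with hz
  have hn : ‖x‖ = ‖z‖ := by
    have h1 : ‖x‖ ^ 2 = ‖z‖ ^ 2 := by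
      rw [← real_inner_self_eq_norm_sq, inner_eq, Complex.sq_norm, Complex.normSq_apply]
    have := norm_nonneg x
    have := norm_nonneg z
    nlinarith [sq_nonneg (‖x‖ - ‖z‖), sq_nonneg (‖x‖ + ‖z‖)]
  refine ⟨Complex.arg z, ?_⟩
  ext i
  fin_cases i
  · simp only [Fin.zero_eta, PiLp.smul_apply, ee_zero, smul_eq_mul]
    rw [hn, Complex.norm_mul_cos_arg]
  · simp only [Fin.mk_one, PiLp.smul_apply, ee_one, smul_eq_mul]
    rw [hn, Complex.norm_mul_sin_arg]

/-- The positive function defining the body. -/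
noncomputable def hh (v : ℝ → ℝ) (θ : ℝ) : ℝ := exp (prim v θ / 2)

theorem hh_pos (v : ℝ → ℝ) (θ : ℝ) : 0 < hh v θ := exp_pos _

theorem hh_sq (v : ℝ → ℝ) (θ : ℝ) : hh v θ ^ 2 = exp (prim v θ) := by
  unfold hh
  rw [← exp_nat_mul]
  congr 1
  push_cast
  ring

/-- The body. -/
def KK (v : ℝ → ℝ) : Set E2 := {x | ∀ θ, inner ℝ (ee θ) x ≤ hh v θ}

section

variable {c : ℝ} {v : ℝ → ℝ}

theorem Sol.hh_bounds (S : Sol c v) (θ : ℝ) : 99 / 100 ≤ hh v θ ∧ hh v θ ≤ 101 / 100 := by
  have h1 := S.u_small θ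
  have h2 := Real.abs_exp_sub_one_le (x := prim v θ / 2) (by
    rw [abs_div, abs_two]; linarith)
  rw [abs_div, abs_two] at h2
  have h3 := abs_le.1 h2
  unfold hh
  constructor <;> linarith

theorem KK_closed (v : ℝ → ℝ) : IsClosed (KK v) := by
  have : KK v = ⋂ θ : ℝ, {x : E2 | inner ℝ (ee θ) x ≤ hh v θ} := by
    ext x; simp [KK]
  rw [this]
  exact isClosed_iInter fun θ => isClosed_le (by fun_prop) continuous_const

theorem KK_convex (v : ℝ → ℝ) : Convex ℝ (KK v) := by
  intro x hx y hy a b ha hb hab θ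
  rw [inner_add_right, inner_smul_right, inner_smul_right]
  have h1 := mul_le_mul_of_nonneg_left (hx θ) ha
  have h2 := mul_le_mul_of_nonneg_left (hy θ) hb
  have h3 : a * hh v θ + b * hh v θ = hh v θ := by rw [← add_mul, hab, one_mul]
  linarith

theorem Sol.KK_norm (S : Sol c v) {x : E2} (hx : x ∈ KK v) : ‖x‖ ≤ 2 := by
  obtain ⟨φ, hφ⟩ := exists_polar x
  have h1 := hx φ
  rw [hφ, inner_smul_right, inner_ee, sub_self, cos_zero, mul_one] at h1
  linarith [(S.hh_bounds φ).2]

theorem Sol.KK_compact (S : Sol c v) : IsCompact (KK v) := by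
  apply Metric.isCompact_of_isClosed_isBounded (KK_closed v)
  rw [isBounded_iff_forall_norm_le]
  exact ⟨2, fun x hx => S.KK_norm hx⟩

theorem Sol.ball_sub (S : Sol c v) : Metric.ball (0 : E2) (1 / 2) ⊆ KK v := by
  intro x hx θ
  rw [Metric.mem_ball, dist_zero_right] at hx
  have h1 : inner ℝ (ee θ) x ≤ ‖ee θ‖ * ‖x‖ := real_inner_le_norm _ _
  rw [ee_norm, one_mul] at h1
  linarith [(S.hh_bounds θ).1]

theorem Sol.KK_interior (S : Sol c v) : (interior (KK v)).Nonempty :=
  ⟨0, (Metric.isOpen_ball.subset_interior_iff.2 S.ball_sub) (Metric.mem_ball_self (by norm_num))⟩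

theorem u_two_pi (hv : Good v) (θ : ℝ) (n : ℤ) : prim v (θ + n * (2 * π)) = prim v θ := by
  have hp : Function.Periodic (prim v) P := hv.prim_per
  have := hp.int_mul (5 * n) θ
  rw [← this]
  congr 1
  push_cast
  rw [mul_comm (5 : ℝ) (n : ℝ), mul_assoc, five_P]

/-- The radial function of the body. -/
theorem Sol.mem_KK_iff (S : Sol c v) {r : ℝ} (hr : 0 ≤ r) (φ : ℝ) :
    r • ee φ ∈ KK v ↔ r ^ 2 ≤ exp (infc (prim v) φ) := by
  constructor
  · intro h
    rcases eq_or_lt_of_le hr with h0 | h0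
    · rw [← h0]; simp; positivity
    · rw [← Real.log_le_iff_le_exp (by positivity)]
      apply le_infc
      intro s
      have h1 := h (φ - arctan s)
      rw [inner_smul_right, inner_ee, show φ - (φ - arctan s) = arctan s by ring] at h1
      have hc : 0 < cos (arctan s) := cos_arctan_pos s
      have h2 : (r * cos (arctan s)) ^ 2 ≤ hh v (φ - arctan s) ^ 2 :=
        pow_le_pow_left₀ (by positivity) h1 2
      rw [hh_sq, mul_pow, cos_sq_arctan, mul_one_div, div_le_iff₀ (by positivity)] at h2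
      have h3 := Real.log_le_log (by positivity) h2
      rw [Real.log_mul (exp_pos _).ne' (by positivity), log_exp] at h3
      exact h3
  · intro h θ
    rw [inner_smul_right, inner_ee]
    rcases le_or_gt (cos (φ - θ)) 0 with hc | hc
    · have := mul_nonpos_of_nonneg_of_nonpos hr hc
      linarith [hh_pos v θ]
    · -- reduce the angle to `(-π/2, π/2)`
      obtain ⟨τ, ⟨hτ1, hτ2⟩, n, hn⟩ : ∃ τ : ℝ, (-(π / 2) < τ ∧ τ < π / 2) ∧ ∃ n : ℤ,
          φ - θ = τ + n * (2 * π) := by
        set τ := toIocMod two_pi_pos (-π) (φ - θ) with hτ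
        have h1 := toIocMod_mem_Ioc two_pi_pos (-π) (φ - θ)
        have h2 := toIocMod_add_toIocDiv_zsmul two_pi_pos (-π) (φ - θ)
        rw [zsmul_eq_mul] at h2
        have h3 : cos τ = cos (φ - θ) := by
          rw [← h2, ← hτ, cos_add_int_mul_two_pi]
        rw [← h3] at hc
        have h4 : -π < τ := h1.1
        have h5 : τ ≤ π := by linarith [h1.2]
        refine ⟨τ, ⟨?_, ?_⟩, _, h2.symm⟩
        · by_contra hcon
          have : cos τ ≤ 0 := by
            rw [← cos_neg]
            exact cos_nonpos_of_pi_div_two_le_of_le (by linarith) (by linarith)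
          linarith
        · by_contra hcon
          have : cos τ ≤ 0 :=
            cos_nonpos_of_pi_div_two_le_of_le (by linarith) (by linarith)
          linarith
      rw [hn, cos_add_int_mul_two_pi] at hc ⊢
      have e1 : prim v θ = prim v (φ - τ) := by
        rw [← u_two_pi S.good θ n]
        congr 1
        linarith
      have h1 := infc_le S.ulip (by norm_num) φ (tan τ)
      rw [arctan_tan hτ1 hτ2, ← e1] at h1
      have h2 := h.trans (exp_le_exp.2 h1)
      rw [exp_add, exp_log (by positivity), ← hh_sq] at h2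
      have h3 : (1 + tan τ ^ 2) * cos τ ^ 2 = 1 := by
        rw [← inv_one_add_tan_sq hc.ne']
        field_simp
      have h4 : (r * cos τ) ^ 2 ≤ hh v θ ^ 2 := by
        rw [mul_pow]
        calc r ^ 2 * cos τ ^ 2 ≤ (hh v θ ^ 2 * (1 + tan τ ^ 2)) * cos τ ^ 2 :=
              mul_le_mul_of_nonneg_right h2 (sq_nonneg _)
          _ = hh v θ ^ 2 := by rw [mul_assoc, h3, mul_one]
      exact (pow_le_pow_iff_left₀ (by positivity) (hh_pos v θ).le (by norm_num)).1 h4

end

end H855HC
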