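import Pool.Agent.H855R3.HC.Geo3

set_option autoImplicit false

open Real Set MeasureTheory

namespace H855HC

/-- The isometry `r e^{iτ} ↦ r • ee (θ + τ)`. -/
noncomputable def JJ (θ : ℝ) : ℂ ≃ₗᵢ[ℝ] E2 :=
  (rotation (Circle.exp θ)).trans Complex.orthonormalBasisOneI.repr

theorem JJ_polar (θ : ℝ) (p : ℝ × ℝ) :
    JJ θ (Complex.polarCoord.symm p) = p.1 • ee (θ + p.2) := by
  have h : rotation (Circle.exp θ) (Complex.polarCoord.symm p) =
      (⟨p.1 * cos (θ + p.2), p.1 * sin (θ + p.2)⟩ : ℂ) := by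
    rw [rotation_apply, Complex.polarCoord_symm_apply, Circle.coe_exp]
    apply Complex.ext
    · simp only [Complex.mul_re, Complex.exp_ofReal_mul_I_re, Complex.exp_ofReal_mul_I_im,
        Complex.ofReal_re, Complex.ofReal_im, Complex.add_re, Complex.add_im, Complex.mul_im,
        Complex.I_re, Complex.I_im]
      rw [cos_add]
      ring
    · simp only [Complex.mul_re, Complex.exp_ofReal_mul_I_re, Complex.exp_ofReal_mul_I_im,
        Complex.ofReal_re, Complex.ofReal_im, Complex.add_re, Complex.add_im, Complex.mul_im,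
        Complex.I_re, Complex.I_im]
      rw [sin_add]
      ring
  show Complex.orthonormalBasisOneI.repr (rotation (Circle.exp θ) (Complex.polarCoord.symm p)) = _
  rw [h]
  ext i
  have h2 := congrFun (Complex.orthonormalBasisOneI_repr_apply
    (⟨p.1 * cos (θ + p.2), p.1 * sin (θ + p.2)⟩ : ℂ)) i
  rw [h2]
  fin_cases i
  · simp
  · simp

theorem lintegral_Ioc_id {a b : ℝ} (ha : 0 ≤ a) (hab : a ≤ b) :
    ∫⁻ r in Ioc a b, ENNReal.ofReal r = ENNReal.ofReal ((b ^ 2 - a ^ 2) / 2) := by
  rw [← ofReal_integral_eq_lintegral_ofReal]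
  · rw [← intervalIntegral.integral_of_le hab, integral_id]
  · exact (continuous_id.integrableOn_Ioc)
  · filter_upwards [ae_restrict_mem measurableSet_Ioc] with x hx
    exact ha.trans hx.1.le

section

variable {c : ℝ} {v : ℝ → ℝ}

/-- The cap. -/
def cap (v : ℝ → ℝ) (θ t : ℝ) : Set E2 := KK v \ {y | inner ℝ (ee θ) y ≤ t}

theorem cap_meas (v : ℝ → ℝ) (θ t : ℝ) : MeasurableSet (cap v θ t) :=
  (KK_closed v).measurableSet.diff (isClosed_le (by fun_prop) continuous_const).measurableSet

theorem Sol.mem_cap_iff (S : Sol c v) {r τ : ℝ} (hr : 0 < r) (θ t : ℝ) :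
    r • ee (θ + τ) ∈ cap v θ t ↔ r ≤ exp (infc (prim v) (θ + τ) / 2) ∧ t < r * cos τ := by
  unfold cap
  rw [mem_sdiff, S.mem_KK_iff hr.le, mem_ofPred_eq, not_le, inner_smul_right, inner_ee,
    add_sub_cancel_left]
  have h : exp (infc (prim v) (θ + τ)) = exp (infc (prim v) (θ + τ) / 2) ^ 2 := by
    rw [← exp_nat_mul]; congr 1; push_cast; ring
  rw [h, pow_le_pow_iff_left₀ hr.le (exp_pos _).le (by norm_num)]

theorem Sol.inner_integral (S : Sol c v) (θ : ℝ) {t : ℝ} (ht : 0 < t)
    (ht2 : t ^ 2 = exp (prim v θ) / (1 + c ^ 2)) {τ : ℝ} (hτ : τ ∈ Ioo (-π) π) :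
    ∫⁻ r in Ioi (0 : ℝ), ENNReal.ofReal r •
      ((JJ θ) ⁻¹' cap v θ t).indicator 1 (Complex.polarCoord.symm (r, τ)) =
    (Ioc (-bp c v (-θ)) (bp c v θ)).indicator
      (fun τ => ENNReal.ofReal (ff c v θ (θ + τ) / 2)) τ := by
  have hp := S.bp_bounds θ
  have hm := S.bp_bounds (-θ)
  set ρ := exp (infc (prim v) (θ + τ) / 2) with hρ
  have hρ0 : 0 < ρ := exp_pos _
  have hρ2 : ρ ^ 2 = exp (infc (prim v) (θ + τ)) := by
    rw [hρ, ← exp_nat_mul]; congr 1; push_cast; ring
  -- the integrand
  have hint : ∀ r ∈ Ioi (0 : ℝ), ENNReal.ofReal r •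
      ((JJ θ) ⁻¹' cap v θ t).indicator 1 (Complex.polarCoord.symm (r, τ)) =
      ({r | r ≤ ρ ∧ t < r * cos τ} : Set ℝ).indicator (fun r => ENNReal.ofReal r) r := by
    intro r hr
    have hiff : Complex.polarCoord.symm (r, τ) ∈ (JJ θ) ⁻¹' cap v θ t ↔
        r ≤ ρ ∧ t < r * cos τ := by
      rw [mem_preimage, JJ_polar]
      exact S.mem_cap_iff hr θ t
    by_cases h : r ≤ ρ ∧ t < r * cos τ
    · rw [indicator_of_mem (hiff.2 h), indicator_of_mem (by exact h)]
      simp
    · rw [indicator_of_notMem (fun h' => h (hiff.1 h')), indicator_of_notMem (by exact h)]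
      simp
  rw [setLIntegral_congr_fun measurableSet_Ioi hint]
  have hmeas : MeasurableSet ({r | r ≤ ρ ∧ t < r * cos τ} : Set ℝ) :=
    (isClosed_le continuous_id continuous_const).measurableSet.inter
      (isOpen_lt continuous_const (by fun_prop : Continuous fun r : ℝ => r * cos τ)).measurableSet
  rw [setLIntegral_indicator hmeas]
  rcases le_or_gt (cos τ) 0 with hc | hc
  · -- nothing
    have hempty : ({r | r ≤ ρ ∧ t < r * cos τ} : Set ℝ) ∩ Ioi 0 = ∅ := by
      ext r
      simp only [mem_inter_iff, mem_ofPred_eq, mem_Ioi, mem_empty_iff_false, iff_false, not_and]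
      rintro ⟨h1, h2⟩ h3
      have := mul_nonpos_of_nonneg_of_nonpos h3.le hc
      linarith
    have hnot : τ ∉ Ioc (-bp c v (-θ)) (bp c v θ) := by
      intro h
      have : 0 < cos τ := cos_pos_of_mem_Ioo ⟨by linarith [h.1], by linarith [h.2]⟩
      linarith
    rw [hempty, indicator_of_notMem hnot]
    simp
  · have hset : ({r | r ≤ ρ ∧ t < r * cos τ} : Set ℝ) ∩ Ioi 0 = Ioc (t / cos τ) ρ := by
      ext r
      simp only [mem_inter_iff, mem_ofPred_eq, mem_Ioi, mem_Ioc]
      rw [div_lt_iff₀ hc]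
      constructor
      · rintro ⟨⟨h1, h2⟩, h3⟩
        exact ⟨h2, h1⟩
      · rintro ⟨h1, h2⟩
        refine ⟨⟨h2, h1⟩, ?_⟩
        by_contra hcon
        have := mul_nonpos_of_nonpos_of_nonneg (not_lt.1 hcon) hc.le
        linarith
    rw [hset]
    have htan : (1 + tan τ ^ 2) * cos τ ^ 2 = 1 := by
      rw [← inv_one_add_tan_sq hc.ne']
      field_simp
    have htc : (t / cos τ) ^ 2 = exp (prim v θ) / (1 + c ^ 2) * (1 + tan τ ^ 2) := by
      rw [div_pow, ht2, div_eq_iff (by positivity)]
      rw [mul_assoc, htan, mul_one]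
    have hff : ff c v θ (θ + τ) = ρ ^ 2 - (t / cos τ) ^ 2 := by
      unfold ff
      rw [htc, hρ2, add_sub_cancel_left]
    have hlt : τ < π / 2 := by
      by_contra hcon
      have : cos τ ≤ 0 :=
        cos_nonpos_of_pi_div_two_le_of_le (by linarith) (by linarith [hτ.2])
      linarith
    have hgt : -(π / 2) < τ := by
      by_contra hcon
      have : cos τ ≤ 0 := by
        rw [← cos_neg]
        exact cos_nonpos_of_pi_div_two_le_of_le (by linarith) (by linarith [hτ.1])
      linarith
    have htpos : 0 < t / cos τ := by positivity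
    by_cases hmem : τ ∈ Ioc (-bp c v (-θ)) (bp c v θ)
    · rw [indicator_of_mem hmem]
      have hnn : 0 ≤ ff c v θ (θ + τ) :=
        S.ff_nonneg (by linarith [hmem.1]) (by linarith [hmem.2])
      have hle : t / cos τ ≤ ρ := by
        rw [hff] at hnn
        exact (pow_le_pow_iff_left₀ htpos.le hρ0.le (show (2 : ℕ) ≠ 0 by norm_num)).1 (by linarith)
      rw [lintegral_Ioc_id htpos.le hle, hff]
    · rw [indicator_of_notMem hmem]
      have hnp : ff c v θ (θ + τ) ≤ 0 := by
        rw [mem_Ioc, not_and_or, not_lt, not_le] at hmem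
        rcases hmem with h | h
        · exact S.ff_nonpos_left (by linarith) (by linarith)
        · exact S.ff_nonpos_right (by linarith) (by linarith)
      have hle : ρ ≤ t / cos τ := by
        rw [hff] at hnp
        exact (pow_le_pow_iff_left₀ hρ0.le htpos.le (show (2 : ℕ) ≠ 0 by norm_num)).1 (by linarith)
      rw [Ioc_eq_empty (not_lt.2 hle)]
      simp

theorem Sol.vol_cap (S : Sol c v) (θ : ℝ) {t : ℝ} (ht : 0 < t)
    (ht2 : t ^ 2 = exp (prim v θ) / (1 + c ^ 2)) :
    volume (cap v θ t) = ENNReal.ofReal (A2 c v θ / 2) := by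
  have hp := S.bp_bounds θ
  have hm := S.bp_bounds (-θ)
  have hC := cap_meas v θ t
  have hC' : MeasurableSet ((JJ θ) ⁻¹' cap v θ t) := (JJ θ).continuous.measurable hC
  have h1 : volume ((JJ θ) ⁻¹' cap v θ t) = volume (cap v θ t) :=
    (JJ θ).measurePreserving.measure_preimage hC.nullMeasurableSet
  rw [← h1, ← lintegral_indicator_one hC', ← Complex.lintegral_comp_polarCoord_symm,
    polarCoord_target, Measure.volume_eq_prod, ← Measure.prod_restrict]
  have hcont : Continuous fun p : ℝ × ℝ => Complex.polarCoord.symm p := by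
    simp only [Complex.polarCoord_symm_apply]
    fun_prop
  have hmeas : Measurable fun p : ℝ × ℝ => ENNReal.ofReal p.1 •
      ((JJ θ) ⁻¹' cap v θ t).indicator (1 : ℂ → ENNReal) (Complex.polarCoord.symm p) := by
    have a1 : Measurable fun p : ℝ × ℝ => ENNReal.ofReal p.1 :=
      ENNReal.measurable_ofReal.comp measurable_fst
    have a2 : Measurable fun p : ℝ × ℝ =>
        ((JJ θ) ⁻¹' cap v θ t).indicator (1 : ℂ → ENNReal) (Complex.polarCoord.symm p) :=
      (measurable_one.indicator hC').comp hcont.measurable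
    exact a1.mul a2
  rw [lintegral_prod_symm _ hmeas.aemeasurable]
  rw [setLIntegral_congr_fun measurableSet_Ioo (fun τ hτ => S.inner_integral θ ht ht2 hτ)]
  rw [setLIntegral_indicator measurableSet_Ioc]
  have hsub : Ioc (-bp c v (-θ)) (bp c v θ) ∩ Ioo (-π) π = Ioc (-bp c v (-θ)) (bp c v θ) := by
    apply inter_eq_left.2
    intro τ hτ
    have := pi_pos
    exact ⟨by linarith [hτ.1], by linarith [hτ.2]⟩
  rw [hsub, ← ofReal_integral_eq_lintegral_ofReal]
  · congr 1
    rw [← intervalIntegral.integral_of_le (by linarith), intervalIntegral.integral_div,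
      intervalIntegral.integral_comp_add_left (ff c v θ)]
    unfold A2
    rfl
  · have := S.ff_int (θ := θ) (a := θ + -bp c v (-θ)) (b := θ + bp c v θ)
      ⟨by linarith, by linarith⟩ ⟨by linarith, by linarith⟩
    have h2 := (this.comp_add_left θ)
    have h3 := (h2.div_const 2)
    simp only [add_sub_cancel_left] at h3
    rw [intervalIntegrable_iff_integrableOn_Ioc_of_le (by linarith)] at h3
    exact h3
  · filter_upwards [ae_restrict_mem measurableSet_Ioc] with τ hτ
    have := S.ff_nonneg (θ := θ) (φ := θ + τ) (by linarith [hτ.1]) (by linarith [hτ.2])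
    show 0 ≤ ff c v θ (θ + τ) / 2
    linarith

end

end H855HC
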