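import Pool.Agent.H855R3.HC.Geo4

set_option autoImplicit false

open Real Set MeasureTheory

namespace H855HC

section

variable {c : ℝ} {v : ℝ → ℝ}

/-- The level of the line in direction `θ`. -/
noncomputable def lev (c : ℝ) (v : ℝ → ℝ) (θ : ℝ) : ℝ := (√(1 + c ^ 2))⁻¹ * hh v θ

theorem lev_pos (c : ℝ) (v : ℝ → ℝ) (θ : ℝ) : 0 < lev c v θ := by
  unfold lev
  have := hh_pos v θ
  positivity

theorem Sol.vol_lev (S : Sol c v) (θ : ℝ) :
    volume (cap v θ (lev c v θ)) = ENNReal.ofReal (A2 c v 0 / 2) := by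
  rw [S.vol_cap θ (lev_pos c v θ), S.A2_const θ 0]
  unfold lev
  rw [mul_pow, hh_sq, inv_pow, Real.sq_sqrt (by positivity), inv_mul_eq_div]

theorem Sol.lev_lt (S : Sol c v) (θ : ℝ) : lev c v θ < 1 / 2 := by
  unfold lev
  have h1 : (2 : ℝ) * (101 / 100) < √(1 + c ^ 2) := by
    rw [Real.lt_sqrt (by norm_num)]
    nlinarith [S.hc]
  have h2 := (S.hh_bounds θ).2
  have h3 : (0 : ℝ) < √(1 + c ^ 2) := by positivity
  rw [inv_mul_lt_iff₀ h3]
  linarith

theorem Sol.vol_lt (S : Sol c v) (θ : ℝ) {t : ℝ} (ht : t < lev c v θ) :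
    ENNReal.ofReal (A2 c v 0 / 2) < volume (cap v θ t) := by
  set O : Set E2 := {x | max t 0 < inner ℝ (ee θ) x} ∩ {x | inner ℝ (ee θ) x < lev c v θ} ∩
    Metric.ball (0 : E2) (1 / 2) with hO
  have hOo : IsOpen O :=
    ((isOpen_lt continuous_const (by fun_prop)).inter
      (isOpen_lt (by fun_prop) continuous_const)).inter Metric.isOpen_ball
  have hmax : max t 0 < lev c v θ := max_lt ht (lev_pos c v θ)
  have hOn : O.Nonempty := by
    obtain ⟨s, hs1, hs2⟩ := exists_between hmax
    have hs0 : 0 ≤ s := (le_max_right t 0).trans hs1.le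
    have hin : inner ℝ (ee θ) (s • ee θ) = s := by
      rw [inner_smul_right, inner_ee, sub_self, cos_zero, mul_one]
    refine ⟨s • ee θ, ⟨?_, ?_⟩, ?_⟩
    · show max t 0 < inner ℝ (ee θ) (s • ee θ)
      rw [hin]; exact hs1
    · show inner ℝ (ee θ) (s • ee θ) < lev c v θ
      rw [hin]; exact hs2
    · rw [Metric.mem_ball, dist_zero_right, norm_smul, ee_norm, mul_one, Real.norm_eq_abs,
        abs_of_nonneg hs0]
      linarith [S.lev_lt θ]
  have hOpos : 0 < volume O := hOo.measure_pos volume hOn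
  have hdisj : Disjoint (cap v θ (lev c v θ)) O := by
    rw [Set.disjoint_left]
    rintro x ⟨_, h1⟩ ⟨⟨_, h2⟩, _⟩
    apply h1
    exact (show inner ℝ (ee θ) x < lev c v θ from h2).le
  have hsub : cap v θ (lev c v θ) ∪ O ⊆ cap v θ t := by
    rintro x (⟨h1, h2⟩ | ⟨⟨h1, h2⟩, h3⟩)
    · refine ⟨h1, fun h => h2 ?_⟩
      exact (show inner ℝ (ee θ) x ≤ t from h).trans ht.le
    · refine ⟨S.ball_sub h3, fun h => ?_⟩
      have a1 : max t 0 < inner ℝ (ee θ) x := h1
      have a2 : inner ℝ (ee θ) x ≤ t := h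
      have a3 := le_max_left t 0
      linarith
  calc ENNReal.ofReal (A2 c v 0 / 2) = volume (cap v θ (lev c v θ)) := (S.vol_lev θ).symm
    _ < volume (cap v θ (lev c v θ)) + volume O := by
        apply ENNReal.lt_add_right _ hOpos.ne'
        rw [S.vol_lev θ]
        exact ENNReal.ofReal_ne_top
    _ = volume (cap v θ (lev c v θ) ∪ O) := (measure_union hdisj hOo.measurableSet).symm
    _ ≤ volume (cap v θ t) := measure_mono hsub

theorem Sol.A2_pos (S : Sol c v) : 0 < A2 c v 0 / 2 := by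
  have h : 0 < volume (cap v 0 (lev c v 0)) := by
    obtain ⟨s, hs1, hs2⟩ := exists_between (S.lev_lt 0)
    have hs0 : 0 < s := (lev_pos c v 0).trans hs1
    set O : Set E2 := {x | lev c v 0 < inner ℝ (ee 0) x} ∩ Metric.ball (0 : E2) (1 / 2) with hO
    have hOo : IsOpen O :=
      (isOpen_lt continuous_const (by fun_prop)).inter Metric.isOpen_ball
    have hOn : O.Nonempty := by
      refine ⟨s • ee 0, ?_, ?_⟩
      · show lev c v 0 < inner ℝ (ee 0) (s • ee 0)
        rw [inner_smul_right, inner_ee, sub_self, cos_zero, mul_one]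
        exact hs1
      · rw [Metric.mem_ball, dist_zero_right, norm_smul, ee_norm, mul_one, Real.norm_eq_abs,
          abs_of_nonneg hs0.le]
        exact hs2
    refine lt_of_lt_of_le (hOo.measure_pos volume hOn) (measure_mono ?_)
    rintro x ⟨h1, h2⟩
    refine ⟨S.ball_sub h2, fun h => ?_⟩
    have a1 : lev c v 0 < inner ℝ (ee 0) x := h1
    have a2 : inner ℝ (ee 0) x ≤ lev c v 0 := h
    linarith
  rw [S.vol_lev 0, ENNReal.ofReal_pos] at h
  exact h

/-- The floating body is a homothetic copy. -/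
theorem Sol.floating (S : Sol c v) :
    (⋂ (u : E2) (t : ℝ) (_ : u ≠ 0)
          (_ : volume (KK v \ {y | inner ℝ u y ≤ t}) ≤ ENNReal.ofReal (A2 c v 0 / 2)),
          {y : E2 | inner ℝ u y ≤ t})
        = (fun y => (√(1 + c ^ 2))⁻¹ • y + (0 : E2)) '' KK v := by
  have hs : (0 : ℝ) < √(1 + c ^ 2) := by positivity
  apply Subset.antisymm
  · intro y hy
    refine ⟨√(1 + c ^ 2) • y, ?_, ?_⟩
    · intro θ
      rw [inner_smul_right]
      have hne : ee θ ≠ 0 := by
        intro h
        have := ee_norm θ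
        rw [h, norm_zero] at this
        exact zero_ne_one this
      simp only [mem_iInter] at hy
      have h1 : inner ℝ (ee θ) y ≤ lev c v θ := hy (ee θ) (lev c v θ) hne (S.vol_lev θ).le
      unfold lev at h1
      rw [inv_mul_eq_div, le_div_iff₀ hs] at h1
      linarith
    · simp only [add_zero]
      rw [smul_smul, inv_mul_cancel₀ hs.ne', one_smul]
  · rintro _ ⟨k, hk, rfl⟩
    simp only [mem_iInter, add_zero]
    intro u t hu hvol
    obtain ⟨θ, hθ⟩ := exists_polar u
    have hn : 0 < ‖u‖ := norm_pos_iff.2 hu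
    have hset : {y : E2 | inner ℝ u y ≤ t} = {y : E2 | inner ℝ (ee θ) y ≤ t / ‖u‖} := by
      ext y
      show inner ℝ u y ≤ t ↔ inner ℝ (ee θ) y ≤ t / ‖u‖
      rw [le_div_iff₀ hn]
      nth_rewrite 1 [hθ]
      rw [inner_smul_left, conj_trivial, mul_comm]
    rw [hset] at hvol ⊢
    have hge : lev c v θ ≤ t / ‖u‖ := by
      by_contra hcon
      exact absurd hvol (not_le.2 (S.vol_lt θ (not_le.1 hcon)))
    show inner ℝ (ee θ) ((√(1 + c ^ 2))⁻¹ • k) ≤ t / ‖u‖
    rw [inner_smul_right]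
    refine le_trans ?_ hge
    unfold lev
    exact mul_le_mul_of_nonneg_left (hk θ) (by positivity)

/-- Rotation by `P`. -/
noncomputable def RR : E2 ≃ₗᵢ[ℝ] E2 := (JJ 0).symm.trans (JJ P)

theorem RR_polar (r φ : ℝ) : RR (r • ee φ) = r • ee (P + φ) := by
  have h1 := JJ_polar 0 (r, φ)
  have h2 := JJ_polar P (r, φ)
  simp only [zero_add] at h1 h2
  rw [← h1, ← h2]
  simp [RR]

theorem Sol.RR_mem (S : Sol c v) (x : E2) : RR x ∈ KK v ↔ x ∈ KK v := by
  obtain ⟨φ, hφ⟩ := exists_polar x
  rw [hφ, RR_polar, S.mem_KK_iff (norm_nonneg _), S.mem_KK_iff (norm_nonneg _), add_comm P φ,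
    infc_periodic S.good.prim_per]

theorem cos_P_lt : cos P < 1 := by
  have h : cos P < cos 0 := cos_lt_cos_of_nonneg_of_le_pi le_rfl
    (by unfold P; linarith [pi_pos]) P_pos
  rwa [cos_zero] at h

theorem sin_P_pos : 0 < sin P :=
  sin_pos_of_pos_of_lt_pi P_pos (by unfold P; linarith [pi_pos])

theorem Sol.not_ellipse (S : Sol c v) (h0 : ell v ≠ 0)
    (A : E2 ≃ᵃ[ℝ] E2) : KK v ≠ A '' Metric.closedBall 0 1 := by
  intro hK
  apply h0
  -- the centre
  set a : E2 := A 0 with ha
  have hAlin : ∀ w, A w = A.linear w + a := by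
    intro w
    have := A.map_vadd 0 w
    simpa using this
  have hsym : ∀ x ∈ KK v, (2 : ℝ) • a - x ∈ KK v := by
    intro x hx
    rw [hK] at hx ⊢
    obtain ⟨w, hw, rfl⟩ := hx
    refine ⟨-w, by simpa using hw, ?_⟩
    rw [hAlin, hAlin, map_neg, two_smul]
    abel
  have hshift : ∀ x ∈ KK v, x + (2 : ℝ) • (RR a - a) ∈ KK v := by
    intro x hx
    have hz := hsym x hx
    have hz' : RR.symm ((2 : ℝ) • a - x) ∈ KK v := by
      rw [← S.RR_mem, LinearIsometryEquiv.apply_symm_apply]
      exact hz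
    have h2 := hsym _ hz'
    rw [← S.RR_mem, map_sub, LinearIsometryEquiv.apply_symm_apply, map_smul] at h2
    convert h2 using 1
    rw [smul_sub]
    abel
  have hRa : RR a = a := by
    have hc := S.KK_compact
    have hne : (KK v).Nonempty := ⟨0, S.ball_sub (Metric.mem_ball_self (by norm_num))⟩
    obtain ⟨x, hx, hmax⟩ := hc.exists_isMaxOn hne
      (f := fun x => inner ℝ (RR a - a) x) (by fun_prop)
    have h1 : inner ℝ (RR a - a) (x + (2 : ℝ) • (RR a - a)) ≤ inner ℝ (RR a - a) x :=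
      hmax (hshift x hx)
    rw [inner_add_right, inner_smul_right, real_inner_self_eq_norm_sq] at h1
    have h2 : ‖RR a - a‖ ^ 2 ≤ 0 := by linarith
    have h3 : ‖RR a - a‖ = 0 := by
      have := sq_nonneg ‖RR a - a‖
      exact pow_eq_zero_iff (two_ne_zero) |>.1 (le_antisymm h2 this)
    exact sub_eq_zero.1 (norm_eq_zero.1 h3)
  have ha0 : a = 0 := by
    obtain ⟨φ, hφ⟩ := exists_polar a
    rw [hφ, RR_polar] at hRa
    have h1 : inner ℝ (ee φ) (‖a‖ • ee (P + φ)) = inner ℝ (ee φ) (‖a‖ • ee φ) := by rw [hRa]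
    rw [inner_smul_right, inner_smul_right, inner_ee, inner_ee, sub_self, cos_zero,
      add_sub_cancel_right] at h1
    have h2 : ‖a‖ * (1 - cos P) = 0 := by linarith
    rcases mul_eq_zero.1 h2 with h | h
    · exact norm_eq_zero.1 h
    · linarith [cos_P_lt]
  -- the quadratic form
  set T := A.linear with hT
  have hmem : ∀ x, x ∈ KK v ↔ ‖T.symm x‖ ≤ 1 := by
    intro x
    rw [hK]
    constructor
    · rintro ⟨w, hw, rfl⟩
      rw [hAlin, ha0, add_zero, LinearEquiv.symm_apply_apply]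
      simpa using hw
    · intro hx
      refine ⟨T.symm x, by simpa using hx, ?_⟩
      rw [hAlin, ha0, add_zero, LinearEquiv.apply_symm_apply]
  set q : ℝ → ℝ := fun φ => ‖T.symm (ee φ)‖ ^ 2 with hq
  have hqU : ∀ φ, q φ * exp (infc (prim v) φ) = 1 := by
    intro φ
    have hqpos : 0 < ‖T.symm (ee φ)‖ := by
      rw [norm_pos_iff]
      intro h
      have h2 : ee φ = 0 := by
        have := congrArg T h
        simpa using this
      have := ee_norm φ
      rw [h2, norm_zero] at this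
      exact zero_ne_one this
    have hiff : ∀ r : ℝ, 0 ≤ r → (r ^ 2 ≤ exp (infc (prim v) φ) ↔ r * ‖T.symm (ee φ)‖ ≤ 1) := by
      intro r hr
      rw [← S.mem_KK_iff hr, hmem, map_smul, norm_smul, Real.norm_eq_abs, abs_of_nonneg hr]
    have h1 := (hiff (exp (infc (prim v) φ / 2)) (exp_pos _).le).1 (by
      rw [← exp_nat_mul]
      apply le_of_eq
      congr 1
      push_cast
      ring)
    have h2 := (hiff (1 / ‖T.symm (ee φ)‖) (by positivity)).2 (by
      rw [one_div, inv_mul_cancel₀ hqpos.ne'])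
    have h3 : exp (infc (prim v) φ) = exp (infc (prim v) φ / 2) ^ 2 := by
      rw [← exp_nat_mul]
      congr 1
      push_cast
      ring
    simp only [hq]
    apply le_antisymm
    · rw [h3, ← mul_pow, mul_comm]
      exact pow_le_one₀ (by positivity) h1
    · rw [div_pow, one_pow, div_le_iff₀ (by positivity)] at h2
      linarith
  have hqform : ∀ φ, q φ = cos φ ^ 2 * ‖T.symm (ee 0)‖ ^ 2 +
      2 * (cos φ * sin φ) * inner ℝ (T.symm (ee 0)) (T.symm (ee (π / 2))) +
      sin φ ^ 2 * ‖T.symm (ee (π / 2))‖ ^ 2 := by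
    intro φ
    have h1 : ee φ = cos φ • ee 0 + sin φ • ee (π / 2) := by
      ext i
      fin_cases i <;> simp
    simp only [hq]
    rw [h1, map_add, map_smul, map_smul, norm_add_sq_real, norm_smul, norm_smul, mul_pow, mul_pow,
      Real.norm_eq_abs, Real.norm_eq_abs, sq_abs, sq_abs, inner_smul_left, inner_smul_right,
      conj_trivial]
    ring
  have hqeven : ∀ φ, q (-φ) = q φ := by
    intro φ
    have h1 := hqU φ
    have h2 := hqU (-φ)
    rw [infc_even S.good.prim_even] at h2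
    have h3 := (exp_pos (infc (prim v) φ)).ne'
    exact mul_right_cancel₀ h3 (h2.trans h1.symm)
  have hqper : q P = q 0 := by
    have h1 := hqU P
    have h2 := hqU 0
    have h4 := infc_periodic S.good.prim_per 0
    rw [zero_add] at h4
    rw [h4] at h1
    have h3 := (exp_pos (infc (prim v) 0)).ne'
    exact mul_right_cancel₀ h3 (h1.trans h2.symm)
  have hB : inner ℝ (T.symm (ee 0)) (T.symm (ee (π / 2))) = (0 : ℝ) := by
    have h1 := hqeven (π / 4)
    rw [hqform, hqform, cos_neg, sin_neg] at h1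
    have h2 : cos (π / 4) * sin (π / 4) ≠ 0 := by
      rw [cos_pi_div_four, sin_pi_div_four]
      positivity
    have h3 : 4 * (cos (π / 4) * sin (π / 4)) *
        inner ℝ (T.symm (ee 0)) (T.symm (ee (π / 2))) = (0 : ℝ) := by linarith
    rcases mul_eq_zero.1 h3 with h | h
    · exact absurd (mul_eq_zero.1 h |>.resolve_left (by norm_num)) h2
    · exact h
  have hAC : ‖T.symm (ee 0)‖ ^ 2 = ‖T.symm (ee (π / 2))‖ ^ 2 := by
    have h1 := hqper
    rw [hqform, hqform, hB, sin_zero, cos_zero] at h1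
    have h2 := sin_sq_add_cos_sq P
    have h3 := sin_P_pos
    have h4 : sin P ^ 2 * (‖T.symm (ee (π / 2))‖ ^ 2 - ‖T.symm (ee 0)‖ ^ 2) = 0 := by
      have : cos P ^ 2 = 1 - sin P ^ 2 := by linarith
      rw [this] at h1
      linarith
    rcases mul_eq_zero.1 h4 with h | h
    · exact absurd h (by positivity)
    · linarith
  have hUconst : ∀ φ, infc (prim v) φ = infc (prim v) 0 := by
    intro φ
    have h1 := hqU φ
    have h2 := hqU 0
    have h3 : q φ = q 0 := by
      rw [hqform, hqform, hB, ← hAC, sin_zero, cos_zero]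
      have := sin_sq_add_cos_sq φ
      have h5 : cos φ ^ 2 = 1 - sin φ ^ 2 := by linarith
      rw [h5]
      ring
    rw [h3] at h1
    have hq0 : q 0 ≠ 0 := by
      intro h
      rw [h, zero_mul] at h2
      exact zero_ne_one h2
    exact exp_injective (mul_left_cancel₀ hq0 (h1.trans h2.symm))
  have hv0 : ∀ θ, v θ = 0 := by
    intro θ
    rw [← S.eq θ]
    unfold Psi
    have h1 := (S.root θ).2
    have h2 := (S.root (-θ)).2
    rw [hUconst] at h1 h2
    rw [S.good.prim_even] at h2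
    have h3 : Yf c v θ ^ 2 = Yf c v (-θ) ^ 2 := by linarith
    have h4 := (S.ybd θ).1
    have h5 := (S.ybd (-θ)).1
    have h6 : Yf c v θ = Yf c v (-θ) :=
      (pow_left_inj₀ (by linarith) (by linarith) (two_ne_zero)).1 h3
    linarith
  unfold ell
  simp [hv0]

end

end H855HC
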