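import Pool.Agent.H855R3.HC.Fun

set_option autoImplicit false

open Real Set intervalIntegral

namespace H855HC

/-- the basic mode -/
noncomputable def s5 (t : ℝ) : ℝ := sin (5 * t)

theorem s5_cont : Continuous s5 := by unfold s5; fun_prop

theorem s5_good : Good s5 where
  cont := s5_cont
  per := by
    intro x
    unfold s5
    rw [mul_add, five_P, sin_add_two_pi]
  odd := by
    intro x
    unfold s5
    rw [mul_neg, sin_neg]

theorem s5_bd : Bd 1 s5 := fun _ => abs_sin_le_one _

theorem integral_sin5 (a b : ℝ) : ∫ t in a..b, sin (5 * t) = (cos (5 * a) - cos (5 * b)) / 5 := by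
  have h := intervalIntegral.integral_comp_mul_left (a := a) (b := b) (c := 5) sin (by norm_num)
  rw [h, integral_sin]
  simp only [smul_eq_mul]
  ring

theorem integral_cos5 (a b : ℝ) : ∫ t in a..b, cos (5 * t) = (sin (5 * b) - sin (5 * a)) / 5 := by
  have h := intervalIntegral.integral_comp_mul_left (a := a) (b := b) (c := 5) cos (by norm_num)
  rw [h, integral_cos]
  simp only [smul_eq_mul]
  ring

theorem prim_s5 (θ : ℝ) : prim s5 θ = (1 - cos (5 * θ)) / 5 := by
  unfold prim s5
  rw [integral_sin5]
  simp

/-- the multiplier of the basic mode -/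
noncomputable def m5 (c : ℝ) : ℝ := (1 + c ^ 2) / (2 * c) * (2 * sin (5 * arctan c) / 5)

theorem Lop_s5 (c θ : ℝ) : Lop c s5 θ = m5 c * s5 θ := by
  unfold Lop m5
  rw [prim_s5, prim_s5, mul_add 5, mul_sub 5, cos_add, cos_sub]
  unfold s5
  ring

/-- the normalised pairing with the basic mode -/
noncomputable def ell (v : ℝ → ℝ) : ℝ := 5 / π * ∫ t in (0 : ℝ)..P, v t * s5 t

theorem ell_sub {v w : ℝ → ℝ} (hv : Continuous v) (hw : Continuous w) :
    ell (fun t => v t - w t) = ell v - ell w := by
  unfold ell
  have h1 : IntervalIntegrable (fun t => v t * s5 t) MeasureTheory.volume 0 P :=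
    (hv.mul s5_cont).intervalIntegrable _ _
  have h2 : IntervalIntegrable (fun t => w t * s5 t) MeasureTheory.volume 0 P :=
    (hw.mul s5_cont).intervalIntegrable _ _
  rw [← mul_sub, ← intervalIntegral.integral_sub h1 h2]
  congr 2
  ext t
  ring

theorem ell_smul (a : ℝ) (v : ℝ → ℝ) : ell (fun t => a * v t) = a * ell v := by
  unfold ell
  have : (fun t => a * v t * s5 t) = fun t => a * (v t * s5 t) := by ext t; ring
  rw [this, intervalIntegral.integral_const_mul]
  ring

theorem ell_add {v w : ℝ → ℝ} (hv : Continuous v) (hw : Continuous w) :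
    ell (fun t => v t + w t) = ell v + ell w := by
  have h := ell_sub (v := fun t => v t + w t) (w := w) (hv.add hw) hw
  simp only [add_sub_cancel_right] at h
  have : ell (fun t => v t) = ell v := rfl
  linarith

theorem ell_bd {N : ℝ} {v : ℝ → ℝ} (hb : Bd N v) : |ell v| ≤ 2 * N := by
  unfold ell
  have h := intervalIntegral.norm_integral_le_of_norm_le_const (a := 0) (b := P)
    (f := fun t => v t * s5 t) (C := N) (by
      intro t _
      rw [Real.norm_eq_abs, abs_mul]
      have := mul_le_mul (hb t) (s5_bd t) (abs_nonneg _) hb.nonneg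
      linarith)
  rw [Real.norm_eq_abs, sub_zero, abs_of_pos P_pos] at h
  rw [abs_mul, abs_of_pos (show 0 < 5 / π by positivity)]
  calc _ ≤ 5 / π * (N * P) := mul_le_mul_of_nonneg_left h (by positivity)
    _ = 2 * N := by
      unfold P
      field_simp

theorem integral_s5_sq : ∫ t in (0 : ℝ)..P, s5 t * s5 t = π / 5 := by
  have h1 : ∀ t, s5 t * s5 t = 1 / 2 - cos (5 * (2 * t)) / 2 := by
    intro t
    unfold s5
    rw [show 5 * (2 * t) = 2 * (5 * t) by ring, cos_two_mul, cos_sq']
    ring
  have h2 : ∀ t, HasDerivAt (fun t : ℝ => t / 2 - sin (10 * t) / 20) (s5 t * s5 t) t := by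
    intro t
    have a1 : HasDerivAt (fun t : ℝ => sin (10 * t)) (cos (10 * t) * (10 * 1)) t :=
      ((hasDerivAt_id t).const_mul 10).sin
    have a2 := ((hasDerivAt_id t).div_const 2).sub (a1.div_const 20)
    refine HasDerivAt.congr_deriv a2 ?_
    rw [h1]
    rw [show 5 * (2 * t) = 10 * t by ring]
    ring
  rw [integral_eq_sub_of_hasDerivAt (fun t _ => h2 t)
    ((s5_cont.mul s5_cont).intervalIntegrable _ _)]
  rw [show 10 * P = 2 * π + 2 * π by unfold P; ring, sin_add_two_pi, sin_two_pi]
  unfold P
  simp
  ring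

theorem ell_s5 : ell s5 = 1 := by
  unfold ell
  rw [integral_s5_sq]
  field_simp

theorem sin5_P : sin (5 * P) = 0 := by rw [five_P, sin_two_pi]

/-- Integration by parts: pairing of the primitive with `cos 5t`. -/
theorem integral_prim_cos {v : ℝ → ℝ} (hv : Good v) :
    ∫ t in (0 : ℝ)..P, prim v t * cos (5 * t) = -(1 / 5) * ∫ t in (0 : ℝ)..P, v t * s5 t := by
  have hs : ∀ t, HasDerivAt (fun t : ℝ => sin (5 * t) / 5) (cos (5 * t)) t := by
    intro t
    have a1 : HasDerivAt (fun t : ℝ => sin (5 * t)) (cos (5 * t) * (5 * 1)) t :=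
      ((hasDerivAt_id t).const_mul 5).sin
    refine HasDerivAt.congr_deriv (a1.div_const 5) ?_
    ring
  have h := integral_mul_deriv_eq_deriv_mul (a := 0) (b := P)
    (u := prim v) (u' := v) (v := fun t : ℝ => sin (5 * t) / 5) (v' := fun t : ℝ => cos (5 * t))
    (fun t _ => prim_hasDerivAt hv.cont t) (fun t _ => hs t)
    (hv.cont.intervalIntegrable _ _)
    ((by fun_prop : Continuous fun t : ℝ => cos (5 * t)).intervalIntegrable _ _)
  rw [h, sin5_P]
  simp only [zero_div, mul_zero, sin_zero, sub_zero, zero_sub]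
  rw [← intervalIntegral.integral_const_mul, ← intervalIntegral.integral_neg]
  congr 1
  ext t
  unfold s5
  ring

theorem integral_shift {f : ℝ → ℝ} (hf : ∀ x, f (x + P) = f x) (a : ℝ) :
    ∫ t in (0 : ℝ)..P, f (t + a) = ∫ t in (0 : ℝ)..P, f t := by
  have hp : Function.Periodic f P := hf
  rw [intervalIntegral.integral_comp_add_right]
  have := hp.intervalIntegral_add_eq (0 + a) 0
  rw [show 0 + a + P = P + a by ring, show (0 : ℝ) + P = P by ring] at this
  exact this

theorem ell_Lop {c : ℝ} {v : ℝ → ℝ} (hv : Good v) : ell (Lop c v) = m5 c * ell v := by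
  unfold ell m5
  set β := arctan c with hβ
  have hpc := prim_continuous hv.cont
  have e1 : ∫ t in (0 : ℝ)..P, prim v (t + β) * s5 t =
      ∫ t in (0 : ℝ)..P, prim v t * s5 (t - β) := by
    have := integral_shift (f := fun t => prim v t * s5 (t - β)) (by
      intro x
      rw [hv.prim_per, show x + P - β = x - β + P by ring, s5_good.per]) β
    simp only [add_sub_cancel_right] at this
    exact this
  have e2 : ∫ t in (0 : ℝ)..P, prim v (t - β) * s5 t =
      ∫ t in (0 : ℝ)..P, prim v t * s5 (t + β) := by
    have := integral_shift (f := fun t => prim v t * s5 (t + β)) (by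
      intro x
      rw [hv.prim_per, show x + P + β = x + β + P by ring, s5_good.per]) (-β)
    simp only [neg_add_cancel_right] at this
    exact this
  have e3 : ∫ t in (0 : ℝ)..P, Lop c v t * s5 t = (1 + c ^ 2) / (2 * c) *
      ((∫ t in (0 : ℝ)..P, prim v t * s5 (t - β)) - ∫ t in (0 : ℝ)..P, prim v t * s5 (t + β)) := by
    rw [← e1, ← e2, ← intervalIntegral.integral_sub, ← intervalIntegral.integral_const_mul]
    · congr 1
      ext t
      unfold Lop
      ring
    · have := s5_cont
      exact (by fun_prop : Continuous fun t => prim v (t + β) * s5 t).intervalIntegrable _ _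
    · have := s5_cont
      exact (by fun_prop : Continuous fun t => prim v (t - β) * s5 t).intervalIntegrable _ _
  rw [e3, ← intervalIntegral.integral_sub]
  · have e4 : ∀ t, prim v t * s5 (t - β) - prim v t * s5 (t + β) =
        (-2 * sin (5 * β)) * (prim v t * cos (5 * t)) := by
      intro t
      unfold s5
      rw [mul_sub, mul_add, sin_sub, sin_add]
      ring
    simp only [e4]
    rw [intervalIntegral.integral_const_mul, integral_prim_cos hv]
    ring
  · have := s5_cont
    exact (by fun_prop : Continuous fun t => prim v t * s5 (t - β)).intervalIntegrable _ _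
  · have := s5_cont
    exact (by fun_prop : Continuous fun t => prim v t * s5 (t + β)).intervalIntegrable _ _

end H855HC
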