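import Pool.Agent.H855R3.HC.Lin

set_option autoImplicit false

open Real Set intervalIntegral

namespace H855HC

/-- The parameter `c = tan β`, `β = π/2 - e`. -/
noncomputable def cc (e : ℝ) : ℝ := tan (π / 2 - e)

theorem arctan_cc {e : ℝ} (he : 145 / 1000 ≤ e) (he' : e ≤ 155 / 1000) :
    arctan (cc e) = π / 2 - e := by
  unfold cc
  have := pi_gt_three
  exact arctan_tan (by linarith) (by linarith)

theorem sin_cos_pos {e : ℝ} (he : 145 / 1000 ≤ e) (he' : e ≤ 155 / 1000) :
    0 < sin e ∧ 0 < cos e := by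
  have := pi_gt_three
  exact ⟨sin_pos_of_pos_of_lt_pi (by linarith) (by linarith),
    cos_pos_of_mem_Ioo ⟨by linarith, by linarith⟩⟩

theorem cc_eq {e : ℝ} : cc e = cos e / sin e := by
  unfold cc
  rw [tan_pi_div_two_sub, tan_eq_sin_div_cos, inv_div]

theorem cc_bounds {e : ℝ} (he : 145 / 1000 ≤ e) (he' : e ≤ 155 / 1000) :
    6 ≤ cc e ∧ cc e ≤ 8 := by
  obtain ⟨hs, hc⟩ := sin_cos_pos he he'
  rw [cc_eq]
  constructor
  · rw [le_div_iff₀ hs]
    have h1 : sin e < e := sin_lt (by linarith)
    have h2 : 1 - e ^ 2 / 2 ≤ cos e := one_sub_sq_div_two_le_cos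
    nlinarith
  · rw [div_le_iff₀ hs]
    have h1 : e - e ^ 3 / 6 < sin e := sin_gt_sub_cube (by linarith)
    have h2 : cos e ≤ 1 := cos_le_one e
    have h3 : e ^ 3 ≤ (155 / 1000) ^ 3 := pow_le_pow_left₀ (by linarith) he' 3
    norm_num at h3
    linarith

theorem kappa_eq {e : ℝ} (he : 145 / 1000 ≤ e) (he' : e ≤ 155 / 1000) :
    (1 + cc e ^ 2) / (2 * cc e) = 1 / sin (2 * e) := by
  obtain ⟨hs, hc⟩ := sin_cos_pos he he'
  rw [cc_eq, sin_two_mul]
  have h := sin_sq_add_cos_sq e
  field_simp
  linarith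

theorem kappa_le {e : ℝ} (he : 145 / 1000 ≤ e) (he' : e ≤ 155 / 1000) :
    (1 + cc e ^ 2) / (2 * cc e) ≤ 354 / 100 := by
  rw [kappa_eq he he']
  have h1 : 2 * e - (2 * e) ^ 3 / 6 < sin (2 * e) := sin_gt_sub_cube (by linarith)
  have h3 : (2 * e) ^ 3 ≤ (31 / 100) ^ 3 := pow_le_pow_left₀ (by linarith) (by linarith) 3
  norm_num at h3
  have h4 : (2825 : ℝ) / 10000 ≤ sin (2 * e) := by linarith
  rw [div_le_iff₀ (by linarith)]
  linarith

theorem Lop_short {e : ℝ} (he : 145 / 1000 ≤ e) (he' : e ≤ 155 / 1000) {v : ℝ → ℝ}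
    (hv : Good v) (θ : ℝ) :
    Lop (cc e) v θ = (1 + cc e ^ 2) / (2 * cc e) *
      (prim v (θ + (π / 5 - 2 * e) / 2) - prim v (θ - (π / 5 - 2 * e) / 2)) := by
  unfold Lop
  rw [arctan_cc he he']
  rw [show θ + (π / 2 - e) = θ + (π / 5 - 2 * e) / 2 + P by unfold P; ring,
    show θ - (π / 2 - e) = θ - (π / 5 - 2 * e) / 2 - P by unfold P; ring,
    hv.prim_per, hv.prim_per']

theorem Lop_sq {e : ℝ} (he : 145 / 1000 ≤ e) (he' : e ≤ 155 / 1000) {v : ℝ → ℝ}
    (hv : Good v) (θ : ℝ) :
    Lop (cc e) (Lop (cc e) v) θ = ((1 + cc e ^ 2) / (2 * cc e)) ^ 2 *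
      ∫ r in (0 : ℝ)..(π / 5 - 2 * e), (π / 5 - 2 * e - r) * (v (θ + r) + v (θ - r)) := by
  have hpc := prim_continuous hv.cont
  set z := π / 5 - 2 * e with hz
  set κ := (1 + cc e ^ 2) / (2 * cc e) with hκ
  have hL : ∀ t, Lop (cc e) v t = κ * (prim v (t + z / 2) - prim v (t - z / 2)) :=
    fun t => Lop_short he he' hv t
  rw [Lop_short he he' (Lop_good hv), prim_sub (Lop_good hv).cont]
  simp only [hL]
  rw [intervalIntegral.integral_const_mul, ← mul_assoc, ← pow_two]
  congr 1
  rw [intervalIntegral.integral_sub ((by fun_prop : Continuous fun t => prim v (t + z / 2)).intervalIntegrable _ _)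
    ((by fun_prop : Continuous fun t => prim v (t - z / 2)).intervalIntegrable _ _)]
  rw [intervalIntegral.integral_comp_add_right (prim v), intervalIntegral.integral_comp_sub_right (prim v)]
  have e1 : θ - z / 2 + z / 2 = θ := by ring
  have e2 : θ + z / 2 + z / 2 = θ + z := by ring
  have e3 : θ - z / 2 - z / 2 = θ - z := by ring
  have e4 : θ + z / 2 - z / 2 = θ := by ring
  rw [e1, e2, e3, e4]
  have hA : ∀ r, HasDerivAt (fun r => prim v (θ + r) - prim v (θ - r)) (v (θ + r) + v (θ - r)) r := by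
    intro r
    have a1 : HasDerivAt (fun r => prim v (θ + r)) (v (θ + r)) r :=
      (prim_hasDerivAt hv.cont (θ + r)).comp_const_add θ r
    have a2 : HasDerivAt (fun r => prim v (θ - r)) (-v (θ - r)) r :=
      (prim_hasDerivAt hv.cont (θ - r)).comp_const_sub θ r
    refine HasDerivAt.congr_deriv (a1.sub a2) ?_
    ring
  have hB : ∀ r, HasDerivAt (fun r : ℝ => z - r) (-1) r := by
    intro r
    simpa using (hasDerivAt_id r).const_sub z
  have hvc := hv.cont
  have h := integral_mul_deriv_eq_deriv_mul (a := 0) (b := z)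
    (u := fun r => z - r) (u' := fun _ => -1) (v := fun r => prim v (θ + r) - prim v (θ - r))
    (v' := fun r => v (θ + r) + v (θ - r))
    (fun t _ => hB t) (fun t _ => hA t)
    (continuous_const.intervalIntegrable _ _)
    ((by fun_prop : Continuous fun r => v (θ + r) + v (θ - r)).intervalIntegrable _ _)
  rw [h]
  simp only [sub_self, zero_mul, add_zero, sub_zero, mul_zero, neg_mul, one_mul,
    intervalIntegral.integral_neg, zero_sub, neg_neg]
  rw [intervalIntegral.integral_sub ((by fun_prop : Continuous fun t => prim v (θ + t)).intervalIntegrable _ _)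
    ((by fun_prop : Continuous fun t => prim v (θ - t)).intervalIntegrable _ _)]
  rw [intervalIntegral.integral_comp_add_left (prim v), intervalIntegral.integral_comp_sub_left (prim v)]
  simp

theorem orth_const {v : ℝ → ℝ} (hv : Good v) (θ : ℝ) :
    ∫ r in (0 : ℝ)..(P / 2), (v (θ + r) + v (θ - r)) = 0 := by
  have hA : ∀ r, HasDerivAt (fun r => prim v (θ + r) - prim v (θ - r)) (v (θ + r) + v (θ - r)) r := by
    intro r
    have a1 : HasDerivAt (fun r => prim v (θ + r)) (v (θ + r)) r :=
      (prim_hasDerivAt hv.cont (θ + r)).comp_const_add θ r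
    have a2 : HasDerivAt (fun r => prim v (θ - r)) (-v (θ - r)) r :=
      (prim_hasDerivAt hv.cont (θ - r)).comp_const_sub θ r
    refine HasDerivAt.congr_deriv (a1.sub a2) ?_
    ring
  have hvc := hv.cont
  rw [integral_eq_sub_of_hasDerivAt (fun t _ => hA t)
    ((by fun_prop : Continuous fun r => v (θ + r) + v (θ - r)).intervalIntegrable _ _)]
  have h := hv.prim_per (θ - P / 2)
  rw [show θ - P / 2 + P = θ + P / 2 by ring] at h
  rw [h]
  simp

theorem orth_cos {v : ℝ → ℝ} (hv : Good v) (h0 : ell v = 0) (θ : ℝ) :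
    ∫ r in (0 : ℝ)..(P / 2), cos (5 * r) * (v (θ + r) + v (θ - r)) = 0 := by
  have hvc := hv.cont
  have hint : ∫ t in (0 : ℝ)..P, v t * s5 t = 0 := by
    unfold ell at h0
    have : (5 : ℝ) / π ≠ 0 := by positivity
    exact (mul_eq_zero.1 h0).resolve_left this
  have hcos : ∫ t in (0 : ℝ)..P, v t * cos (5 * t) = 0 := by
    have hg : Good (fun t => v t * cos (5 * t)) := by
      refine ⟨by fun_prop, ?_, ?_⟩
      · intro x
        rw [hv.per, mul_add, five_P, cos_add_two_pi]
      · intro x
        rw [hv.odd, mul_neg, cos_neg, neg_mul]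
    have := hg.integral_period 0
    rwa [zero_add] at this
  have e1 : ∫ r in (0 : ℝ)..(P / 2), cos (5 * r) * v (θ + r) =
      ∫ t in θ..(θ + P / 2), cos (5 * (t - θ)) * v t := by
    have := intervalIntegral.integral_comp_add_left (a := 0) (b := P / 2)
      (fun t => cos (5 * (t - θ)) * v t) θ
    simp only [add_sub_cancel_left, add_zero] at this
    exact this
  have e2 : ∫ r in (0 : ℝ)..(P / 2), cos (5 * r) * v (θ - r) =
      ∫ t in (θ - P / 2)..θ, cos (5 * (t - θ)) * v t := by
    have := intervalIntegral.integral_comp_sub_left (a := 0) (b := P / 2)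
      (fun t => cos (5 * (t - θ)) * v t) θ
    simp only [sub_zero] at this
    rw [← this]
    congr 1
    ext r
    rw [show 5 * (θ - r - θ) = -(5 * r) by ring, cos_neg]
  have e3 : ∫ r in (0 : ℝ)..(P / 2), cos (5 * r) * (v (θ + r) + v (θ - r)) =
      ∫ t in (θ - P / 2)..(θ + P / 2), cos (5 * (t - θ)) * v t := by
    have hfc : Continuous fun t => cos (5 * (t - θ)) * v t := by fun_prop
    have e6 := intervalIntegral.integral_add_adjacent_intervals (hfc.intervalIntegrable
      (μ := MeasureTheory.volume) (θ - P / 2) θ) (hfc.intervalIntegrable θ (θ + P / 2))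
    rw [← e6, ← e1, ← e2, ← intervalIntegral.integral_add]
    · congr 1
      ext r
      ring
    · exact (by fun_prop : Continuous fun r => cos (5 * r) * v (θ - r)).intervalIntegrable _ _
    · exact (by fun_prop : Continuous fun r => cos (5 * r) * v (θ + r)).intervalIntegrable _ _
  have hp : Function.Periodic (fun t => cos (5 * (t - θ)) * v t) P := by
    intro x
    simp only
    rw [hv.per, show 5 * (x + P - θ) = 5 * (x - θ) + 5 * P by ring, five_P, cos_add_two_pi]
  have e4 := hp.intervalIntegral_add_eq (θ - P / 2) 0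
  rw [show θ - P / 2 + P = θ + P / 2 by ring, zero_add] at e4
  rw [e3, e4]
  have e5 : ∀ t, cos (5 * (t - θ)) * v t =
      cos (5 * θ) * (v t * cos (5 * t)) + sin (5 * θ) * (v t * s5 t) := by
    intro t
    unfold s5
    rw [mul_sub, cos_sub]
    ring
  simp only [e5]
  have hs5 := s5_cont
  rw [intervalIntegral.integral_add, intervalIntegral.integral_const_mul,
    intervalIntegral.integral_const_mul, hint, hcos]
  · ring
  · exact (by fun_prop : Continuous fun t => cos (5 * θ) * (v t * cos (5 * t))).intervalIntegrable _ _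
  · exact (by fun_prop : Continuous fun t => sin (5 * θ) * (v t * s5 t)).intervalIntegrable _ _

theorem orth_q {v : ℝ → ℝ} (hv : Good v) (h0 : ell v = 0) (a b θ : ℝ) :
    ∫ r in (0 : ℝ)..(P / 2), (a + b * cos (5 * r)) * (v (θ + r) + v (θ - r)) = 0 := by
  have hvc := hv.cont
  have e : ∀ r, (a + b * cos (5 * r)) * (v (θ + r) + v (θ - r)) =
      a * (v (θ + r) + v (θ - r)) + b * (cos (5 * r) * (v (θ + r) + v (θ - r))) := by
    intro r; ring
  simp only [e]
  rw [intervalIntegral.integral_add, intervalIntegral.integral_const_mul,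
    intervalIntegral.integral_const_mul, orth_const hv, orth_cos hv h0]
  · ring
  · exact (by fun_prop : Continuous fun r => a * (v (θ + r) + v (θ - r))).intervalIntegrable _ _
  · exact (by fun_prop : Continuous fun r =>
      b * (cos (5 * r) * (v (θ + r) + v (θ - r)))).intervalIntegrable _ _

end H855HC
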