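import Pool.Agent.H855R3.HC.Lin2

set_option autoImplicit false

open Real Set intervalIntegral

namespace H855HC

theorem num_bound {e : ℝ} (he : 145 / 1000 ≤ e) (he' : e ≤ 155 / 1000) :
    (π / 5 - 2 * e) ^ 3 / 3 - 43 / 500 * (π / 5 - 2 * e) ^ 2
      - (2 * (7 / 50)) / 25 * (1 - cos (5 * (π / 5 - 2 * e)))
      + ((43 / 500) ^ 2 + (7 / 50) ^ 2 / 2) * (P / 2) ≤ 15 / 10000 := by
  have hp1 := pi_gt_d4
  have hp2 := pi_lt_d4
  set z := π / 5 - 2 * e with hz
  have hz1 : 3183 / 10000 ≤ z := by rw [hz]; linarith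
  have hz2 : z ≤ 3384 / 10000 := by rw [hz]; linarith
  have hw : cos (5 * z) = -sin (5 * z - π / 2) := by
    rw [sin_sub_pi_div_two, neg_neg]
  rw [hw]
  set w := 5 * z - π / 2 with hwd
  have hw1 : 0 < w := by rw [hwd]; linarith
  have hw2 : w ≤ 122 / 1000 := by rw [hwd]; linarith
  have hsin : w - w ^ 3 / 6 < sin w := sin_gt_sub_cube hw1
  have hsin2 : 996 / 1000 * w ≤ sin w := by nlinarith [mul_pos hw1 hw1]
  have hf : z ^ 3 / 3 - 43 / 500 * z ^ 2 ≤ 514 / 10000 * z - 143 / 10000 := by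
    nlinarith [mul_nonneg (sub_nonneg.2 hz1) (sub_nonneg.2 hz2),
      mul_nonneg (mul_nonneg (sub_nonneg.2 hz1) (sub_nonneg.2 hz2)) (sub_nonneg.2 hz1)]
  have hP : P / 2 ≤ 6284 / 10000 := by unfold P; linarith
  nlinarith

theorem Lop_sq_bd {e N : ℝ} (he : 145 / 1000 ≤ e) (he' : e ≤ 155 / 1000) {v : ℝ → ℝ}
    (hv : Good v) (h0 : ell v = 0) (hb : Bd N v) :
    Bd (9 / 10 * N) (Lop (cc e) (Lop (cc e) v)) := by
  intro θ
  have hN := hb.nonneg
  have hvc := hv.cont
  have hp1 := pi_gt_d4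
  have hp2 := pi_lt_d4
  have hk := kappa_bound (cc_bounds he he').1 (cc_bounds he he').2
  have hk2 := kappa_le he he'
  have hnum := num_bound he he'
  rw [Lop_sq he he' hv]
  set κ := (1 + cc e ^ 2) / (2 * cc e) with hκ
  set z := π / 5 - 2 * e with hz
  have hz0 : 0 ≤ z := by rw [hz]; linarith
  have hzP : z ≤ P / 2 := by rw [hz]; unfold P; linarith
  set a : ℝ := 43 / 500 with ha
  set b : ℝ := 7 / 50 with hb'
  set s : ℝ := 46 / 1000 with hs
  set V : ℝ → ℝ := fun r => v (θ + r) + v (θ - r) with hV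
  have hVc : Continuous V := by rw [hV]; fun_prop
  have hVb : ∀ r, |V r| ≤ 2 * N := by
    intro r
    refine (abs_add_le _ _).trans ?_
    linarith [hb (θ + r), hb (θ - r)]
  have horth : ∫ r in (0 : ℝ)..(P / 2), (a + b * cos (5 * r)) * V r = 0 := orth_q hv h0 a b θ
  -- pointwise bound
  have hpt : ∀ f r : ℝ, |f * V r| ≤ N * (f ^ 2 / s + s) := by
    intro f r
    rw [abs_mul]
    have h1 : |f| * |V r| ≤ |f| * (2 * N) := mul_le_mul_of_nonneg_left (hVb r) (abs_nonneg _)
    have h2 : 2 * |f| ≤ f ^ 2 / s + s := by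
      rw [hs]
      have : f ^ 2 = |f| ^ 2 := (sq_abs f).symm
      rw [this]
      nlinarith [sq_nonneg (|f| - 46 / 1000)]
    nlinarith
  -- the two pieces
  have c1 : Continuous fun r => (z - r - (a + b * cos (5 * r))) * V r := by fun_prop
  have c2 : Continuous fun r => (a + b * cos (5 * r)) * V r := by fun_prop
  have hQ : ∫ r in (0 : ℝ)..z, (z - r) * V r =
      (∫ r in (0 : ℝ)..z, (z - r - (a + b * cos (5 * r))) * V r) -
        ∫ r in z..(P / 2), (a + b * cos (5 * r)) * V r := by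
    have h1 := intervalIntegral.integral_add_adjacent_intervals
      (c2.intervalIntegrable (μ := MeasureTheory.volume) 0 z) (c2.intervalIntegrable z (P / 2))
    rw [horth] at h1
    have h2 : ∫ r in (0 : ℝ)..z, (z - r) * V r =
        (∫ r in (0 : ℝ)..z, (z - r - (a + b * cos (5 * r))) * V r) +
        ∫ r in (0 : ℝ)..z, (a + b * cos (5 * r)) * V r := by
      rw [← intervalIntegral.integral_add (c1.intervalIntegrable _ _) (c2.intervalIntegrable _ _)]
      congr 1
      ext r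
      ring
    linarith
  have d1 : Continuous fun r : ℝ => N * ((z - r - (a + b * cos (5 * r))) ^ 2 / s + s) := by fun_prop
  have d2 : Continuous fun r : ℝ => N * ((a + b * cos (5 * r)) ^ 2 / s + s) := by fun_prop
  have i1 : |∫ r in (0 : ℝ)..z, (z - r - (a + b * cos (5 * r))) * V r| ≤
      ∫ r in (0 : ℝ)..z, N * ((z - r - (a + b * cos (5 * r))) ^ 2 / s + s) := by
    rw [← Real.norm_eq_abs]
    refine intervalIntegral.norm_integral_le_of_norm_le hz0
      (Filter.Eventually.of_forall fun r _ => ?_) (d1.intervalIntegrable _ _)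
    rw [Real.norm_eq_abs]
    exact hpt _ r
  have i2 : |∫ r in z..(P / 2), (a + b * cos (5 * r)) * V r| ≤
      ∫ r in z..(P / 2), N * ((a + b * cos (5 * r)) ^ 2 / s + s) := by
    rw [← Real.norm_eq_abs]
    refine intervalIntegral.norm_integral_le_of_norm_le hzP
      (Filter.Eventually.of_forall fun r _ => ?_) (d2.intervalIntegrable _ _)
    rw [Real.norm_eq_abs]
    exact hpt _ r
  -- primitives
  have hsin : ∀ r, HasDerivAt (fun r : ℝ => sin (5 * r)) (5 * cos (5 * r)) r := by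
    intro r
    have a1 : HasDerivAt (fun t : ℝ => sin (5 * t)) (cos (5 * r) * (5 * 1)) r :=
      ((hasDerivAt_id r).const_mul 5).sin
    refine a1.congr_deriv (by ring)
  have hcos : ∀ r, HasDerivAt (fun r : ℝ => cos (5 * r)) (-(5 * sin (5 * r))) r := by
    intro r
    have a1 : HasDerivAt (fun t : ℝ => cos (5 * t)) (-sin (5 * r) * (5 * 1)) r :=
      ((hasDerivAt_id r).const_mul 5).cos
    refine a1.congr_deriv (by ring)
  have hG : ∀ r, HasDerivAt (fun r : ℝ => a ^ 2 * r + 2 * a * b * sin (5 * r) / 5 +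
      b ^ 2 * (r / 2 + sin (5 * r) * cos (5 * r) / 10)) ((a + b * cos (5 * r)) ^ 2) r := by
    intro r
    have h1 := ((hasDerivAt_id r).const_mul (a ^ 2)).add (((hsin r).const_mul (2 * a * b)).div_const 5)
    have h2 := h1.add ((((hasDerivAt_id r).div_const 2).add
      (((hsin r).mul (hcos r)).div_const 10)).const_mul (b ^ 2))
    refine HasDerivAt.congr_deriv h2 ?_
    have := sin_sq_add_cos_sq (5 * r)
    have h3 : sin (5 * r) ^ 2 = 1 - cos (5 * r) ^ 2 := by linarith
    simp only [mul_one]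
    ring_nf
    ring_nf at h3
    rw [h3]
    ring
  have hF : ∀ r, HasDerivAt (fun r : ℝ => (-(z - r) ^ 3 / 3 + a * (z - r) ^ 2 -
      2 * b * ((z - r) * sin (5 * r) / 5 - cos (5 * r) / 25)) + (a ^ 2 * r + 2 * a * b * sin (5 * r) / 5 +
      b ^ 2 * (r / 2 + sin (5 * r) * cos (5 * r) / 10))) ((z - r - (a + b * cos (5 * r))) ^ 2) r := by
    intro r
    have hz1 : HasDerivAt (fun r : ℝ => z - r) (-1) r := by
      simpa using (hasDerivAt_id r).const_sub z
    have h1 := (((hz1.pow 3).neg.div_const 3).add ((hz1.pow 2).const_mul a)).sub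
      ((((hz1.mul (hsin r)).div_const 5).sub ((hcos r).div_const 25)).const_mul (2 * b))
    refine HasDerivAt.congr_deriv (h1.add (hG r)) ?_
    simp only [Nat.cast_ofNat, Nat.add_one_sub_one]
    ring
  have j1 : ∫ r in (0 : ℝ)..z, N * ((z - r - (a + b * cos (5 * r))) ^ 2 / s + s) =
      N * ((((-(z - z) ^ 3 / 3 + a * (z - z) ^ 2 -
      2 * b * ((z - z) * sin (5 * z) / 5 - cos (5 * z) / 25)) + (a ^ 2 * z + 2 * a * b * sin (5 * z) / 5 +
      b ^ 2 * (z / 2 + sin (5 * z) * cos (5 * z) / 10))) - ((-(z - 0) ^ 3 / 3 + a * (z - 0) ^ 2 -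
      2 * b * ((z - 0) * sin (5 * 0) / 5 - cos (5 * 0) / 25)) + (a ^ 2 * 0 + 2 * a * b * sin (5 * 0) / 5 +
      b ^ 2 * (0 / 2 + sin (5 * 0) * cos (5 * 0) / 10)))) / s + s * z) := by
    have hc : Continuous fun r : ℝ => (z - r - (a + b * cos (5 * r))) ^ 2 := by fun_prop
    have e1 := integral_eq_sub_of_hasDerivAt (fun t _ => hF t) (hc.intervalIntegrable 0 z)
    rw [intervalIntegral.integral_const_mul, intervalIntegral.integral_add
      ((hc.div_const s).intervalIntegrable _ _) (continuous_const.intervalIntegrable _ _),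
      intervalIntegral.integral_div, e1]
    simp only [intervalIntegral.integral_const, smul_eq_mul, sub_zero]
    ring
  have j2 : ∫ r in z..(P / 2), N * ((a + b * cos (5 * r)) ^ 2 / s + s) =
      N * (((a ^ 2 * (P / 2) + 2 * a * b * sin (5 * (P / 2)) / 5 +
      b ^ 2 * ((P / 2) / 2 + sin (5 * (P / 2)) * cos (5 * (P / 2)) / 10)) -
      (a ^ 2 * z + 2 * a * b * sin (5 * z) / 5 +
      b ^ 2 * (z / 2 + sin (5 * z) * cos (5 * z) / 10))) / s + s * (P / 2 - z)) := by
    have hc : Continuous fun r : ℝ => (a + b * cos (5 * r)) ^ 2 := by fun_prop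
    have e1 := integral_eq_sub_of_hasDerivAt (fun t _ => hG t) (hc.intervalIntegrable z (P / 2))
    rw [intervalIntegral.integral_const_mul, intervalIntegral.integral_add
      ((hc.div_const s).intervalIntegrable _ _) (continuous_const.intervalIntegrable _ _),
      intervalIntegral.integral_div, e1]
    simp only [intervalIntegral.integral_const, smul_eq_mul]
    ring
  have hs5 : sin (5 * (P / 2)) = 0 := by
    rw [show 5 * (P / 2) = π by unfold P; ring, sin_pi]
  have hsum : |∫ r in (0 : ℝ)..z, (z - r) * V r| ≤ N * ((z ^ 3 / 3 - a * z ^ 2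
      - (2 * b) / 25 * (1 - cos (5 * z)) + (a ^ 2 + b ^ 2 / 2) * (P / 2)) / s + s * (P / 2)) := by
    rw [hQ]
    refine (abs_sub _ _).trans ((add_le_add i1 i2).trans ?_)
    rw [j1, j2, hs5]
    apply le_of_eq
    simp only [mul_zero, sin_zero, cos_zero]
    ring
  rw [abs_mul, abs_of_nonneg (sq_nonneg κ)]
  have hP : P / 2 ≤ 6284 / 10000 := by unfold P; linarith
  have hfin : (z ^ 3 / 3 - a * z ^ 2
      - (2 * b) / 25 * (1 - cos (5 * z)) + (a ^ 2 + b ^ 2 / 2) * (P / 2)) / s + s * (P / 2) ≤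
      62 / 1000 := by
    have : (z ^ 3 / 3 - a * z ^ 2
      - (2 * b) / 25 * (1 - cos (5 * z)) + (a ^ 2 + b ^ 2 / 2) * (P / 2)) / s ≤
        (15 / 10000) / s := by
      apply div_le_div_of_nonneg_right hnum
      rw [hs]; norm_num
    rw [hs] at this ⊢
    linarith
  have hk3 : κ ^ 2 ≤ 126 / 10 := by nlinarith [hk.1]
  have hfin2 : |∫ r in (0 : ℝ)..z, (z - r) * V r| ≤ N * (62 / 1000) :=
    hsum.trans (mul_le_mul_of_nonneg_left hfin hN)
  calc κ ^ 2 * |∫ r in (0 : ℝ)..z, (z - r) * V r| ≤ 126 / 10 * (N * (62 / 1000)) :=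
        mul_le_mul hk3 hfin2 (abs_nonneg _) (by norm_num)
    _ ≤ 9 / 10 * N := by nlinarith

end H855HC
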