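import Pool.Agent.H855R3.HC.Basic

set_option autoImplicit false

open Real Set

namespace H855HC

/-- `y = tan b`, where `b > 0` is the angular half-width (on one side) of the cap in direction `θ`. -/
def IsRoot (u : ℝ → ℝ) (c θ y : ℝ) : Prop :=
  0 < y ∧ 1 + y ^ 2 = (1 + c ^ 2) * exp (infc u (θ + arctan y) - u θ)

theorem exp_diff {h x₁ x₂ : ℝ} (hh : h ≤ 1 / 4) (h₁ : |x₁| ≤ h) (h₂ : |x₂| ≤ h) :
    |exp x₁ - exp x₂ - (x₁ - x₂)| ≤ 6 * h * |x₁ - x₂| := by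
  have hd : |x₁ - x₂| ≤ 2 * h := by
    have := abs_sub x₁ x₂
    linarith
  have h0 : 0 ≤ h := (abs_nonneg _).trans h₁
  have e1 : exp x₁ = exp x₂ * exp (x₁ - x₂) := by rw [← exp_add]; ring_nf
  have e2 : exp x₁ - exp x₂ - (x₁ - x₂) =
      (exp x₂ - 1) * (exp (x₁ - x₂) - 1) + (exp (x₁ - x₂) - 1 - (x₁ - x₂)) := by
    rw [e1]; ring
  have a1 : |exp x₂ - 1| ≤ 2 * h := (Real.abs_exp_sub_one_le (by linarith)).trans (by linarith)
  have a2 : |exp (x₁ - x₂) - 1| ≤ 2 * |x₁ - x₂| := Real.abs_exp_sub_one_le (by linarith)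
  have a3 : |exp (x₁ - x₂) - 1 - (x₁ - x₂)| ≤ (x₁ - x₂) ^ 2 :=
    Real.abs_exp_sub_one_sub_id_le (by linarith)
  have a4 : (x₁ - x₂) ^ 2 = |x₁ - x₂| ^ 2 := (sq_abs _).symm
  rw [e2]
  refine (abs_add_le _ _).trans ?_
  rw [abs_mul]
  have hp := abs_nonneg (x₁ - x₂)
  have b1 : |exp x₂ - 1| * |exp (x₁ - x₂) - 1| ≤ (2 * h) * (2 * |x₁ - x₂|) :=
    mul_le_mul a1 a2 (abs_nonneg _) (by linarith)
  nlinarith

theorem x_bound {η : ℝ} {u : ℝ → ℝ} (hu : Lip η u) (hη : 0 ≤ η) (hη' : η ≤ 1 / 1000) (θ y : ℝ) :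
    |infc u (θ + arctan y) - u θ| ≤ 3 * η := by
  have h1 := infc_le_self hu hη (θ + arctan y)
  have h2 := infc_ge hu hη (by linarith) (θ + arctan y)
  have h3 := hu (θ + arctan y) θ
  rw [show θ + arctan y - θ = arctan y by ring] at h3
  have h4 : η * |arctan y| ≤ η * 2 := mul_le_mul_of_nonneg_left (abs_arctan_le_two y) hη
  have h5 := abs_le.1 (h3.trans h4)
  rw [abs_le]
  constructor <;> nlinarith [h5.1, h5.2]

theorem IsRoot.bounds {η : ℝ} {u : ℝ → ℝ} (hu : Lip η u) (hη : 0 ≤ η) (hη' : η ≤ 1 / 1000)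
    {c θ y : ℝ} (hc : 6 ≤ c) (hc' : c ≤ 8) (h : IsRoot u c θ y) :
    11 / 2 ≤ y ∧ y ≤ 9 ∧ |y - c| ≤ 40 * η := by
  obtain ⟨hy, he⟩ := h
  have hx := x_bound hu hη hη' θ y
  set x := infc u (θ + arctan y) - u θ with hxdef
  have h1 : |exp x - 1| ≤ 6 * η := by
    have := Real.abs_exp_sub_one_le (x := x) (by linarith)
    linarith
  have h2 := abs_le.1 h1
  have h3 : 11 / 2 ≤ y := by nlinarith
  have h4 : y ≤ 9 := by nlinarith
  refine ⟨h3, h4, ?_⟩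
  have h5 : (y - c) * (y + c) = (1 + c ^ 2) * (exp x - 1) := by nlinarith
  have h6 : |y - c| * (y + c) = (1 + c ^ 2) * |exp x - 1| := by
    rw [← abs_of_pos (show 0 < y + c by linarith), ← abs_mul, h5, abs_mul,
      abs_of_pos (show 0 < 1 + c ^ 2 by positivity)]
  have h7 : (1 + c ^ 2) * |exp x - 1| ≤ 65 * (6 * η) :=
    mul_le_mul (by nlinarith) h1 (abs_nonneg _) (by norm_num)
  have h8 : |y - c| * 11 ≤ |y - c| * (y + c) :=
    mul_le_mul_of_nonneg_left (by linarith) (abs_nonneg _)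
  linarith

theorem IsRoot.sub {η : ℝ} (hη' : η ≤ 1 / 1000)
    {c₁ c₂ y₁ y₂ x₁ x₂ : ℝ} (hc₁ : 6 ≤ c₁) (hc₁' : c₁ ≤ 8) (hc₂ : 6 ≤ c₂) (hc₂' : c₂ ≤ 8)
    (hy₁ : 11 / 2 ≤ y₁) (hy₂ : 11 / 2 ≤ y₂) (hx₁ : |x₁| ≤ 3 * η) (hx₂ : |x₂| ≤ 3 * η)
    (h₁ : 1 + y₁ ^ 2 = (1 + c₁ ^ 2) * exp x₁) (h₂ : 1 + y₂ ^ 2 = (1 + c₂ ^ 2) * exp x₂) :
    11 * |y₁ - y₂| ≤ 20 * |c₁ - c₂| + 130 * |x₁ - x₂| := by
  have h1 : |exp x₁ - 1| ≤ 6 * η := by
    have := Real.abs_exp_sub_one_le (x := x₁) (by linarith)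
    linarith
  have h1' := abs_le.1 h1
  have h3 := exp_diff (h := 3 * η) (by linarith) hx₁ hx₂
  have h4 : |exp x₁ - exp x₂| ≤ 2 * |x₁ - x₂| := by
    have h5 : |exp x₁ - exp x₂| ≤ |exp x₁ - exp x₂ - (x₁ - x₂)| + |x₁ - x₂| := by
      have := abs_add_le (exp x₁ - exp x₂ - (x₁ - x₂)) (x₁ - x₂)
      simpa using this
    have h6 : 6 * (3 * η) * |x₁ - x₂| ≤ 1 * |x₁ - x₂| :=
      mul_le_mul_of_nonneg_right (by linarith) (abs_nonneg _)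
    linarith
  have e1 : (y₁ - y₂) * (y₁ + y₂) =
      (c₁ - c₂) * ((c₁ + c₂) * exp x₁) + (1 + c₂ ^ 2) * (exp x₁ - exp x₂) := by
    nlinarith
  have e2 : |y₁ - y₂| * (y₁ + y₂) ≤
      |c₁ - c₂| * ((c₁ + c₂) * exp x₁) + (1 + c₂ ^ 2) * |exp x₁ - exp x₂| := by
    rw [← abs_of_pos (show 0 < y₁ + y₂ by linarith), ← abs_mul, e1]
    refine (abs_add_le _ _).trans ?_
    rw [abs_mul (c₁ - c₂), abs_of_pos (show 0 < (c₁ + c₂) * exp x₁ by positivity),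
      abs_mul (1 + c₂ ^ 2), abs_of_pos (show 0 < 1 + c₂ ^ 2 by positivity)]
  have e3 : |c₁ - c₂| * ((c₁ + c₂) * exp x₁) ≤ |c₁ - c₂| * 20 := by
    apply mul_le_mul_of_nonneg_left _ (abs_nonneg _)
    have : (c₁ + c₂) * exp x₁ ≤ 16 * (5 / 4) :=
      mul_le_mul (by linarith) (by linarith) (exp_pos _).le (by norm_num)
    linarith
  have e4 : (1 + c₂ ^ 2) * |exp x₁ - exp x₂| ≤ 65 * (2 * |x₁ - x₂|) :=
    mul_le_mul (by nlinarith) h4 (abs_nonneg _) (by norm_num)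
  have e5 : |y₁ - y₂| * 11 ≤ |y₁ - y₂| * (y₁ + y₂) :=
    mul_le_mul_of_nonneg_left (by linarith) (abs_nonneg _)
  linarith

theorem exists_root {η : ℝ} {u : ℝ → ℝ} (hu : Lip η u) (hη : 0 ≤ η) (hη' : η ≤ 1 / 1000)
    {c : ℝ} (hc : 6 ≤ c) (θ : ℝ) : ∃ y, IsRoot u c θ y := by
  set f : ℝ → ℝ := fun y => 1 + y ^ 2 - (1 + c ^ 2) * exp (infc u (θ + arctan y) - u θ) with hf
  have hcont : Continuous f := by
    have h1 : Continuous (infc u) := by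
      have : LipschitzWith (Real.toNNReal η) (infc u) := by
        apply LipschitzWith.of_dist_le_mul
        intro x y
        rw [Real.dist_eq, Real.dist_eq, Real.coe_toNNReal _ hη]
        exact infc_lip hu hη x y
      exact this.continuous
    have h2 : Continuous fun y : ℝ => infc u (θ + arctan y) :=
      h1.comp (continuous_const.add continuous_arctan)
    fun_prop
  have key : ∀ y, |exp (infc u (θ + arctan y) - u θ) - 1| ≤ 6 * η := by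
    intro y
    have hx := x_bound hu hη hη' θ y
    have := Real.abs_exp_sub_one_le (x := infc u (θ + arctan y) - u θ) (by linarith)
    linarith
  have hlo : f (c / 2) ≤ 0 := by
    have := abs_le.1 (key (c / 2))
    simp only [hf]
    nlinarith
  have hhi : 0 ≤ f (2 * c) := by
    have := abs_le.1 (key (2 * c))
    simp only [hf]
    nlinarith
  obtain ⟨y, hy, hy0⟩ := intermediate_value_Icc (show c / 2 ≤ 2 * c by linarith)
    hcont.continuousOn ⟨hlo, hhi⟩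
  refine ⟨y, by linarith [hy.1], ?_⟩
  simp only [hf] at hy0
  linarith

/-- Dependence of the root on everything but the function. -/
theorem IsRoot.diff_same {η : ℝ} {u : ℝ → ℝ} (hu : Lip η u) (hη : 0 ≤ η) (hη' : η ≤ 1 / 1000)
    {c₁ c₂ θ₁ θ₂ y₁ y₂ : ℝ} (hc₁ : 6 ≤ c₁) (hc₁' : c₁ ≤ 8) (hc₂ : 6 ≤ c₂) (hc₂' : c₂ ≤ 8)
    (h₁ : IsRoot u c₁ θ₁ y₁) (h₂ : IsRoot u c₂ θ₂ y₂) :
    |y₁ - y₂| ≤ 2 * |c₁ - c₂| + 30 * η * |θ₁ - θ₂| := by
  have b1 := h₁.bounds hu hη hη' hc₁ hc₁'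
  have b2 := h₂.bounds hu hη hη' hc₂ hc₂'
  have h := IsRoot.sub hη' hc₁ hc₁' hc₂ hc₂' b1.1 b2.1 (x_bound hu hη hη' θ₁ y₁)
    (x_bound hu hη hη' θ₂ y₂) h₁.2 h₂.2
  have hx : |infc u (θ₁ + arctan y₁) - u θ₁ - (infc u (θ₂ + arctan y₂) - u θ₂)| ≤
      2 * η * |θ₁ - θ₂| + η * |y₁ - y₂| := by
    have a1 := infc_lip hu hη (θ₁ + arctan y₁) (θ₂ + arctan y₂)
    have a2 := hu θ₁ θ₂
    have a3 : |θ₁ + arctan y₁ - (θ₂ + arctan y₂)| ≤ |θ₁ - θ₂| + |y₁ - y₂| := by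
      rw [show θ₁ + arctan y₁ - (θ₂ + arctan y₂) = (θ₁ - θ₂) + (arctan y₁ - arctan y₂) by ring]
      refine (abs_add_le _ _).trans ?_
      linarith [arctan_lip y₁ y₂]
    have a4 := mul_le_mul_of_nonneg_left a3 hη
    rw [show infc u (θ₁ + arctan y₁) - u θ₁ - (infc u (θ₂ + arctan y₂) - u θ₂) =
      (infc u (θ₁ + arctan y₁) - infc u (θ₂ + arctan y₂)) - (u θ₁ - u θ₂) by ring]
    refine (abs_sub _ _).trans ?_
    linarith
  have h5 := abs_nonneg (y₁ - y₂)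
  have h6 := abs_nonneg (θ₁ - θ₂)
  have h7 := abs_nonneg (c₁ - c₂)
  nlinarith [mul_nonneg hη h6, mul_nonneg hη h5]

theorem IsRoot.unique {η : ℝ} {u : ℝ → ℝ} (hu : Lip η u) (hη : 0 ≤ η) (hη' : η ≤ 1 / 1000)
    {c θ y₁ y₂ : ℝ} (hc : 6 ≤ c) (hc' : c ≤ 8)
    (h₁ : IsRoot u c θ y₁) (h₂ : IsRoot u c θ y₂) : y₁ = y₂ := by
  have := IsRoot.diff_same hu hη hη' hc hc' hc hc' h₁ h₂
  simp at this
  linarith [this]

/-- The linearisation of the root in the function. -/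
theorem IsRoot.linear {η N : ℝ} {u₁ u₂ : ℝ → ℝ} (hu₁ : Lip η u₁) (hu₂ : Lip η u₂)
    (hη : 0 ≤ η) (hη' : η ≤ 1 / 1000) (hN : 0 ≤ N) (hd : Lip N (fun x => u₁ x - u₂ x))
    {c θ y₁ y₂ : ℝ} (hc : 6 ≤ c) (hc' : c ≤ 8)
    (h₁ : IsRoot u₁ c θ y₁) (h₂ : IsRoot u₂ c θ y₂) :
    |y₁ - y₂ - (1 + c ^ 2) / (2 * c) *
      ((u₁ (θ + arctan c) - u₂ (θ + arctan c)) - (u₁ θ - u₂ θ))| ≤ 900 * η * N := by
  have b1 := h₁.bounds hu₁ hη hη' hc hc'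
  have b2 := h₂.bounds hu₂ hη hη' hc hc'
  set x₁ := infc u₁ (θ + arctan y₁) - u₁ θ with hx1
  set x₂ := infc u₂ (θ + arctan y₂) - u₂ θ with hx2
  have bx1 : |x₁| ≤ 3 * η := x_bound hu₁ hη hη' θ y₁
  have bx2 : |x₂| ≤ 3 * η := x_bound hu₂ hη hη' θ y₂
  have e₁ : 1 + y₁ ^ 2 = (1 + c ^ 2) * exp x₁ := h₁.2
  have e₂ : 1 + y₂ ^ 2 = (1 + c ^ 2) * exp x₂ := h₂.2
  set Δ := (u₁ (θ + arctan c) - u₂ (θ + arctan c)) - (u₁ θ - u₂ θ) with hΔ
  have hΔb : |Δ| ≤ 2 * N := by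
    have a1 := hd (θ + arctan c) θ
    simp only [add_sub_cancel_left] at a1
    have a2 := mul_le_mul_of_nonneg_left (abs_arctan_le_two c) hN
    linarith
  have hNη : 0 ≤ η * N := mul_nonneg hη hN
  have k1 : |x₁ - x₂ - Δ| ≤ 42 * (η * N) + η * |y₁ - y₂| := by
    have a1 := infc_diff hu₁ hu₂ hη (by linarith) hN hd (θ + arctan y₁)
    have a2 := infc_lip hu₂ hη (θ + arctan y₁) (θ + arctan y₂)
    have a3 := hd (θ + arctan y₁) (θ + arctan c)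
    simp only at a3
    rw [show θ + arctan y₁ - (θ + arctan c) = arctan y₁ - arctan c by ring] at a3
    rw [show θ + arctan y₁ - (θ + arctan y₂) = arctan y₁ - arctan y₂ by ring] at a2
    have a4 := mul_le_mul_of_nonneg_left ((arctan_lip y₁ c).trans b1.2.2) hN
    have a5 := mul_le_mul_of_nonneg_left (arctan_lip y₁ y₂) hη
    have e : x₁ - x₂ - Δ = (infc u₁ (θ + arctan y₁) - infc u₂ (θ + arctan y₁) -
          (u₁ (θ + arctan y₁) - u₂ (θ + arctan y₁))) +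
        ((u₁ (θ + arctan y₁) - u₂ (θ + arctan y₁)) - (u₁ (θ + arctan c) - u₂ (θ + arctan c))) +
        (infc u₂ (θ + arctan y₁) - infc u₂ (θ + arctan y₂)) := by
      rw [hx1, hx2, hΔ]; ring
    rw [e]
    refine (abs_add_three _ _ _).trans ?_
    linarith
  have k2 : |x₁ - x₂| ≤ 42 * (η * N) + η * |y₁ - y₂| + 2 * N := by
    have := abs_add_le (x₁ - x₂ - Δ) Δ
    rw [sub_add_cancel] at this
    linarith
  have k3 := IsRoot.sub hη' hc hc' hc hc' b1.1 b2.1 bx1 bx2 e₁ e₂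
  rw [sub_self, abs_zero, mul_zero, zero_add] at k3
  have hp := abs_nonneg (y₁ - y₂)
  have hηN1 : η * N ≤ 1 / 1000 * N := mul_le_mul_of_nonneg_right hη' hN
  have hηp : η * |y₁ - y₂| ≤ 1 / 1000 * |y₁ - y₂| := mul_le_mul_of_nonneg_right hη' hp
  have k4 : |y₁ - y₂| ≤ 26 * N := by linarith
  have k4' : η * |y₁ - y₂| ≤ 26 * (η * N) := by
    have := mul_le_mul_of_nonneg_left k4 hη
    linarith
  have k5 : |x₁ - x₂ - Δ| ≤ 68 * (η * N) := by linarith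
  have k6 : |x₁ - x₂| ≤ 3 * N := by linarith
  have k7 := exp_diff (h := 3 * η) (by linarith) bx1 bx2
  have k8 : |exp x₁ - exp x₂ - (x₁ - x₂)| ≤ 54 * (η * N) := by
    have := mul_le_mul_of_nonneg_left k6 (show 0 ≤ 6 * (3 * η) by positivity)
    linarith
  have k9 : |exp x₁ - exp x₂ - Δ| ≤ 122 * (η * N) := by
    have := abs_add_le (exp x₁ - exp x₂ - (x₁ - x₂)) (x₁ - x₂ - Δ)
    rw [show exp x₁ - exp x₂ - (x₁ - x₂) + (x₁ - x₂ - Δ) = exp x₁ - exp x₂ - Δ by ring] at this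
    linarith
  have k10 : |y₁ + y₂ - 2 * c| ≤ 80 * η := by
    have := abs_add_le (y₁ - c) (y₂ - c)
    rw [show y₁ - c + (y₂ - c) = y₁ + y₂ - 2 * c by ring] at this
    linarith [b1.2.2, b2.2.2]
  have e3 : 2 * c * (y₁ - y₂ - (1 + c ^ 2) / (2 * c) * Δ) =
      (1 + c ^ 2) * (exp x₁ - exp x₂ - Δ) - (y₁ - y₂) * (y₁ + y₂ - 2 * c) := by
    have : 2 * c * (y₁ - y₂ - (1 + c ^ 2) / (2 * c) * Δ) =
      2 * c * (y₁ - y₂) - (1 + c ^ 2) * Δ := by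
      field_simp
    rw [this]
    have q : (y₁ - y₂) * (y₁ + y₂) = (1 + c ^ 2) * (exp x₁ - exp x₂) := by
      have : y₁ ^ 2 - y₂ ^ 2 = (1 + c ^ 2) * exp x₁ - (1 + c ^ 2) * exp x₂ := by
        rw [← e₁, ← e₂]; ring
      rw [mul_sub, ← this]; ring
    linear_combination q
  have e4 : |2 * c * (y₁ - y₂ - (1 + c ^ 2) / (2 * c) * Δ)| ≤
      65 * (122 * (η * N)) + (26 * N) * (80 * η) := by
    rw [e3]
    refine (abs_sub _ _).trans ?_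
    rw [abs_mul, abs_mul, abs_of_pos (show 0 < 1 + c ^ 2 by positivity)]
    have m1 : (1 + c ^ 2) * |exp x₁ - exp x₂ - Δ| ≤ 65 * (122 * (η * N)) :=
      mul_le_mul (by nlinarith) k9 (abs_nonneg _) (by norm_num)
    have m2 : |y₁ - y₂| * |y₁ + y₂ - 2 * c| ≤ (26 * N) * (80 * η) :=
      mul_le_mul k4 k10 (abs_nonneg _) (by positivity)
    linarith
  rw [abs_mul, abs_of_pos (show 0 < 2 * c by linarith)] at e4
  have e5 := abs_nonneg (y₁ - y₂ - (1 + c ^ 2) / (2 * c) * Δ)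
  have e6 : 12 * |y₁ - y₂ - (1 + c ^ 2) / (2 * c) * Δ| ≤
      2 * c * |y₁ - y₂ - (1 + c ^ 2) / (2 * c) * Δ| :=
    mul_le_mul_of_nonneg_right (by linarith) e5
  linarith

end H855HC
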