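import Pool.Agent.H855R3.HC.Lin3

set_option autoImplicit false

open Real Set intervalIntegral

namespace H855HC

theorem m5_cc {e : ℝ} (he : 145 / 1000 ≤ e) (he' : e ≤ 155 / 1000) :
    m5 (cc e) = 2 * cos (5 * e) / (5 * sin (2 * e)) := by
  unfold m5
  rw [kappa_eq he he', arctan_cc he he']
  have h : sin (5 * (π / 2 - e)) = cos (5 * e) := by
    rw [show 5 * (π / 2 - e) = π / 2 - 5 * e + 2 * π by ring, sin_add_two_pi, sin_pi_div_two_sub]
  rw [h]
  have h1 : sin (2 * e) ≠ 0 := by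
    have h1 : 2 * e - (2 * e) ^ 3 / 6 < sin (2 * e) := sin_gt_sub_cube (by linarith)
    have h3 : (2 * e) ^ 3 ≤ (31 / 100) ^ 3 := pow_le_pow_left₀ (by linarith) (by linarith) 3
    norm_num at h3
    have : 0 < sin (2 * e) := by linarith
    exact this.ne'
  field_simp

theorem m5_left : 1 + 16 / 1000 ≤ m5 (cc (145 / 1000)) := by
  rw [m5_cc (by norm_num) (by norm_num)]
  have h1 : 1 - (5 * (145 / 1000) : ℝ) ^ 2 / 2 ≤ cos (5 * (145 / 1000)) := one_sub_sq_div_two_le_cos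
  have h2 : sin (2 * (145 / 1000)) < 2 * (145 / 1000) := sin_lt (by norm_num)
  have h3 : (2 * (145 / 1000) : ℝ) - (2 * (145 / 1000)) ^ 3 / 6 < sin (2 * (145 / 1000)) :=
    sin_gt_sub_cube (by norm_num)
  rw [le_div_iff₀ (by linarith)]
  linarith

theorem m5_right : m5 (cc (155 / 1000)) ≤ 1 - 5 / 100 := by
  rw [m5_cc (by norm_num) (by norm_num)]
  have h1 := Real.cos_bound (x := 5 * (155 / 1000)) (by
    rw [abs_of_pos (by norm_num)]; norm_num)
  rw [abs_of_pos (show (0 : ℝ) < 5 * (155 / 1000) by norm_num)] at h1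
  have h2 := (abs_le.1 h1).2
  have h3 : (2 * (155 / 1000) : ℝ) - (2 * (155 / 1000)) ^ 3 / 6 < sin (2 * (155 / 1000)) :=
    sin_gt_sub_cube (by norm_num)
  rw [div_le_iff₀ (by linarith)]
  linarith

/-- truncation -/
noncomputable def clampf (η : ℝ) (v : ℝ → ℝ) (t : ℝ) : ℝ := max (-η) (min η (v t))

theorem clampf_good {η : ℝ} (hη : 0 ≤ η) {v : ℝ → ℝ} (hv : Good v) : Good (clampf η v) where
  cont := by
    have := hv.cont
    unfold clampf
    fun_prop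
  per := by
    intro x
    unfold clampf
    rw [hv.per]
  odd := by
    intro x
    unfold clampf
    rw [hv.odd]
    rcases le_total (v x) η with h | h <;> rcases le_total (-η) (v x) with h' | h'
    · rw [min_eq_right h, max_eq_right h', min_eq_right (by linarith), max_eq_right (by linarith)]
    · rw [min_eq_right h, max_eq_left h', min_eq_left (by linarith), max_eq_right (by linarith)]
      ring
    · rw [min_eq_left h, min_eq_right (show -v x ≤ η by linarith),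
        max_eq_left (show -v x ≤ -η by linarith), max_eq_right (show -η ≤ η by linarith)]
    · have : η = 0 := by linarith
      subst this
      rw [min_eq_left h]
      simp only [neg_zero, max_self]
      rw [min_eq_right (by linarith)]
      have : v x = 0 := by linarith
      rw [this]; simp

theorem clampf_bd {η : ℝ} (hη : 0 ≤ η) (v : ℝ → ℝ) : Bd η (clampf η v) := by
  intro t
  unfold clampf
  rw [abs_le]
  constructor
  · exact le_max_left _ _
  · exact max_le (by linarith) (min_le_left _ _)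

theorem clampf_sub {η : ℝ} (v w : ℝ → ℝ) (t : ℝ) :
    |clampf η v t - clampf η w t| ≤ |v t - w t| := by
  unfold clampf
  rw [max_comm (-η), max_comm (-η), min_comm η, min_comm η]
  refine (abs_max_sub_max_le_abs _ _ _).trans ?_
  have := abs_min_sub_min_le_max (v t) η (w t) η
  rw [sub_self, abs_zero, max_eq_left (abs_nonneg _)] at this
  exact this

theorem clampf_eq {η : ℝ} {v : ℝ → ℝ} (hb : Bd η v) : clampf η v = v := by
  ext t
  unfold clampf
  have := abs_le.1 (hb t)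
  rw [min_eq_right this.2, max_eq_right this.1]

/-- truncation level -/
noncomputable def eta0 : ℝ := 1 / 10 ^ 7
/-- amplitude -/
noncomputable def eps : ℝ := 1 / 10 ^ 8

theorem eta0_pos : 0 < eta0 := by unfold eta0; positivity
theorem eps_pos : 0 < eps := by unfold eps; positivity
theorem eta0_le : eta0 ≤ 1 / 1000 := by unfold eta0; norm_num

/-- `ε s₅ + w`. -/
noncomputable def arg (w : ℝ → ℝ) (t : ℝ) : ℝ := eps * s5 t + w t

theorem arg_good {w : ℝ → ℝ} (hw : Good w) : Good (arg w) where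
  cont := by
    have h1 := hw.cont
    have h2 := s5_cont
    unfold arg
    fun_prop
  per := by
    intro x
    unfold arg
    rw [hw.per, s5_good.per]
  odd := by
    intro x
    unfold arg
    rw [hw.odd, s5_good.odd]
    ring

/-- Remainder. -/
noncomputable def Ef (c : ℝ) (v : ℝ → ℝ) (θ : ℝ) : ℝ := Psi c v θ - Lop c v θ

section

variable {c : ℝ}

theorem Ef_good {η : ℝ} {v : ℝ → ℝ} (hv : Good v) (hb : Bd η v) (hη' : η ≤ 1 / 1000)
    (hc : 6 ≤ c) (hc' : c ≤ 8) : Good (Ef c v) where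
  cont := (Psi_good hv hb hη' hc hc').cont.sub (Lop_good hv).cont
  per := by
    intro x
    unfold Ef
    rw [(Psi_good hv hb hη' hc hc').per, (Lop_good hv).per]
  odd := by
    intro x
    unfold Ef
    rw [(Psi_good hv hb hη' hc hc').odd, (Lop_good hv).odd]
    ring

theorem Ef_lip {η N : ℝ} {v₁ v₂ : ℝ → ℝ} (h₁ : Good v₁) (h₂ : Good v₂)
    (hb₁ : Bd η v₁) (hb₂ : Bd η v₂) (hd : Bd N fun t => v₁ t - v₂ t)
    (hη' : η ≤ 1 / 1000) (hc : 6 ≤ c) (hc' : c ≤ 8) :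
    Bd (1800 * η * N) (fun θ => Ef c v₁ θ - Ef c v₂ θ) := by
  intro θ
  have := Psi_linear h₁ h₂ hb₁ hb₂ hd hη' hc hc' θ
  simp only [Ef]
  rw [show Psi c v₁ θ - Lop c v₁ θ - (Psi c v₂ θ - Lop c v₂ θ) =
    Psi c v₁ θ - Psi c v₂ θ - (Lop c v₁ θ - Lop c v₂ θ) by ring]
  exact this

theorem zero_good : Good (fun _ => 0) := ⟨continuous_const, fun _ => rfl, fun _ => by simp⟩

theorem Ef_bd {η : ℝ} {v : ℝ → ℝ} (hv : Good v) (hb : Bd η v) (hη' : η ≤ 1 / 1000)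
    (hc : 6 ≤ c) (hc' : c ≤ 8) : Bd (1800 * η * η) (Ef c v) := by
  intro θ
  have h0 : Bd η (fun _ : ℝ => (0 : ℝ)) := fun t => by simpa using hb.nonneg
  have := Ef_lip (N := η) hv zero_good hb h0 (by simpa using hb) hη' hc hc' θ
  simp only [Ef, Psi_zero hc hc', Lop_zero, sub_zero] at this
  exact this

theorem Ef_param {η c₁ c₂ : ℝ} (hc₁ : 6 ≤ c₁) (hc₁' : c₁ ≤ 8) (hc₂ : 6 ≤ c₂) (hc₂' : c₂ ≤ 8)
    {v : ℝ → ℝ} (hv : Good v) (hb : Bd η v) (hη' : η ≤ 1 / 1000) :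
    Bd (5 * |c₁ - c₂|) (fun θ => Ef c₁ v θ - Ef c₂ v θ) := by
  intro θ
  simp only [Ef]
  rw [show Psi c₁ v θ - Lop c₁ v θ - (Psi c₂ v θ - Lop c₂ v θ) =
    (Psi c₁ v θ - Psi c₂ v θ) - (Lop c₁ v θ - Lop c₂ v θ) by ring]
  refine (abs_sub _ _).trans ?_
  have h1 := Psi_param hc₁ hc₁' hc₂ hc₂' hv.cont hb hη' θ
  have h2 := Lop_param hc₁ hc₂ hc₂' hv.cont hb θ
  have h3 := mul_le_mul_of_nonneg_right hη' (abs_nonneg (c₁ - c₂))
  linarith [abs_nonneg (c₁ - c₂)]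

/-- subtracting the basic mode -/
noncomputable def prj (f : ℝ → ℝ) (θ : ℝ) : ℝ := f θ - ell f * s5 θ

theorem prj_good {f : ℝ → ℝ} (hf : Good f) : Good (prj f) where
  cont := hf.cont.sub (continuous_const.mul s5_cont)
  per := by
    intro x
    unfold prj
    rw [hf.per, s5_good.per]
  odd := by
    intro x
    unfold prj
    rw [hf.odd, s5_good.odd]
    ring

theorem prj_ell {f : ℝ → ℝ} (hf : Continuous f) : ell (prj f) = 0 := by
  have h := ell_sub (v := f) (w := fun t => ell f * s5 t) hf (continuous_const.mul s5_cont)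
  rw [ell_smul, ell_s5] at h
  have h2 : ell (prj f) = ell (fun t => f t - ell f * s5 t) := rfl
  rw [h2, h]
  ring

theorem prj_bd {N : ℝ} {f : ℝ → ℝ} (hb : Bd N f) : Bd (3 * N) (prj f) := by
  intro θ
  unfold prj
  refine (abs_sub _ _).trans ?_
  rw [abs_mul]
  have h1 := ell_bd hb
  have h2 := hb θ
  have h3 := mul_le_mul h1 (s5_bd θ) (abs_nonneg _) (by linarith [hb.nonneg])
  linarith

theorem prj_sub {f g : ℝ → ℝ} (hf : Continuous f) (hg : Continuous g) (θ : ℝ) :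
    prj (fun t => f t - g t) θ = prj f θ - prj g θ := by
  unfold prj
  rw [ell_sub hf hg]
  ring

/-- The nonlinear part. -/
noncomputable def Ep (c : ℝ) (w : ℝ → ℝ) : ℝ → ℝ := prj (Ef c (clampf eta0 (arg w)))

/-- The operator. -/
noncomputable def Tf (c : ℝ) (w : ℝ → ℝ) (θ : ℝ) : ℝ := Lop c w θ + Ep c w θ

theorem Ep_good (hc : 6 ≤ c) (hc' : c ≤ 8) {w : ℝ → ℝ} (hw : Good w) : Good (Ep c w) :=
  prj_good (Ef_good (clampf_good eta0_pos.le (arg_good hw)) (clampf_bd eta0_pos.le _) eta0_le hc hc')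

theorem Ep_ell (hc : 6 ≤ c) (hc' : c ≤ 8) {w : ℝ → ℝ} (hw : Good w) : ell (Ep c w) = 0 :=
  prj_ell (Ef_good (clampf_good eta0_pos.le (arg_good hw)) (clampf_bd eta0_pos.le _)
    eta0_le hc hc').cont

theorem Ep_lip (hc : 6 ≤ c) (hc' : c ≤ 8) {N : ℝ} {w₁ w₂ : ℝ → ℝ} (h₁ : Good w₁) (h₂ : Good w₂)
    (hd : Bd N fun t => w₁ t - w₂ t) :
    Bd (1 / 1000 * N) (fun θ => Ep c w₁ θ - Ep c w₂ θ) := by
  have g1 := clampf_good eta0_pos.le (arg_good h₁)
  have g2 := clampf_good eta0_pos.le (arg_good h₂)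
  have b1 := clampf_bd eta0_pos.le (arg w₁)
  have b2 := clampf_bd eta0_pos.le (arg w₂)
  have hd' : Bd N fun t => clampf eta0 (arg w₁) t - clampf eta0 (arg w₂) t := by
    intro t
    refine (clampf_sub _ _ t).trans ?_
    have := hd t
    simp only [arg]
    rwa [show eps * s5 t + w₁ t - (eps * s5 t + w₂ t) = w₁ t - w₂ t by ring]
  have h := prj_bd (Ef_lip g1 g2 b1 b2 hd' eta0_le hc hc')
  intro θ
  have h' := h θ
  rw [prj_sub (Ef_good g1 b1 eta0_le hc hc').cont (Ef_good g2 b2 eta0_le hc hc').cont] at h'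
  refine h'.trans ?_
  unfold eta0
  have := hd.nonneg
  linarith

theorem Tf_good (hc : 6 ≤ c) (hc' : c ≤ 8) {w : ℝ → ℝ} (hw : Good w) : Good (Tf c w) where
  cont := (Lop_good hw).cont.add (Ep_good hc hc' hw).cont
  per := by
    intro x
    unfold Tf
    rw [(Lop_good hw).per, (Ep_good hc hc' hw).per]
  odd := by
    intro x
    unfold Tf
    rw [(Lop_good hw).odd, (Ep_good hc hc' hw).odd]
    ring

theorem Tf_ell (hc : 6 ≤ c) (hc' : c ≤ 8) {w : ℝ → ℝ} (hw : Good w) (h0 : ell w = 0) :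
    ell (Tf c w) = 0 := by
  unfold Tf
  rw [ell_add (Lop_good hw).cont (Ep_good hc hc' hw).cont, ell_Lop hw, h0, Ep_ell hc hc' hw]
  ring

theorem Tf_bd (hc : 6 ≤ c) (hc' : c ≤ 8) {N : ℝ} {w : ℝ → ℝ} (hw : Good w) (hb : Bd N w) :
    Bd (20 * N + 1) (Tf c w) := by
  intro θ
  unfold Tf
  refine (abs_add_le _ _).trans ?_
  have h1 := Lop_bd hc hc' hw.cont hb θ
  have h2 := prj_bd (Ef_bd (clampf_good eta0_pos.le (arg_good hw)) (clampf_bd eta0_pos.le _)
    eta0_le hc hc') θ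
  have h3 : 3 * (1800 * eta0 * eta0) ≤ 1 := by unfold eta0; norm_num
  have h4 : |Ep c w θ| ≤ 1 := h2.trans h3
  linarith

theorem Tf_lip (hc : 6 ≤ c) (hc' : c ≤ 8) {N : ℝ} {w₁ w₂ : ℝ → ℝ} (h₁ : Good w₁) (h₂ : Good w₂)
    (hd : Bd N fun t => w₁ t - w₂ t) :
    Bd (21 * N) (fun θ => Tf c w₁ θ - Tf c w₂ θ) := by
  intro θ
  simp only [Tf]
  have e1 : Lop c w₁ θ + Ep c w₁ θ - (Lop c w₂ θ + Ep c w₂ θ) =
      Lop c (fun t => w₁ t - w₂ t) θ + (Ep c w₁ θ - Ep c w₂ θ) := by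
    rw [Lop_sub h₁.cont h₂.cont]; ring
  rw [e1]
  refine (abs_add_le _ _).trans ?_
  have a1 := Lop_bd hc hc' (h₁.cont.sub h₂.cont) hd θ
  have a2 := Ep_lip hc hc' h₁ h₂ hd θ
  have := hd.nonneg
  have a1' : |Lop c (fun t => w₁ t - w₂ t) θ| ≤ 20 * N := a1
  simp only at a2
  linarith

theorem Tf_param {c₁ c₂ : ℝ} (hc₁ : 6 ≤ c₁) (hc₁' : c₁ ≤ 8) (hc₂ : 6 ≤ c₂) (hc₂' : c₂ ≤ 8)
    {w : ℝ → ℝ} (hw : Good w) (hb : Bd 1 w) :
    Bd (35 * |c₁ - c₂|) (fun θ => Tf c₁ w θ - Tf c₂ w θ) := by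
  intro θ
  simp only [Tf]
  have g := clampf_good eta0_pos.le (arg_good hw)
  have b := clampf_bd eta0_pos.le (arg w)
  have h1 := prj_bd (Ef_param hc₁ hc₁' hc₂ hc₂' g b eta0_le) θ
  rw [prj_sub (Ef_good g b eta0_le hc₁ hc₁').cont (Ef_good g b eta0_le hc₂ hc₂').cont] at h1
  have h1' : |Ep c₁ w θ - Ep c₂ w θ| ≤ 3 * (5 * |c₁ - c₂|) := h1
  have h2 := Lop_param hc₁ hc₂ hc₂' hw.cont hb θ
  rw [show Lop c₁ w θ + Ep c₁ w θ - (Lop c₂ w θ + Ep c₂ w θ) =
    (Lop c₁ w θ - Lop c₂ w θ) + (Ep c₁ w θ - Ep c₂ w θ) by ring]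
  refine (abs_add_le _ _).trans ?_
  linarith

end

theorem good_sub {v w : ℝ → ℝ} (hv : Good v) (hw : Good w) : Good (fun t => v t - w t) where
  cont := hv.cont.sub hw.cont
  per := by intro x; simp only [hv.per, hw.per]
  odd := by intro x; simp only [hv.odd, hw.odd]; ring

theorem Tf_lip2 {e : ℝ} (he : 145 / 1000 ≤ e) (he' : e ≤ 155 / 1000) {N : ℝ} {w₁ w₂ : ℝ → ℝ}
    (h₁ : Good w₁) (h₂ : Good w₂) (l₁ : ell w₁ = 0) (l₂ : ell w₂ = 0)
    (hd : Bd N fun t => w₁ t - w₂ t) :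
    Bd (95 / 100 * N) (fun θ => Tf (cc e) (Tf (cc e) w₁) θ - Tf (cc e) (Tf (cc e) w₂) θ) := by
  obtain ⟨hc, hc'⟩ := cc_bounds he he'
  set c := cc e with hcdef
  intro θ
  have g1 := Tf_good hc hc' h₁
  have g2 := Tf_good hc hc' h₂
  have hdN := hd.nonneg
  have e1 : Tf c (Tf c w₁) θ - Tf c (Tf c w₂) θ =
      Lop c (fun t => Tf c w₁ t - Tf c w₂ t) θ + (Ep c (Tf c w₁) θ - Ep c (Tf c w₂) θ) := by
    rw [Lop_sub g1.cont g2.cont]
    simp only [Tf]; ring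
  have e2 : (fun t => Tf c w₁ t - Tf c w₂ t) =
      fun t => Lop c (fun t => w₁ t - w₂ t) t - (-(Ep c w₁ t - Ep c w₂ t)) := by
    ext t
    rw [Lop_sub h₁.cont h₂.cont]
    simp only [Tf]; ring
  have gL := Lop_good (c := c) (good_sub h₁ h₂)
  have gE : Continuous (fun t => -(Ep c w₁ t - Ep c w₂ t)) :=
    ((Ep_good hc hc' h₁).cont.sub (Ep_good hc hc' h₂).cont).neg
  simp only
  rw [e1, e2, Lop_sub gL.cont gE]
  have a1 : |Lop c (Lop c fun t => w₁ t - w₂ t) θ| ≤ 9 / 10 * N :=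
    Lop_sq_bd he he' (good_sub h₁ h₂) (by rw [ell_sub h₁.cont h₂.cont, l₁, l₂, sub_zero]) hd θ
  have a2 : |Lop c (fun t => -(Ep c w₁ t - Ep c w₂ t)) θ| ≤ 20 * (1 / 1000 * N) := by
    apply Lop_bd hc hc' gE
    intro t
    rw [abs_neg]
    exact Ep_lip hc hc' h₁ h₂ hd t
  have a3 : |Ep c (Tf c w₁) θ - Ep c (Tf c w₂) θ| ≤ 1 / 1000 * (21 * N) :=
    Ep_lip hc hc' g1 g2 (Tf_lip hc hc' h₁ h₂ hd) θ
  refine (abs_add_le _ _).trans ?_
  have := abs_sub (Lop c (Lop c fun t => w₁ t - w₂ t) θ)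
    (Lop c (fun t => -(Ep c w₁ t - Ep c w₂ t)) θ)
  linarith

end H855HC
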